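import Pool.Agent.Run7.h895.Conc

namespace Run7.h895

open MeasureTheory Filter Topology Set Metric
open scoped ContDiff

theorem IsTest.comp_sub {η : E3 → ℝ} (h : IsTest η) (c : E3) : IsTest (fun y => η (y - c)) where
  smooth := h.smooth.comp (contDiff_id.sub contDiff_const)
  cpt := h.cpt.comp_homeomorph (Homeomorph.subRight c)

theorem tsupport_comp_sub (η : E3 → ℝ) (c : E3) :
    tsupport (fun y => η (y - c)) = (fun y => y - c) ⁻¹' tsupport η :=
  tsupport_comp_eq_preimage η (Homeomorph.subRight c)

theorem fderiv_comp_sub' {η : E3 → ℝ} (c y : E3) :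
    fderiv ℝ (fun y => η (y - c)) y = fderiv ℝ η (y - c) := fderiv_comp_sub c

/-- The integral of a derivative of a test function vanishes. -/
theorem IsTest.integral_fderiv {ζ : E3 → ℝ} (h : IsTest ζ) (v : E3) :
    ∫ x, fderiv ℝ ζ x v = 0 := by
  have hi : Integrable (fun x => fderiv ℝ ζ x v) := by
    refine Continuous.integrable_of_hasCompactSupport (h.continuous_fderiv.clm_apply
      continuous_const) ?_
    exact h.hasCompactSupport_fderiv.comp_left (g := fun L : E3 →L[ℝ] ℝ => L v) rfl
  have hi0 : Integrable ζ := h.smooth.continuous.integrable_of_hasCompactSupport h.cpt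
  have := integral_mul_fderiv_eq_neg_fderiv_mul_of_integrable (μ := (volume : Measure E3))
    (f := fun _ : E3 => (1 : ℝ)) (g := ζ) (v := v)
    (by simp) (by simpa using hi) (by simpa using hi0) (fun x _ => by fun_prop)
    (fun x _ => h.contDiff.differentiable (by simp) x)
  simpa using this

/-- If `m` is integrable and its derivative in the direction `d` vanishes when tested with the
translates of `η` by `τ d`, `0 ≤ τ ≤ 1`, then `∫ m η (· - d) = ∫ m η`. -/
theorem shift_const {m : E3 → ℝ} (hm : Integrable m) {η : E3 → ℝ} (h : IsTest η) (d : E3)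
    (h0 : ∀ τ ∈ Icc (0 : ℝ) 1, ∫ y, m y * fderiv ℝ η (y - τ • d) d = 0) :
    ∫ y, m y * η (y - d) = ∫ y, m y * η y := by
  obtain ⟨C, hC⟩ : ∃ C, ∀ y, ‖fderiv ℝ η y d‖ ≤ C := by
    have hc : Continuous (fun x => fderiv ℝ η x d) :=
      h.continuous_fderiv.clm_apply continuous_const
    have hs : HasCompactSupport (fun x => fderiv ℝ η x d) :=
      h.hasCompactSupport_fderiv.comp_left (g := fun L : E3 →L[ℝ] ℝ => L d) rfl
    exact hc.bounded_above_of_compact_support hs
  obtain ⟨D, hD⟩ : ∃ D, ∀ y, ‖η y‖ ≤ D :=
    h.smooth.continuous.bounded_above_of_compact_support h.cpt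
  have hder : ∀ τ₀ : ℝ, HasDerivAt (fun τ : ℝ => ∫ y, m y * η (y - τ • d))
      (∫ y, -(m y * fderiv ℝ η (y - τ₀ • d) d)) τ₀ := by
    intro τ₀
    have hcm : ∀ τ : ℝ, Continuous (fun y : E3 => η (y - τ • d)) := fun τ =>
      h.smooth.continuous.comp (by fun_prop)
    refine (hasDerivAt_integral_of_dominated_loc_of_deriv_le (μ := (volume : Measure E3))
      (F := fun τ y => m y * η (y - τ • d))
      (F' := fun τ y => -(m y * fderiv ℝ η (y - τ • d) d))
      (bound := fun y => ‖m y‖ * C) (s := univ) univ_mem ?_ ?_ ?_ ?_ ?_ ?_).2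
    · exact Eventually.of_forall (fun τ => hm.aestronglyMeasurable.mul
        (hcm τ).aestronglyMeasurable)
    · refine (hm.norm.mul_const D).mono' (hm.aestronglyMeasurable.mul
        (hcm τ₀).aestronglyMeasurable) (Eventually.of_forall (fun y => ?_))
      rw [norm_mul]
      exact mul_le_mul_of_nonneg_left (hD _) (norm_nonneg _)
    · refine (hm.aestronglyMeasurable.mul ?_).neg
      have : Continuous (fun y : E3 => fderiv ℝ η (y - τ₀ • d) d) :=
        (h.continuous_fderiv.comp (by fun_prop)).clm_apply continuous_const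
      exact this.aestronglyMeasurable
    · refine Eventually.of_forall (fun y τ _ => ?_)
      rw [norm_neg, norm_mul]
      exact mul_le_mul_of_nonneg_left (hC _) (norm_nonneg _)
    · exact hm.norm.mul_const C
    · refine Eventually.of_forall (fun y τ _ => ?_)
      have h1 : HasDerivAt (fun τ : ℝ => y - τ • d) (-d) τ := by
        have := ((hasDerivAt_id τ).smul_const d).const_sub y
        simpa using this
      have h2 : HasFDerivAt η (fderiv ℝ η (y - τ • d)) (y - τ • d) :=
        (h.contDiff.differentiable (by simp) _).hasFDerivAt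
      have h3 := (h2.comp_hasDerivAt τ h1).const_mul (m y)
      simpa using h3
  have hconst := constant_of_has_deriv_right_zero (a := (0 : ℝ)) (b := 1)
    (f := fun τ : ℝ => ∫ y, m y * η (y - τ • d))
    (fun τ _ => (hder τ).continuousAt.continuousWithinAt)
    (fun τ hτ => by
      have h1 := hder τ
      rw [integral_neg, h0 τ ⟨hτ.1, hτ.2.le⟩, neg_zero] at h1
      exact h1.hasDerivWithinAt)
    1 (by simp)
  simpa using hconst

/-- A bump function as a test function. -/
theorem isTest_bump {c : E3} (φ : ContDiffBump c) : IsTest φ where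
  smooth := φ.contDiff
  cpt := φ.hasCompactSupport

/-- A continuous field which is divergence free and takes its values in a line parallel to `d` is
constant in the direction `d`. -/
theorem const_along_aux {f : E3 → E3} {x₀ : E3} {r : ℝ} {v d : E3} {μ : E3 → ℝ}
    (hcont : ContinuousOn μ (ball x₀ r)) (hμ : ∀ x ∈ ball x₀ r, f x = v + μ x • d)
    (hdiv : ∀ ζ, IsTest ζ → tsupport ζ ⊆ ball x₀ r → ∫ x, fderiv ℝ ζ x (f x) = 0)
    {x : E3} (hx : x ∈ ball x₀ r) (hxd : x + d ∈ ball x₀ r) : μ (x + d) = μ x := by
  classical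
  by_contra hne
  -- the segment is compact
  have hseg : ∀ τ ∈ Icc (0 : ℝ) 1, x + τ • d ∈ ball x₀ r := by
    intro τ hτ
    have := (convex_ball x₀ r) hx hxd (sub_nonneg.2 hτ.2) hτ.1 (by ring)
    convert this using 1
    module
  have hKc : IsCompact ((fun τ : ℝ => x + τ • d) '' Icc (0 : ℝ) 1) :=
    isCompact_Icc.image (by fun_prop)
  obtain ⟨ε, hε, hεs⟩ := hKc.exists_cthickening_subset_open isOpen_ball
    (show ((fun τ : ℝ => x + τ • d) '' Icc (0 : ℝ) 1) ⊆ ball x₀ r by
      rintro _ ⟨τ, hτ, rfl⟩
      exact hseg τ hτ)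
  set K := cthickening ε ((fun τ : ℝ => x + τ • d) '' Icc (0 : ℝ) 1) with hK
  have hKcomp : IsCompact K := hKc.cthickening
  have hKsub : ∀ τ ∈ Icc (0 : ℝ) 1, ∀ y, dist y (x + τ • d) ≤ ε → y ∈ K := by
    intro τ hτ y hy
    exact mem_cthickening_of_dist_le y (x + τ • d) ε _ ⟨τ, hτ, rfl⟩ hy
  -- the values near `x` and `x + d`
  have c1 : ContinuousAt μ x := hcont.continuousAt (isOpen_ball.mem_nhds hx)
  have c2 : ContinuousAt (fun y => μ (y + d)) x := by
    have h1 : ContinuousAt μ (x + d) := hcont.continuousAt (isOpen_ball.mem_nhds hxd)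
    exact ContinuousAt.comp (f := fun y => y + d) (g := μ) h1 (by fun_prop)
  have c3 : ContinuousAt (fun y => (μ (y + d) - μ y) * (μ (x + d) - μ x)) x :=
    (c2.sub c1).mul continuousAt_const
  have hpos : 0 < (μ (x + d) - μ x) * (μ (x + d) - μ x) := by
    have : μ (x + d) - μ x ≠ 0 := sub_ne_zero.2 hne
    exact mul_self_pos.2 this
  obtain ⟨δ, hδ, hδs⟩ := Metric.eventually_nhds_iff.1 (c3.eventually (lt_mem_nhds hpos))
  set ρ := min ε (δ / 2) with hρ
  have hρ0 : 0 < ρ := lt_min hε (by positivity)
  let φ : ContDiffBump x := ⟨ρ / 2, ρ, by positivity, by linarith⟩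
  have hφ : IsTest φ := isTest_bump φ
  have hts : tsupport φ = closedBall x ρ := φ.tsupport_eq
  have hm : IntegrableOn μ K := (hcont.mono hεs).integrableOn_compact hKcomp
  have hmi : Integrable (K.indicator μ) := hm.integrable_indicator hKcomp.isClosed.measurableSet
  have key := shift_const hmi hφ d (fun τ hτ => by
    have h1 := hdiv (fun y => φ (y - τ • d)) (hφ.comp_sub _) (by
      rw [tsupport_comp_sub, hts]
      intro y hy
      apply hεs
      refine hKsub τ hτ y ?_
      have hy' : dist (y - τ • d) x ≤ ρ := hy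
      have : dist y (x + τ • d) = dist (y - τ • d) x := by
        rw [dist_eq_norm, dist_eq_norm]
        congr 1
        module
      rw [this]
      exact hy'.trans (min_le_left _ _))
    have h2 := (hφ.comp_sub (τ • d)).integral_fderiv v
    have h3 : ∀ y, K.indicator μ y * fderiv ℝ φ (y - τ • d) d =
        fderiv ℝ (fun y => φ (y - τ • d)) y (f y) - fderiv ℝ (fun y => φ (y - τ • d)) y v := by
      intro y
      rw [fderiv_comp_sub']
      by_cases hy : y ∈ K
      · rw [indicator_of_mem hy, hμ y (hεs hy), map_add, map_smul]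
        simp
      · have hz : fderiv ℝ φ (y - τ • d) = 0 := by
          have : y - τ • d ∉ tsupport φ := by
            rw [hts]
            intro hy'
            apply hy
            refine hKsub τ hτ y ?_
            have hy'' : dist (y - τ • d) x ≤ ρ := hy'
            have : dist y (x + τ • d) = dist (y - τ • d) x := by
              rw [dist_eq_norm, dist_eq_norm]
              congr 1
              module
            rw [this]
            exact hy''.trans (min_le_left _ _)
          exact Function.notMem_support.1 (fun h => this (support_fderiv_subset ℝ h))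
        rw [indicator_of_notMem hy, hz]
        simp
    have i2 : Integrable (fun y => fderiv ℝ (fun y => φ (y - τ • d)) y v) := by
      refine Continuous.integrable_of_hasCompactSupport
        ((hφ.comp_sub (τ • d)).continuous_fderiv.clm_apply continuous_const) ?_
      exact (hφ.comp_sub (τ • d)).hasCompactSupport_fderiv.comp_left
        (g := fun L : E3 →L[ℝ] ℝ => L v) rfl
    have i3 : Integrable (fun y => K.indicator μ y * fderiv ℝ φ (y - τ • d) d) := by
      obtain ⟨C, hC⟩ : ∃ C, ∀ y, ‖fderiv ℝ φ y d‖ ≤ C := by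
        have hc : Continuous (fun x => fderiv ℝ φ x d) :=
          hφ.continuous_fderiv.clm_apply continuous_const
        have hs : HasCompactSupport (fun x => fderiv ℝ φ x d) :=
          hφ.hasCompactSupport_fderiv.comp_left (g := fun L : E3 →L[ℝ] ℝ => L d) rfl
        exact hc.bounded_above_of_compact_support hs
      refine (hmi.norm.mul_const C).mono' (hmi.aestronglyMeasurable.mul ?_)
        (Eventually.of_forall (fun y => ?_))
      · have : Continuous (fun y : E3 => fderiv ℝ φ (y - τ • d) d) :=
          (hφ.continuous_fderiv.comp (by fun_prop)).clm_apply continuous_const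
        exact this.aestronglyMeasurable
      · rw [norm_mul]
        exact mul_le_mul_of_nonneg_left (hC _) (norm_nonneg _)
    have i1 : Integrable (fun y => fderiv ℝ (fun y => φ (y - τ • d)) y (f y)) := by
      refine (i3.add i2).congr (Eventually.of_forall (fun y => ?_))
      simp only [Pi.add_apply, h3 y]
      ring
    calc ∫ y, K.indicator μ y * fderiv ℝ φ (y - τ • d) d
        = ∫ y, (fderiv ℝ (fun y => φ (y - τ • d)) y (f y) -
            fderiv ℝ (fun y => φ (y - τ • d)) y v) := by simp only [h3]
      _ = 0 := by rw [integral_sub i1 i2, h1, h2, sub_zero])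
  -- translate
  have hK1 : ∀ y ∈ tsupport φ, y ∈ K ∧ y + d ∈ K := by
    intro y hy
    rw [hts] at hy
    have hy' : dist y x ≤ ρ := hy
    refine ⟨hKsub 0 (by simp) y ?_, hKsub 1 (by simp) (y + d) ?_⟩
    · simpa using hy'.trans (min_le_left _ _)
    · simpa using hy'.trans (min_le_left _ _)
  have e1 : ∫ y, K.indicator μ y * φ (y - d) = ∫ y, K.indicator μ (y + d) * φ y := by
    have := integral_add_right_eq_self (μ := (volume : Measure E3))
      (fun y => K.indicator μ y * φ (y - d)) d
    rw [← this]
    simp
  rw [e1] at key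
  have j1 : Integrable (fun y => K.indicator μ y * φ y) := by
    refine (hmi.norm.mul_const 1).mono' (hmi.aestronglyMeasurable.mul
      hφ.smooth.continuous.aestronglyMeasurable) (Eventually.of_forall (fun y => ?_))
    rw [norm_mul]
    refine mul_le_mul_of_nonneg_left ?_ (norm_nonneg _)
    rw [Real.norm_eq_abs, abs_of_nonneg φ.nonneg]
    exact φ.le_one
  have j2 : Integrable (fun y => K.indicator μ (y + d) * φ y) := by
    have hmi2 : Integrable (fun y => K.indicator μ (y + d)) := hmi.comp_add_right d
    refine (hmi2.norm.mul_const 1).mono' (hmi2.aestronglyMeasurable.mul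
      hφ.smooth.continuous.aestronglyMeasurable) (Eventually.of_forall (fun y => ?_))
    rw [norm_mul]
    refine mul_le_mul_of_nonneg_left ?_ (norm_nonneg _)
    rw [Real.norm_eq_abs, abs_of_nonneg φ.nonneg]
    exact φ.le_one
  have key2 : ∫ y, (K.indicator μ (y + d) * φ y - K.indicator μ y * φ y) *
      (μ (x + d) - μ x) = 0 := by
    rw [integral_mul_const, integral_sub j2 j1, key, sub_self, zero_mul]
  have hval : ∀ y, (K.indicator μ (y + d) * φ y - K.indicator μ y * φ y) * (μ (x + d) - μ x) =
      (μ (y + d) - μ y) * (μ (x + d) - μ x) * φ y := by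
    intro y
    by_cases hy : y ∈ tsupport φ
    · rw [indicator_of_mem (hK1 y hy).1, indicator_of_mem (hK1 y hy).2]
      ring
    · have : φ y = 0 := image_eq_zero_of_notMem_tsupport hy
      rw [this]
      ring
  have hnn : ∀ y, 0 ≤ (μ (y + d) - μ y) * (μ (x + d) - μ x) * φ y := by
    intro y
    by_cases hy : y ∈ tsupport φ
    · rw [hts] at hy
      have hy' : dist y x ≤ ρ := hy
      have : 0 < (μ (y + d) - μ y) * (μ (x + d) - μ x) := by
        apply hδs
        calc dist y x ≤ ρ := hy'
          _ ≤ δ / 2 := min_le_right _ _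
          _ < δ := by linarith
      exact mul_nonneg this.le φ.nonneg
    · have : φ y = 0 := image_eq_zero_of_notMem_tsupport hy
      rw [this]
      simp
  have hint : Integrable (fun y => (μ (y + d) - μ y) * (μ (x + d) - μ x) * φ y) := by
    refine ((j2.sub j1).mul_const (μ (x + d) - μ x)).congr (Eventually.of_forall (fun y => ?_))
    exact hval y
  have hz := (integral_eq_zero_iff_of_nonneg hnn hint).1 (by
    rw [← key2]
    exact integral_congr_ae (Eventually.of_forall (fun y => (hval y).symm)))
  -- contradiction on the ball of radius ρ/2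
  have hball : (volume : Measure E3) (ball x (ρ / 2)) ≠ 0 :=
    (measure_ball_pos volume x (by positivity)).ne'
  apply hball
  refine measure_mono_null ?_ hz
  intro y hy
  have hy' : dist y x < ρ / 2 := hy
  have h1 : φ y = 1 := φ.one_of_mem_closedBall (by exact hy'.le)
  have h2 : 0 < (μ (y + d) - μ y) * (μ (x + d) - μ x) := by
    apply hδs
    calc dist y x < ρ / 2 := hy'
      _ ≤ ρ := by linarith
      _ ≤ δ / 2 := min_le_right _ _
      _ < δ := by linarith
  simp only [mem_compl_iff, mem_ofPred_eq, Pi.zero_apply]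
  rw [h1, mul_one]
  exact h2.ne'

/-- A continuous field which is divergence free and takes its values in a line parallel to `d` is
constant in the direction `d`. -/
theorem const_along {f : E3 → E3} {x₀ : E3} {r : ℝ} {v d : E3}
    (hcont : ContinuousOn f (ball x₀ r)) (hμ : ∀ x ∈ ball x₀ r, ∃ c : ℝ, f x = v + c • d)
    (hdiv : ∀ ζ, IsTest ζ → tsupport ζ ⊆ ball x₀ r → ∫ x, fderiv ℝ ζ x (f x) = 0)
    {x : E3} (hx : x ∈ ball x₀ r) {t : ℝ} (hxd : x + t • d ∈ ball x₀ r) :
    f (x + t • d) = f x := by
  by_cases ht : t • d = 0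
  · rw [ht, add_zero]
  have ht0 : t ≠ 0 := fun h => ht (by rw [h, zero_smul])
  obtain ⟨i, hi⟩ : ∃ i, (t • d) i ≠ 0 := by
    by_contra hcon
    push Not at hcon
    exact ht (funext hcon)
  set μ : E3 → ℝ := fun x => (f x i - v i) / (t • d) i with hμdef
  have hcμ : ContinuousOn μ (ball x₀ r) := by
    have h1 : ContinuousOn (fun x => f x i) (ball x₀ r) :=
      (continuous_apply i).comp_continuousOn hcont
    exact (h1.sub continuousOn_const).div_const _
  have hval : ∀ x ∈ ball x₀ r, f x = v + μ x • (t • d) := by
    intro x hx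
    obtain ⟨c, hc⟩ := hμ x hx
    have : μ x = c / t := by
      simp only [hμdef]
      rw [hc]
      simp only [Pi.add_apply, Pi.smul_apply, smul_eq_mul, add_sub_cancel_left] at hi ⊢
      have hdi : d i ≠ 0 := right_ne_zero_of_mul hi
      field_simp
    rw [this, smul_smul, div_mul_cancel₀ _ ht0, ← hc]
  have := const_along_aux hcμ hval hdiv hx hxd
  rw [hval _ hxd, hval _ hx, this]

end Run7.h895
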