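import Pool.Agent.Run7.h895.Half

namespace Run7.h895

open MeasureTheory Filter Topology Set Metric
open scoped ContDiff

theorem IsTest.mul {φ ψ : E3 → ℝ} (hφ : IsTest φ) (hψ : IsTest ψ) :
    IsTest (fun x => φ x * ψ x) := ⟨hφ.smooth.mul hψ.smooth, hφ.cpt.mul_right⟩

theorem IsTest.fderiv_apply {ζ : E3 → ℝ} (h : IsTest ζ) (v : E3) :
    IsTest (fun x => fderiv ℝ ζ x v) where
  smooth := (h.smooth.fderiv_right (m := ∞) (by simp)).clm_apply contDiff_const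
  cpt := h.hasCompactSupport_fderiv.comp_left (g := fun L : E3 →L[ℝ] ℝ => L v) rfl

theorem IsTest.fderiv_mul {φ ψ : E3 → ℝ} (hφ : IsTest φ) (hψ : IsTest ψ) (x v : E3) :
    fderiv ℝ (fun x => φ x * ψ x) x v = fderiv ℝ φ x v * ψ x + φ x * fderiv ℝ ψ x v := by
  have h1 : HasFDerivAt φ (fderiv ℝ φ x) x := (hφ.contDiff.differentiable (by simp) x).hasFDerivAt
  have h2 : HasFDerivAt ψ (fderiv ℝ ψ x) x := (hψ.contDiff.differentiable (by simp) x).hasFDerivAt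
  have e := (h1.mul h2).fderiv
  rw [show (fun x => φ x * ψ x) = φ * ψ from rfl, e]
  simp only [_root_.add_apply, _root_.smul_apply, smul_eq_mul]
  ring

theorem IsTest.fderiv_fderiv_comm {ζ : E3 → ℝ} (h : IsTest ζ) (x v w : E3) :
    fderiv ℝ (fun x => fderiv ℝ ζ x v) x w = fderiv ℝ (fun x => fderiv ℝ ζ x w) x v := by
  have hd : DifferentiableAt ℝ (fderiv ℝ ζ) x :=
    ((h.smooth.fderiv_right (m := ∞) (by simp)).differentiable (by simp)) x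
  have key : ∀ v w : E3, fderiv ℝ (fun x => fderiv ℝ ζ x v) x w =
      fderiv ℝ (fderiv ℝ ζ) x w v := by
    intro v w
    have h1 : HasFDerivAt (fun x => fderiv ℝ ζ x v)
        ((ContinuousLinearMap.apply ℝ ℝ v).comp (fderiv ℝ (fderiv ℝ ζ) x)) x :=
      (ContinuousLinearMap.apply ℝ ℝ v).hasFDerivAt.comp x hd.hasFDerivAt
    rw [h1.fderiv]
    rfl
  rw [key, key]
  have hs : IsSymmSndFDerivAt ℝ ζ x :=
    (h.smooth.contDiffAt (x := x)).isSymmSndFDerivAt (by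
      rw [minSmoothness_of_isRCLikeNormedField]
      exact WithTop.coe_le_coe.2 (le_top : (2 : ℕ∞) ≤ ⊤))
  exact hs w v

/-- The field made of two test functions. -/
noncomputable def W (ℓ : E3 →L[ℝ] ℝ) (z : E3) (χ₁ χ₂ : E3 → ℝ) (y d e : E3) (x : E3) : E3 :=
  hl ℓ z x • (-(fderiv ℝ χ₁ x d) • y + (fderiv ℝ χ₁ x y) • d) +
    hr ℓ z x • (-(fderiv ℝ χ₂ x e) • y + (fderiv ℝ χ₂ x y) • e)

theorem measurable_W (ℓ : E3 →L[ℝ] ℝ) (z : E3) {χ₁ χ₂ : E3 → ℝ} (h₁ : IsTest χ₁) (h₂ : IsTest χ₂)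
    (y d e : E3) : Measurable (W ℓ z χ₁ χ₂ y d e) := by
  have c : ∀ {χ : E3 → ℝ}, IsTest χ → ∀ a b : E3,
      Measurable (fun x => -(fderiv ℝ χ x a) • y + (fderiv ℝ χ x y) • b) := by
    intro χ hχ a b
    have h1 := (hχ.fderiv_apply a).smooth.continuous
    have h2 := (hχ.fderiv_apply y).smooth.continuous
    exact ((h1.neg.smul continuous_const).add (h2.smul continuous_const)).measurable
  exact ((measurable_hl ℓ z).smul (c h₁ d e |> fun _ => c h₁ d d)).add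
    ((measurable_hr ℓ z).smul (c h₂ e e))

theorem bound_W (ℓ : E3 →L[ℝ] ℝ) (z : E3) {χ₁ χ₂ : E3 → ℝ} (h₁ : IsTest χ₁) (h₂ : IsTest χ₂)
    (y d e : E3) : ∃ C, ∀ x, ‖W ℓ z χ₁ χ₂ y d e x‖ ≤ C := by
  have c : ∀ {χ : E3 → ℝ}, IsTest χ → ∀ a : E3, ∃ C, ∀ x, |fderiv ℝ χ x a| ≤ C := by
    intro χ hχ a
    obtain ⟨C, hC⟩ := (hχ.fderiv_apply a).smooth.continuous.bounded_above_of_compact_support
      (hχ.fderiv_apply a).cpt
    exact ⟨C, fun x => by simpa using hC x⟩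
  obtain ⟨C1, hC1⟩ := c h₁ d
  obtain ⟨C2, hC2⟩ := c h₁ y
  obtain ⟨C3, hC3⟩ := c h₂ e
  obtain ⟨C4, hC4⟩ := c h₂ y
  refine ⟨(C1 * ‖y‖ + C2 * ‖d‖) + (C3 * ‖y‖ + C4 * ‖e‖), fun x => ?_⟩
  unfold W
  have k1 : ‖-(fderiv ℝ χ₁ x d) • y + (fderiv ℝ χ₁ x y) • d‖ ≤ C1 * ‖y‖ + C2 * ‖d‖ := by
    refine (norm_add_le _ _).trans ?_
    rw [norm_smul, norm_smul, norm_neg, Real.norm_eq_abs, Real.norm_eq_abs]
    exact add_le_add (mul_le_mul_of_nonneg_right (hC1 x) (norm_nonneg _))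
      (mul_le_mul_of_nonneg_right (hC2 x) (norm_nonneg _))
  have k2 : ‖-(fderiv ℝ χ₂ x e) • y + (fderiv ℝ χ₂ x y) • e‖ ≤ C3 * ‖y‖ + C4 * ‖e‖ := by
    refine (norm_add_le _ _).trans ?_
    rw [norm_smul, norm_smul, norm_neg, Real.norm_eq_abs, Real.norm_eq_abs]
    exact add_le_add (mul_le_mul_of_nonneg_right (hC3 x) (norm_nonneg _))
      (mul_le_mul_of_nonneg_right (hC4 x) (norm_nonneg _))
  refine (norm_add_le _ _).trans (add_le_add ?_ ?_)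
  · rw [norm_smul, Real.norm_eq_abs]
    calc |hl ℓ z x| * ‖-(fderiv ℝ χ₁ x d) • y + (fderiv ℝ χ₁ x y) • d‖ ≤
        1 * ‖-(fderiv ℝ χ₁ x d) • y + (fderiv ℝ χ₁ x y) • d‖ :=
          mul_le_mul_of_nonneg_right (abs_hl_le ℓ z x) (norm_nonneg _)
      _ ≤ _ := by rw [one_mul]; exact k1
  · rw [norm_smul, Real.norm_eq_abs]
    calc |hr ℓ z x| * ‖-(fderiv ℝ χ₂ x e) • y + (fderiv ℝ χ₂ x y) • e‖ ≤
        1 * ‖-(fderiv ℝ χ₂ x e) • y + (fderiv ℝ χ₂ x y) • e‖ :=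
          mul_le_mul_of_nonneg_right (abs_hr_le ℓ z x) (norm_nonneg _)
      _ ≤ _ := by rw [one_mul]; exact k2

/-- The field `W` is divergence free. -/
theorem div_W {ℓ : E3 →L[ℝ] ℝ} (hℓ : ℓ ≠ 0) (z : E3) {χ₁ χ₂ : E3 → ℝ} (h₁ : IsTest χ₁)
    (h₂ : IsTest χ₂) (h0 : ∀ x, ℓ (x - z) = 0 → χ₁ x = χ₂ x) {y d e : E3} (hy : ℓ y = 0)
    (hde : ℓ d = ℓ e) {ζ : E3 → ℝ} (hζ : IsTest ζ) :
    ∫ x, fderiv ℝ ζ x (W ℓ z χ₁ χ₂ y d e x) = 0 := by
  have hpt : ∀ {χ : E3 → ℝ}, IsTest χ → ∀ a x : E3,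
      -(fderiv ℝ χ x a) * fderiv ℝ ζ x y + fderiv ℝ χ x y * fderiv ℝ ζ x a =
        fderiv ℝ (fun x => χ x * fderiv ℝ ζ x a) x y -
          fderiv ℝ (fun x => χ x * fderiv ℝ ζ x y) x a := by
    intro χ hχ a x
    rw [hχ.fderiv_mul (hζ.fderiv_apply a), hχ.fderiv_mul (hζ.fderiv_apply y),
      hζ.fderiv_fderiv_comm x a y]
    ring
  have e1 : ∀ x, fderiv ℝ ζ x (W ℓ z χ₁ χ₂ y d e x) =
      (hl ℓ z x * fderiv ℝ (fun x => χ₁ x * fderiv ℝ ζ x d) x y -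
        hl ℓ z x * fderiv ℝ (fun x => χ₁ x * fderiv ℝ ζ x y) x d) +
      (hr ℓ z x * fderiv ℝ (fun x => χ₂ x * fderiv ℝ ζ x e) x y -
        hr ℓ z x * fderiv ℝ (fun x => χ₂ x * fderiv ℝ ζ x y) x e) := by
    intro x
    unfold W
    simp only [map_add, map_smul, smul_eq_mul, neg_smul, map_neg]
    have k1 := hpt h₁ d x
    have k2 := hpt h₂ e x
    linear_combination hl ℓ z x * k1 + hr ℓ z x * k2
  have t1 := h₁.mul (hζ.fderiv_apply d)
  have t2 := h₁.mul (hζ.fderiv_apply y)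
  have t3 := h₂.mul (hζ.fderiv_apply e)
  have t4 := h₂.mul (hζ.fderiv_apply y)
  have i1 := integrable_hl_mul (t1.integrable_fderiv y) ℓ z
  have i2 := integrable_hl_mul (t2.integrable_fderiv d) ℓ z
  have i3 := integrable_hr_mul (t3.integrable_fderiv y) ℓ z
  have i4 := integrable_hr_mul (t4.integrable_fderiv e) ℓ z
  simp only [e1]
  have g := half_glue t2 t4 hℓ z (fun x hx => by rw [h0 x hx]) hde
  have i12 : Integrable (fun x => hl ℓ z x * fderiv ℝ (fun x => χ₁ x * fderiv ℝ ζ x d) x y -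
        hl ℓ z x * fderiv ℝ (fun x => χ₁ x * fderiv ℝ ζ x y) x d) := i1.sub i2
  have i34 : Integrable (fun x => hr ℓ z x * fderiv ℝ (fun x => χ₂ x * fderiv ℝ ζ x e) x y -
        hr ℓ z x * fderiv ℝ (fun x => χ₂ x * fderiv ℝ ζ x y) x e) := i3.sub i4
  rw [integral_add i12 i34, integral_sub i1 i2, integral_sub i3 i4,
    half_tangential_left t1 hℓ z hy, half_tangential t3 hℓ z hy]
  linarith

/-! ### The special test functions -/

/-- A quadratic form adapted to the direction `d`. -/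
noncomputable def qf (ℓ : E3 →L[ℝ] ℝ) (z d x : E3) : ℝ :=
  ℓ (x - z) ^ 2 + ∑ i : Fin 3, ((x i - z i) - ℓ (x - z) * d i) ^ 2

theorem contDiff_qf (ℓ : E3 →L[ℝ] ℝ) (z d : E3) : ContDiff ℝ ∞ (qf ℓ z d) := by
  unfold qf
  fun_prop

theorem hasFDerivAt_qf (ℓ : E3 →L[ℝ] ℝ) (z d x : E3) : HasFDerivAt (qf ℓ z d)
    ((2 * ℓ (x - z)) • ℓ + ∑ i : Fin 3, (2 * ((x i - z i) - ℓ (x - z) * d i)) •
      ((ContinuousLinearMap.proj i : E3 →L[ℝ] ℝ) - d i • ℓ)) x := by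
  unfold qf
  have hl : HasFDerivAt (fun x : E3 => ℓ (x - z)) ℓ x := by
    have := (ℓ.hasFDerivAt (x := x - z)).comp x ((hasFDerivAt_id x).sub_const z)
    rw [ContinuousLinearMap.comp_id] at this
    exact this
  refine HasFDerivAt.add ?_ (HasFDerivAt.fun_sum (fun i _ => ?_))
  · have := hl.pow 2
    simpa using this
  · have h1 : HasFDerivAt (fun x : E3 => x i - z i)
        (ContinuousLinearMap.proj i : E3 →L[ℝ] ℝ) x :=
      ((ContinuousLinearMap.proj i : E3 →L[ℝ] ℝ).hasFDerivAt (x := x)).sub_const (z i)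
    have h2 : HasFDerivAt (fun x : E3 => ℓ (x - z) * d i) (d i • ℓ) x := by
      have := hl.mul_const (d i)
      exact this
    have h3 := (h1.sub h2).pow 2
    simpa using h3

theorem qf_deriv {ℓ : E3 →L[ℝ] ℝ} {d : E3} (hd : ℓ d = 1) (z x : E3) :
    ((2 * ℓ (x - z)) • ℓ + ∑ i : Fin 3, (2 * ((x i - z i) - ℓ (x - z) * d i)) •
      ((ContinuousLinearMap.proj i : E3 →L[ℝ] ℝ) - d i • ℓ)) d = 2 * ℓ (x - z) := by
  simp only [_root_.add_apply, _root_.smul_apply, _root_.sum_apply, _root_.sub_apply,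
    ContinuousLinearMap.proj_apply, smul_eq_mul, hd]
  simp

theorem norm_le_of_qf {ℓ : E3 →L[ℝ] ℝ} {z d x : E3} {r : ℝ} (hr : 0 ≤ r)
    (h : qf ℓ z d x ≤ 2 * r ^ 2) : ‖x - z‖ ≤ 2 * r * (1 + ‖d‖) := by
  have hs : 0 ≤ ∑ i : Fin 3, ((x i - z i) - ℓ (x - z) * d i) ^ 2 :=
    Finset.sum_nonneg (fun i _ => sq_nonneg _)
  have h1 : ℓ (x - z) ^ 2 ≤ (2 * r) ^ 2 := by
    unfold qf at h
    nlinarith
  have h1' : |ℓ (x - z)| ≤ 2 * r := abs_le_of_sq_le_sq h1 (by positivity)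
  rw [pi_norm_le_iff_of_nonneg (by positivity)]
  intro i
  have h2 : ((x i - z i) - ℓ (x - z) * d i) ^ 2 ≤
      ∑ i : Fin 3, ((x i - z i) - ℓ (x - z) * d i) ^ 2 :=
    Finset.single_le_sum (f := fun i => ((x i - z i) - ℓ (x - z) * d i) ^ 2)
      (fun i _ => sq_nonneg _) (Finset.mem_univ i)
  have h3 : ((x i - z i) - ℓ (x - z) * d i) ^ 2 ≤ (2 * r) ^ 2 := by
    unfold qf at h
    nlinarith [sq_nonneg (ℓ (x - z))]
  have h3' : |(x i - z i) - ℓ (x - z) * d i| ≤ 2 * r := abs_le_of_sq_le_sq h3 (by positivity)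
  have h4 : |d i| ≤ ‖d‖ := norm_le_pi_norm d i
  have h5 : |ℓ (x - z) * d i| ≤ 2 * r * ‖d‖ := by
    rw [abs_mul]
    exact mul_le_mul h1' h4 (abs_nonneg _) (by positivity)
  rw [Pi.sub_apply, Real.norm_eq_abs]
  calc |x i - z i| = |((x i - z i) - ℓ (x - z) * d i) + ℓ (x - z) * d i| := by
        rw [sub_add_cancel]
    _ ≤ |(x i - z i) - ℓ (x - z) * d i| + |ℓ (x - z) * d i| := abs_add_le _ _
    _ ≤ 2 * r + 2 * r * ‖d‖ := add_le_add h3' h5
    _ = 2 * r * (1 + ‖d‖) := by ring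

/-- The test function adapted to the direction `d`. -/
noncomputable def chi (ℓ : E3 →L[ℝ] ℝ) (z d : E3) (r : ℝ) (x : E3) : ℝ :=
  T (2 - qf ℓ z d x / r ^ 2)

theorem chi_eq_zero (ℓ : E3 →L[ℝ] ℝ) (z d : E3) {r : ℝ} (hr : 0 < r) {x : E3}
    (hx : 2 * r * (1 + ‖d‖) < ‖x - z‖) : chi ℓ z d r x = 0 := by
  apply Real.smoothTransition.zero_of_nonpos
  by_contra hcon
  push Not at hcon
  apply not_le.2 hx
  apply norm_le_of_qf (ℓ := ℓ) hr.le
  have : qf ℓ z d x / r ^ 2 < 2 := by linarith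
  rw [div_lt_iff₀ (by positivity)] at this
  exact this.le

theorem isTest_chi (ℓ : E3 →L[ℝ] ℝ) (z d : E3) {r : ℝ} (hr : 0 < r) : IsTest (chi ℓ z d r) where
  smooth := by
    have h : ContDiff ℝ ∞ (fun x => 2 - qf ℓ z d x / r ^ 2) :=
      contDiff_const.sub ((contDiff_qf ℓ z d).div_const _)
    exact contDiff_T.comp h
  cpt := by
    refine HasCompactSupport.intro (isCompact_closedBall z (2 * r * (1 + ‖d‖))) (fun x hx => ?_)
    apply chi_eq_zero ℓ z d hr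
    rw [mem_closedBall, dist_eq_norm, not_le] at hx
    exact hx

theorem tsupport_chi (ℓ : E3 →L[ℝ] ℝ) (z d : E3) {r : ℝ} (hr : 0 < r) :
    tsupport (chi ℓ z d r) ⊆ closedBall z (2 * r * (1 + ‖d‖)) := by
  refine closure_minimal ?_ isClosed_closedBall
  intro x hx
  by_contra hcon
  apply hx
  apply chi_eq_zero ℓ z d hr
  rw [mem_closedBall, dist_eq_norm, not_le] at hcon
  exact hcon

theorem fderiv_chi_eq_zero (ℓ : E3 →L[ℝ] ℝ) (z d : E3) {r : ℝ} (hr : 0 < r) {x : E3}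
    (hx : x ∉ closedBall z (2 * r * (1 + ‖d‖))) : fderiv ℝ (chi ℓ z d r) x = 0 :=
  Function.notMem_support.1 (fun h => hx (tsupport_chi ℓ z d hr (support_fderiv_subset ℝ h)))

theorem fderiv_chi_self {ℓ : E3 →L[ℝ] ℝ} {d : E3} (hd : ℓ d = 1) (z : E3) (r : ℝ) (x : E3) :
    fderiv ℝ (chi ℓ z d r) x d = -(deriv T (2 - qf ℓ z d x / r ^ 2) * (2 * ℓ (x - z)) / r ^ 2) := by
  have h1 : HasFDerivAt (fun x => 2 - qf ℓ z d x / r ^ 2) (-((r ^ 2)⁻¹ •
      ((2 * ℓ (x - z)) • ℓ + ∑ i : Fin 3, (2 * ((x i - z i) - ℓ (x - z) * d i)) •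
      ((ContinuousLinearMap.proj i : E3 →L[ℝ] ℝ) - d i • ℓ)))) x := by
    have h2 := ((hasFDerivAt_qf ℓ z d x).const_smul (r ^ 2)⁻¹).const_sub 2
    have e : (fun x => 2 - qf ℓ z d x / r ^ 2) = fun x => 2 - ((r ^ 2)⁻¹ • qf ℓ z d) x := by
      ext y
      rw [Pi.smul_apply, smul_eq_mul, div_eq_inv_mul]
    rw [e]
    exact h2
  have h4 : HasDerivAt T (deriv T (2 - qf ℓ z d x / r ^ 2)) (2 - qf ℓ z d x / r ^ 2) :=
    ((contDiff_T.differentiable (by simp)) _).hasDerivAt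
  have h5 := h4.comp_hasFDerivAt x h1
  have h6 : fderiv ℝ (chi ℓ z d r) x = _ := h5.fderiv
  rw [h6, _root_.smul_apply, _root_.neg_apply, _root_.smul_apply, qf_deriv hd]
  simp only [smul_eq_mul]
  ring

theorem chi_plane {ℓ : E3 →L[ℝ] ℝ} (z d e : E3) (r : ℝ) {x : E3} (hx : ℓ (x - z) = 0) :
    chi ℓ z d r x = chi ℓ z e r x := by
  unfold chi qf
  rw [hx]
  simp

theorem fderiv_chi_left {ℓ : E3 →L[ℝ] ℝ} {d : E3} (hd : ℓ d = 1) (z : E3) (r : ℝ) {x : E3}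
    (hx : ℓ (x - z) ≤ 0) : 0 ≤ fderiv ℝ (chi ℓ z d r) x d := by
  rw [fderiv_chi_self hd, neg_nonneg]
  have := deriv_T_nonneg (2 - qf ℓ z d x / r ^ 2)
  apply div_nonpos_of_nonpos_of_nonneg _ (by positivity)
  exact mul_nonpos_of_nonneg_of_nonpos this (by linarith)

theorem fderiv_chi_right {ℓ : E3 →L[ℝ] ℝ} {d : E3} (hd : ℓ d = 1) (z : E3) (r : ℝ) {x : E3}
    (hx : 0 ≤ ℓ (x - z)) : fderiv ℝ (chi ℓ z d r) x d ≤ 0 := by
  rw [fderiv_chi_self hd, neg_nonpos]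
  have := deriv_T_nonneg (2 - qf ℓ z d x / r ^ 2)
  positivity

/-- The derivative does not vanish identically on the left. -/
theorem exists_fderiv_chi_ne {ℓ : E3 →L[ℝ] ℝ} {d : E3} (hd : ℓ d = 1) (z : E3) {r : ℝ}
    (hr : 0 < r) (h : ∀ x, ℓ (x - z) < 0 → fderiv ℝ (chi ℓ z d r) x d = 0) : False := by
  have hχ := isTest_chi ℓ z d hr
  have hq : ∀ t : ℝ, qf ℓ z d (z + t • d) = t ^ 2 := by
    intro t
    unfold qf
    rw [add_sub_cancel_left, map_smul, smul_eq_mul, hd, mul_one]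
    simp
  have hline : ∀ t : ℝ, 0 ≤ t → HasDerivAt (fun t : ℝ => chi ℓ z d r (z + (-t) • d)) 0 t := by
    intro t ht
    have h1 : HasDerivAt (fun t : ℝ => z + (-t) • d) (-d) t := by
      have := ((hasDerivAt_neg t).smul_const d).const_add z
      simpa using this
    have h2 : HasFDerivAt (chi ℓ z d r) (fderiv ℝ (chi ℓ z d r) (z + (-t) • d)) (z + (-t) • d) :=
      (hχ.contDiff.differentiable (by simp) _).hasFDerivAt
    have h3 := h2.comp_hasDerivAt t h1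
    have h4 : fderiv ℝ (chi ℓ z d r) (z + (-t) • d) d = 0 := by
      rcases ht.eq_or_lt with rfl | ht
      · rw [fderiv_chi_self hd]
        simp
      · apply h
        rw [add_sub_cancel_left, map_smul, smul_eq_mul, hd]
        linarith
    rw [map_neg, h4, neg_zero] at h3
    exact h3
  have hconst := constant_of_has_deriv_right_zero (a := (0 : ℝ)) (b := 2 * r)
    (f := fun t : ℝ => chi ℓ z d r (z + (-t) • d))
    (fun t ht => (hline t ht.1).continuousAt.continuousWithinAt)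
    (fun t ht => (hline t ht.1).hasDerivWithinAt) (2 * r) ⟨by positivity, le_rfl⟩
  have e0 : chi ℓ z d r (z + (-(0 : ℝ)) • d) = 1 := by
    unfold chi
    rw [hq]
    apply Real.smoothTransition.one_of_one_le
    norm_num
  have e1 : chi ℓ z d r (z + (-(2 * r)) • d) = 0 := by
    unfold chi
    rw [hq]
    apply Real.smoothTransition.zero_of_nonpos
    have : (-(2 * r)) ^ 2 / r ^ 2 = 4 := by
      field_simp
      norm_num
    rw [this]
    norm_num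
  simp only [e0, e1] at hconst
  exact zero_ne_one hconst

end Run7.h895
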