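import Pool.Agent.Run7.h895.Geo

namespace Run7.h895

open MeasureTheory Filter Topology Set
open scoped ContDiff

theorem IsTest.contDiff {ζ : E3 → ℝ} (h : IsTest ζ) : ContDiff ℝ 1 ζ := h.smooth.of_le (by simp)

theorem IsTest.continuous_fderiv {ζ : E3 → ℝ} (h : IsTest ζ) : Continuous (fderiv ℝ ζ) :=
  h.contDiff.continuous_fderiv (by simp)

theorem IsTest.hasCompactSupport_fderiv {ζ : E3 → ℝ} (h : IsTest ζ) :
    HasCompactSupport (fderiv ℝ ζ) := h.cpt.fderiv ℝ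

theorem measurable_pair {ζ : E3 → ℝ} (h : IsTest ζ) {g : E3 → E3} (hg : Measurable g) :
    Measurable (fun x => fderiv ℝ ζ x (g x)) := by
  have e : (fun x => fderiv ℝ ζ x (g x)) =
      fun x => ∑ i : Fin 3, g x i • fderiv ℝ ζ x (fun j => if i = j then 1 else 0) := by
    ext x
    exact LinearMap.pi_apply_eq_sum_univ (fderiv ℝ ζ x : E3 →ₗ[ℝ] ℝ) (g x)
  rw [e]
  refine Finset.measurable_sum _ (fun i _ => ?_)
  have h1 : Measurable (fun x => g x i) := (measurable_pi_apply i).comp hg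
  have h2 : Continuous (fun x => fderiv ℝ ζ x (fun j => if i = j then (1 : ℝ) else 0)) :=
    h.continuous_fderiv.clm_apply continuous_const
  exact h1.smul h2.measurable

theorem integrable_pair {ζ : E3 → ℝ} (h : IsTest ζ) {g : E3 → E3} (hg : Measurable g) {C : ℝ}
    (hb : ∀ᵐ x, ‖g x‖ ≤ C) : Integrable (fun x => fderiv ℝ ζ x (g x)) := by
  have h1 : Integrable (fun x => ‖fderiv ℝ ζ x‖ * C) := by
    refine Integrable.mul_const ?_ C
    exact (h.continuous_fderiv.integrable_of_hasCompactSupport h.hasCompactSupport_fderiv).norm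
  refine h1.mono' (measurable_pair h hg).aestronglyMeasurable ?_
  filter_upwards [hb] with x hx
  calc ‖fderiv ℝ ζ x (g x)‖ ≤ ‖fderiv ℝ ζ x‖ * ‖g x‖ := ContinuousLinearMap.le_opNorm _ _
    _ ≤ ‖fderiv ℝ ζ x‖ * C := mul_le_mul_of_nonneg_left hx (norm_nonneg _)

theorem IsAF.bound {R : Set E3} {g : E3 → E3} (h : IsAF R g) : ∀ᵐ x, ‖g x‖ ≤ 1 := by
  filter_upwards [h.zero, h.oct] with x h0 h1
  by_cases hx : x ∈ R
  · exact norm_le_of_mem_Oct (h1 hx)
  · rw [h0 hx]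
    simp

theorem IsAF.mem_Oct {R : Set E3} {g : E3 → E3} (h : IsAF R g) : ∀ᵐ x, g x ∈ Oct := by
  filter_upwards [h.zero, h.oct] with x h0 h1
  by_cases hx : x ∈ R
  · exact h1 hx
  · rw [h0 hx]
    exact zero_mem_Oct

theorem IsAF.integrable_pair {R : Set E3} {g : E3 → E3} (h : IsAF R g) {ζ : E3 → ℝ}
    (hζ : IsTest ζ) : Integrable (fun x => fderiv ℝ ζ x (g x)) :=
  Run7.h895.integrable_pair hζ h.meas h.bound

/-- The midpoint of two fields. -/
noncomputable def mid (g₁ g₂ : E3 → E3) : E3 → E3 := fun x => (1 / 2 : ℝ) • g₁ x + (1 / 2 : ℝ) • g₂ x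

theorem divP_mid {R : Set E3} {g₁ g₂ : E3 → E3} (h₁ : IsAF R g₁) (h₂ : IsAF R g₂) {ζ : E3 → ℝ}
    (hζ : IsTest ζ) : divP (mid g₁ g₂) ζ = (1 / 2) * divP g₁ ζ + (1 / 2) * divP g₂ ζ := by
  unfold divP mid
  have : ∀ x, fderiv ℝ ζ x ((1 / 2 : ℝ) • g₁ x + (1 / 2 : ℝ) • g₂ x) =
      (1 / 2) * fderiv ℝ ζ x (g₁ x) + (1 / 2) * fderiv ℝ ζ x (g₂ x) := by
    intro x
    simp
  simp only [this]
  rw [integral_add ((h₁.integrable_pair hζ).const_mul _) ((h₂.integrable_pair hζ).const_mul _),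
    integral_const_mul, integral_const_mul]
  ring

theorem isAF_mid {R : Set E3} {g₁ g₂ : E3 → E3} (h₁ : IsAF R g₁) (h₂ : IsAF R g₂) :
    IsAF R (mid g₁ g₂) where
  meas := by
    have h : Measurable ((1 / 2 : ℝ) • g₁ + (1 / 2 : ℝ) • g₂) :=
      (h₁.meas.const_smul (1 / 2 : ℝ)).add (h₂.meas.const_smul (1 / 2 : ℝ))
    exact h
  zero := by
    filter_upwards [h₁.zero, h₂.zero] with x h1 h2 hx
    simp [mid, h1 hx, h2 hx]
  oct := by
    filter_upwards [h₁.oct, h₂.oct] with x h1 h2 hx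
    exact convex_Oct (h1 hx) (h2 hx) (by norm_num) (by norm_num) (by norm_num)
  divfree := by
    intro ζ hζ hs
    rw [divP_mid h₁ h₂ hζ, h₁.divfree ζ hζ hs, h₂.divfree ζ hζ hs]
    ring

theorem mid_mem_AF {R : Set E3} {b : (E3 → ℝ) → ℝ} {g₁ g₂ : E3 → E3} (h₁ : g₁ ∈ AF R b)
    (h₂ : g₂ ∈ AF R b) : mid g₁ g₂ ∈ AF R b := by
  refine ⟨isAF_mid h₁.1 h₂.1, fun ζ hζ => ?_⟩
  rw [divP_mid h₁.1 h₂.1 hζ, h₁.2 ζ hζ, h₂.2 ζ hζ]
  ring

/-! ### The entropy along a field -/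

theorem EntLike.exists_bound {ent : E3 → ℝ} (h : EntLike ent) : ∃ C, ∀ s ∈ Oct, |ent s| ≤ C := by
  obtain ⟨C, hC⟩ := isCompact_Oct.exists_bound_of_continuousOn h.cont
  exact ⟨C, fun s hs => by simpa using hC s hs⟩

theorem EntLike.aestronglyMeasurable {ent : E3 → ℝ} (h : EntLike ent) {g : E3 → E3}
    (hg : Measurable g) {μ : Measure E3} (hO : ∀ᵐ x ∂μ, g x ∈ Oct) :
    AEStronglyMeasurable (fun x => ent (g x)) μ := by
  classical
  have h1 : Measurable (Set.piecewise Oct ent (fun _ => 0)) :=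
    h.cont.measurable_piecewise continuous_const.continuousOn isClosed_Oct.measurableSet
  refine (h1.comp hg).aestronglyMeasurable.congr ?_
  filter_upwards [hO] with x hx
  simp [Set.piecewise, hx]

theorem EntLike.integrableOn {ent : E3 → ℝ} (h : EntLike ent) {R : Set E3} (hR : IsCompact R)
    {g : E3 → E3} (hg : Measurable g) (hO : ∀ᵐ x, g x ∈ Oct) :
    IntegrableOn (fun x => ent (g x)) R := by
  obtain ⟨C, hC⟩ := h.exists_bound
  refine Measure.integrableOn_of_bounded (M := C) hR.measure_lt_top.ne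
    (h.aestronglyMeasurable hg hO) ?_
  filter_upwards [ae_restrict_of_ae hO] with x hx
  simpa using hC _ hx

theorem ent_le_of_maximizer {ent : E3 → ℝ} {R : Set E3} (hR : IsCompact R)
    (hpos : volume R ≠ 0) {b : (E3 → ℝ) → ℝ} {g g' : E3 → E3} (h : IsMaximizer ent R b g)
    (h' : g' ∈ AF R b) : ∫ x in R, ent (g' x) ≤ ∫ x in R, ent (g x) := by
  have h1 := h.2 g' h'
  unfold Ent at h1
  have h2 : 0 < (volume R).toReal⁻¹ := by
    rw [inv_pos]
    exact ENNReal.toReal_pos hpos hR.measure_lt_top.ne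
  exact le_of_mul_le_mul_left h1 h2

/-- The basic consequence of concavity for two maximizers. -/
theorem mid_ae {ent : E3 → ℝ} (hent : EntLike ent) {R : Set E3} (hR : IsCompact R)
    (hpos : volume R ≠ 0) {b : (E3 → ℝ) → ℝ} {g₁ g₂ : E3 → E3} (h₁ : IsMaximizer ent R b g₁)
    (h₂ : IsMaximizer ent R b g₂) :
    (∀ᵐ x, g₁ x ≠ g₂ x → OnEdge (g₁ x) (g₂ x) ∧
      ent (mid g₁ g₂ x) = (1 / 2) * ent (g₁ x) + (1 / 2) * ent (g₂ x)) ∧
    (∀ g' ∈ AF R b, ∫ x in R, ent (g' x) ≤ ∫ x in R, ent (mid g₁ g₂ x)) := by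
  have hm : mid g₁ g₂ ∈ AF R b := mid_mem_AF h₁.1 h₂.1
  have i1 := hent.integrableOn hR h₁.1.1.meas h₁.1.1.mem_Oct
  have i2 := hent.integrableOn hR h₂.1.1.meas h₂.1.1.mem_Oct
  have im := hent.integrableOn hR hm.1.meas hm.1.mem_Oct
  have e1 : ∫ x in R, ent (mid g₁ g₂ x) ≤ ∫ x in R, ent (g₁ x) :=
    ent_le_of_maximizer hR hpos h₁ hm
  have e2 : ∫ x in R, ent (mid g₁ g₂ x) ≤ ∫ x in R, ent (g₂ x) :=
    ent_le_of_maximizer hR hpos h₂ hm
  have hnn : 0 ≤ᵐ[volume.restrict R] fun x =>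
      ent (mid g₁ g₂ x) - ((1 / 2) * ent (g₁ x) + (1 / 2) * ent (g₂ x)) := by
    filter_upwards [ae_restrict_of_ae h₁.1.1.mem_Oct, ae_restrict_of_ae h₂.1.1.mem_Oct]
      with x hx1 hx2
    have := hent.conc.2 hx1 hx2 (show (0 : ℝ) ≤ 1 / 2 by norm_num)
      (show (0 : ℝ) ≤ 1 / 2 by norm_num) (by norm_num)
    simp only [smul_eq_mul] at this
    simp only [Pi.zero_apply, sub_nonneg]
    exact this
  have hint : Integrable (fun x =>
      ent (mid g₁ g₂ x) - ((1 / 2) * ent (g₁ x) + (1 / 2) * ent (g₂ x))) (volume.restrict R) :=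
    Integrable.sub im ((i1.const_mul (1 / 2)).add (i2.const_mul (1 / 2)))
  have hval : ∫ x in R, (ent (mid g₁ g₂ x) - ((1 / 2) * ent (g₁ x) + (1 / 2) * ent (g₂ x))) =
      (∫ x in R, ent (mid g₁ g₂ x)) -
        ((1 / 2) * (∫ x in R, ent (g₁ x)) + (1 / 2) * ∫ x in R, ent (g₂ x)) := by
    have i3 : Integrable (fun x => (1 / 2) * ent (g₁ x) + (1 / 2) * ent (g₂ x))
        (volume.restrict R) := (i1.const_mul (1 / 2)).add (i2.const_mul (1 / 2))
    rw [integral_sub im i3,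
      integral_add (i1.const_mul (1 / 2)) (i2.const_mul (1 / 2)), integral_const_mul,
      integral_const_mul]
  have hge : 0 ≤ ∫ x in R, (ent (mid g₁ g₂ x) -
      ((1 / 2) * ent (g₁ x) + (1 / 2) * ent (g₂ x))) := integral_nonneg_of_ae hnn
  have hzero : ∫ x in R, (ent (mid g₁ g₂ x) -
      ((1 / 2) * ent (g₁ x) + (1 / 2) * ent (g₂ x))) = 0 := by
    apply le_antisymm _ hge
    rw [hval]
    linarith
  have hae := (integral_eq_zero_iff_of_nonneg_ae hnn hint).1 hzero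
  have hae' : ∀ᵐ x, x ∈ R → ent (mid g₁ g₂ x) =
      (1 / 2) * ent (g₁ x) + (1 / 2) * ent (g₂ x) := by
    have := (ae_restrict_iff' hR.measurableSet).1 hae
    filter_upwards [this] with x hx hxR
    have := hx hxR
    simp only [Pi.zero_apply] at this
    linarith
  refine ⟨?_, ?_⟩
  · filter_upwards [hae', h₁.1.1.zero, h₂.1.1.zero, h₁.1.1.mem_Oct, h₂.1.1.mem_Oct]
      with x hx h10 h20 hx1 hx2 hne
    have hxR : x ∈ R := by
      by_contra hxR
      exact hne (by rw [h10 hxR, h20 hxR])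
    refine ⟨?_, hx hxR⟩
    by_contra hE
    have := hent.strict _ hx1 _ hx2 hne hE (1 / 2) (1 / 2) (by norm_num) (by norm_num)
      (by norm_num)
    have h3 := hx hxR
    unfold mid at h3
    linarith
  · intro g' hg'
    have h3 : ∫ x in R, ent (g' x) ≤ ∫ x in R, ent (g₁ x) := ent_le_of_maximizer hR hpos h₁ hg'
    have h4 : ∫ x in R, ent (g' x) ≤ ∫ x in R, ent (g₂ x) := ent_le_of_maximizer hR hpos h₂ hg'
    rw [hzero] at hval
    linarith

end Run7.h895
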