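import Pool.Agent.Run7.h895.Local

namespace Run7.h895

open MeasureTheory Filter Topology Set Metric
open scoped ContDiff

/-- The structure of the two fields on one side of a plane near a point of the plane. -/
structure Side (ent : E3 → ℝ) (z d : E3) (ρ : ℝ) (G₁ G₂ : E3 → E3) : Prop where
  cont₁ : ContinuousOn G₁ (ball z ρ)
  cont₂ : ContinuousOn G₂ (ball z ρ)
  inv₁ : ∀ (x : E3) (t : ℝ), G₁ (x + t • d) = G₁ x
  inv₂ : ∀ (x : E3) (t : ℝ), G₂ (x + t • d) = G₂ x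
  good : ∀ x ∈ ball z ρ, (G₁ x, G₂ x) ∈ GoodPairs ent
  ne : ∀ x ∈ ball z ρ, G₁ x ≠ G₂ x
  par₁ : ∀ x ∈ ball z ρ, ∃ c : ℝ, G₁ x = G₁ z + c • d
  par₂ : ∀ x ∈ ball z ρ, ∃ c : ℝ, G₂ x = G₂ z + c • d
  eqd : G₁ z - G₂ z = d

section

variable {ent : E3 → ℝ} {R : Set E3} {b : (E3 → ℝ) → ℝ} {g₁ g₂ : E3 → E3} {Z : Set E3}

theorem Side.mono {z d : E3} {ρ ρ' : ℝ} {G₁ G₂ : E3 → E3} (S : Side ent z d ρ G₁ G₂)
    (h : ρ' ≤ ρ) : Side ent z d ρ' G₁ G₂ where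
  cont₁ := S.cont₁.mono (ball_subset_ball h)
  cont₂ := S.cont₂.mono (ball_subset_ball h)
  inv₁ := S.inv₁
  inv₂ := S.inv₂
  good := fun x hx => S.good x (ball_subset_ball h hx)
  ne := fun x hx => S.ne x (ball_subset_ball h hx)
  par₁ := fun x hx => S.par₁ x (ball_subset_ball h hx)
  par₂ := fun x hx => S.par₂ x (ball_subset_ball h hx)
  eqd := S.eqd

theorem Pair.propagate' (H : Pair ent R b g₁ g₂ Z) {p x : E3} (hp : p ∈ VV g₁ g₂ Z) {t : ℝ}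
    (hx : x = p + t • (g₁ p - g₂ p)) (hseg : ∀ y ∈ segment ℝ p x, y ∉ Z) :
    g₁ x = g₁ p ∧ g₂ x = g₂ p := by
  have hmem : ∀ θ ∈ Icc (0 : ℝ) 1, p + (θ * t) • (g₁ p - g₂ p) ∉ Z := by
    intro θ hθ
    apply hseg
    rw [segment_eq_image']
    refine ⟨θ, hθ, ?_⟩
    simp only [hx, add_sub_cancel_left, smul_smul]
  rcases le_or_gt 0 t with ht | ht
  · have h1 := H.propagate hp (τ := t) (fun s hs => ?_) t ⟨ht, le_rfl⟩
    · rw [hx]
      exact h1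
    · rcases ht.eq_or_lt with h0 | h0
      · have hs0 : s = 0 := le_antisymm (h0 ▸ hs.2) hs.1
        have := hmem 0 (by simp)
        rw [hs0]
        simpa using this
      · have := hmem (s / t) ⟨div_nonneg hs.1 ht, div_le_one_of_le₀ hs.2 ht⟩
        rwa [div_mul_cancel₀ _ h0.ne'] at this
  · have hx' : x = p + (-t) • (g₂ p - g₁ p) := by
      rw [hx]
      module
    have h1 := H.symm.propagate (x₀ := p) ⟨hp.1, hp.2.symm⟩ (τ := -t) (fun s hs => ?_) (-t)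
      ⟨by linarith, le_rfl⟩
    · rw [hx']
      exact ⟨h1.2, h1.1⟩
    · have h2 := hmem (s / (-t)) ⟨div_nonneg hs.1 (by linarith),
        div_le_one_of_le₀ hs.2 (by linarith)⟩
      have e1 : s / (-t) * t = -s := by
        rw [div_neg, neg_mul, div_mul_cancel₀ _ ht.ne]
      rw [e1] at h2
      have e2 : p + (-s) • (g₁ p - g₂ p) = p + s • (g₂ p - g₁ p) := by module
      rwa [e2] at h2

/-- The structure on the side from which a line arrives. -/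
theorem Pair.side (H : Pair ent R b g₁ g₂ Z) {z : E3} {ρ : ℝ} (hρ : 0 < ρ) {ℓ : E3 →L[ℝ] ℝ}
    (hZ : ∀ x ∈ ball z ρ, ℓ x ≠ ℓ z → x ∉ Z) {y : E3} (hy : y ∈ ball z ρ) (hyz : ℓ y < ℓ z)
    (hne : g₁ y ≠ g₂ y) {t : ℝ} (hz : z = y + t • (g₁ y - g₂ y)) :
    ∃ (ρ' : ℝ) (G₁ G₂ : E3 → E3), 0 < ρ' ∧ ρ' ≤ ρ ∧ Side ent z (g₁ y - g₂ y) ρ' G₁ G₂ ∧
      (∀ x ∈ ball z ρ', ℓ x < ℓ z → g₁ x = G₁ x ∧ g₂ x = G₂ x) ∧ G₁ z = g₁ y ∧ G₂ z = g₂ y := by
  set d : E3 := g₁ y - g₂ y with hd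
  have hyV : y ∈ VV g₁ g₂ Z := ⟨hZ y hy (ne_of_lt hyz), hne⟩
  have hℓz : ℓ z = ℓ y + t * ℓ d := by
    conv_lhs => rw [hz]
    rw [map_add, map_smul, smul_eq_mul]
  have htd : t * ℓ d ≠ 0 := by
    intro h
    rw [h, add_zero] at hℓz
    exact (ne_of_lt hyz) hℓz.symm
  have hℓd : ℓ d ≠ 0 := right_ne_zero_of_mul htd
  set π : E3 → E3 := fun x => x - ((ℓ x - ℓ y) / ℓ d) • d with hπ
  have hπc : Continuous π := by
    simp only [hπ]
    fun_prop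
  have hπz : π z = y := by
    simp only [hπ]
    have : (ℓ z - ℓ y) / ℓ d = t := by
      rw [hℓz, add_sub_cancel_left, mul_div_cancel_right₀ _ hℓd]
    rw [this]
    conv_lhs => rw [hz]
    rw [add_sub_cancel_right]
  have hπinv : ∀ (x : E3) (s : ℝ), π (x + s • d) = π x := by
    intro x s
    simp only [hπ, map_add, map_smul, smul_eq_mul]
    have : (ℓ x + s * ℓ d - ℓ y) / ℓ d = (ℓ x - ℓ y) / ℓ d + s := by
      field_simp
      ring
    rw [this]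
    module
  have hπℓ : ∀ x, ℓ (π x) = ℓ y := by
    intro x
    simp only [hπ, map_sub, map_smul, smul_eq_mul]
    rw [div_mul_cancel₀ _ hℓd]
    ring
  obtain ⟨r, hr, hball, hloc⟩ := H.loc hyV
  have hev : ∀ᶠ x in 𝓝 z, π x ∈ ball y r ∩ ball z ρ := by
    have h1 : ball y r ∩ ball z ρ ∈ 𝓝 (π z) := by
      rw [hπz]
      exact inter_mem (ball_mem_nhds y hr) (isOpen_ball.mem_nhds hy)
    exact hπc.continuousAt h1
  obtain ⟨ρ₁, hρ₁, hb⟩ := Metric.eventually_nhds_iff_ball.1 hev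
  have hbV : ∀ x ∈ ball z (min ρ₁ ρ), π x ∈ VV g₁ g₂ Z := fun x hx =>
    hball (hb x (ball_subset_ball (min_le_left _ _) hx)).1
  refine ⟨min ρ₁ ρ, fun x => g₁ (π x), fun x => g₂ (π x), lt_min hρ₁ hρ, min_le_right _ _,
    ⟨?_, ?_, ?_, ?_, ?_, ?_, ?_, ?_, ?_⟩, ?_, ?_, ?_⟩
  · intro x hx
    have h1 := H.hc1 _ (hbV x hx).1 (hbV x hx).2
    exact (ContinuousAt.comp (g := g₁) (f := π) h1 hπc.continuousAt).continuousWithinAt
  · intro x hx
    have h1 := H.cont2 (hbV x hx)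
    exact (ContinuousAt.comp (g := g₂) (f := π) h1 hπc.continuousAt).continuousWithinAt
  · intro x s
    simp only [hπinv]
  · intro x s
    simp only [hπinv]
  · intro x hx
    exact H.good (hbV x hx)
  · intro x hx
    exact (hbV x hx).2
  · intro x hx
    simp only [hπz]
    exact (hloc _ (hb x (ball_subset_ball (min_le_left _ _) hx)).1).1
  · intro x hx
    simp only [hπz]
    exact (hloc _ (hb x (ball_subset_ball (min_le_left _ _) hx)).1).2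
  · simp only [hπz]
    exact hd.symm
  · intro x hx hxz
    have hxρ : x ∈ ball z ρ := ball_subset_ball (min_le_right _ _) hx
    have hx1 := hb x (ball_subset_ball (min_le_left _ _) hx)
    obtain ⟨⟨c₁, hc₁⟩, ⟨c₂, hc₂⟩⟩ := hloc _ hx1.1
    -- the direction at `π x`
    have hκ : g₁ (π x) - g₂ (π x) = (1 + c₁ - c₂) • d := by
      rw [hc₁, hc₂, hd]
      module
    have hκ0 : (1 + c₁ - c₂) ≠ 0 := by
      intro h
      rw [h, zero_smul] at hκ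
      exact (hbV x hx).2 (sub_eq_zero.1 hκ)
    have hseg : ∀ w ∈ segment ℝ (π x) x, w ∉ Z := by
      intro w hw
      have hw1 : w ∈ ball z ρ := (convex_ball z ρ).segment_subset hx1.2 hxρ hw
      have hw2 : ℓ w < ℓ z := by
        obtain ⟨p, q, hp, hq, hpq, rfl⟩ := hw
        rw [map_add, map_smul, map_smul, smul_eq_mul, smul_eq_mul, hπℓ]
        rcases hp.eq_or_lt with h0 | h0
        · have : q = 1 := by linarith
          rw [← h0, this]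
          linarith
        · have hq1 : q = 1 - p := by linarith
          rw [hq1]
          nlinarith
      exact hZ w hw1 (ne_of_lt hw2)
    have hxe : x = π x + (((ℓ x - ℓ y) / ℓ d) / (1 + c₁ - c₂)) • (g₁ (π x) - g₂ (π x)) := by
      rw [hκ, smul_smul, div_mul_cancel₀ _ hκ0]
      simp only [hπ]
      rw [sub_add_cancel]
    exact H.propagate' (hbV x hx) hxe hseg
  · simp only [hπz]
  · simp only [hπz]

/-- The midpoints near the centre. -/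
theorem Side.near {z d : E3} {ρ : ℝ} {G₁ G₂ : E3 → E3} (S : Side ent z d ρ G₁ G₂) (hρ : 0 < ρ)
    {ℓ : E3 →L[ℝ] ℝ} (hd : ℓ d ≠ 0) : ∃ r, 0 < r ∧ r ≤ ρ ∧ ∀ x ∈ ball z r, ∃ μ : ℝ,
      |μ| ≤ 1 / 8 ∧ mp (G₁ x) (G₂ x) = mp (G₁ z) (G₂ z) + μ • (G₁ z - G₂ z) := by
  have hz : z ∈ ball z ρ := mem_ball_self hρ
  have c1 : ContinuousAt G₁ z := S.cont₁.continuousAt (isOpen_ball.mem_nhds hz)
  have c2 : ContinuousAt G₂ z := S.cont₂.continuousAt (isOpen_ball.mem_nhds hz)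
  have c3 : ContinuousAt (fun x => mp (G₁ x) (G₂ x)) z := by
    unfold mp
    exact (c1.const_smul (1 / 2 : ℝ)).add (c2.const_smul (1 / 2 : ℝ))
  have c4 : ContinuousAt (fun x => ℓ (mp (G₁ x) (G₂ x) - mp (G₁ z) (G₂ z)) / ℓ d) z :=
    (ℓ.continuous.continuousAt.comp (c3.sub continuousAt_const)).div_const _
  have h0 : ℓ (mp (G₁ z) (G₂ z) - mp (G₁ z) (G₂ z)) / ℓ d = 0 := by simp
  have c5 : Tendsto (fun x => |ℓ (mp (G₁ x) (G₂ x) - mp (G₁ z) (G₂ z)) / ℓ d|) (𝓝 z) (𝓝 0) := by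
    have := c4.tendsto.abs
    rw [h0, abs_zero] at this
    exact this
  have hev : ∀ᶠ x in 𝓝 z, |ℓ (mp (G₁ x) (G₂ x) - mp (G₁ z) (G₂ z)) / ℓ d| < 1 / 8 :=
    c5.eventually (gt_mem_nhds (by norm_num))
  obtain ⟨r, hr, hb⟩ := Metric.eventually_nhds_iff_ball.1 hev
  refine ⟨min r ρ, lt_min hr hρ, min_le_right _ _, fun x hx => ?_⟩
  obtain ⟨c, hc⟩ := S.par₁ x (ball_subset_ball (min_le_right _ _) hx)
  obtain ⟨c', hc'⟩ := S.par₂ x (ball_subset_ball (min_le_right _ _) hx)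
  have hx1 := hb x (ball_subset_ball (min_le_left _ _) hx)
  have e1 : mp (G₁ x) (G₂ x) - mp (G₁ z) (G₂ z) = (c / 2 + c' / 2) • d := by
    rw [hc, hc']
    unfold mp
    module
  rw [e1, map_smul, smul_eq_mul, mul_div_cancel_right₀ _ hd] at hx1
  refine ⟨c / 2 + c' / 2, hx1.le, ?_⟩
  rw [S.eqd, ← e1]
  abel

/-- The normal components agree. -/
theorem flux {f F F' : E3 → E3} (hf : Measurable f) {M : ℝ} (hb : ∀ᵐ x, ‖f x‖ ≤ M) {z : E3}
    {ρ : ℝ} (hρ : 0 < ρ) {ℓ : E3 →L[ℝ] ℝ} (hℓ : ℓ ≠ 0)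
    (hdiv : ∀ ζ, IsTest ζ → tsupport ζ ⊆ ball z ρ → ∫ x, fderiv ℝ ζ x (f x) = 0)
    (hF : ContinuousAt F z) (hF' : ContinuousAt F' z)
    (h1 : ∀ x ∈ ball z ρ, ℓ x < ℓ z → f x = F x) (h2 : ∀ x ∈ ball z ρ, ℓ z < ℓ x → f x = F' x) :
    ℓ (F z) ≤ ℓ (F' z) := by
  refine le_of_forall_pos_le_add (fun ε hε => ?_)
  have c1 : ContinuousAt (fun x => ℓ (F x)) z := ℓ.continuous.continuousAt.comp hF
  have c2 : ContinuousAt (fun x => ℓ (F' x)) z := ℓ.continuous.continuousAt.comp hF'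
  have e1 : ∀ᶠ x in 𝓝 z, ℓ (F z) - ε / 2 < ℓ (F x) :=
    c1.eventually (lt_mem_nhds (by linarith))
  have e2 : ∀ᶠ x in 𝓝 z, ℓ (F' x) < ℓ (F' z) + ε / 2 :=
    c2.eventually (gt_mem_nhds (by linarith))
  obtain ⟨r, hr, hbr⟩ := Metric.eventually_nhds_iff_ball.1 (e1.and e2)
  have := jump hf hb (z := z) (ρ := min r ρ) (lt_min hr hρ) hℓ
    (fun ζ hζ hs => hdiv ζ hζ (hs.trans (ball_subset_ball (min_le_right _ _))))
    (α := ℓ (F z) - ε / 2) (β := ℓ (F' z) + ε / 2)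
    (fun x hx hxz => by
      rw [h1 x (ball_subset_ball (min_le_right _ _) hx) hxz]
      exact (hbr x (ball_subset_ball (min_le_left _ _) hx)).1.le)
    (fun x hx hxz => by
      rw [h2 x (ball_subset_ball (min_le_right _ _) hx) hxz]
      exact (hbr x (ball_subset_ball (min_le_left _ _) hx)).2.le)
  linarith

theorem flux_eq {f F F' : E3 → E3} (hf : Measurable f) {M : ℝ} (hb : ∀ᵐ x, ‖f x‖ ≤ M) {z : E3}
    {ρ : ℝ} (hρ : 0 < ρ) {ℓ : E3 →L[ℝ] ℝ} (hℓ : ℓ ≠ 0)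
    (hdiv : ∀ ζ, IsTest ζ → tsupport ζ ⊆ ball z ρ → ∫ x, fderiv ℝ ζ x (f x) = 0)
    (hF : ContinuousAt F z) (hF' : ContinuousAt F' z)
    (h1 : ∀ x ∈ ball z ρ, ℓ x < ℓ z → f x = F x) (h2 : ∀ x ∈ ball z ρ, ℓ z < ℓ x → f x = F' x) :
    ℓ (F z) = ℓ (F' z) := by
  refine le_antisymm (flux hf hb hρ hℓ hdiv hF hF' h1 h2) ?_
  have h3 := flux (f := fun x => -f x) (F := fun x => -F x) (F' := fun x => -F' x) (M := M)
    hf.neg (by filter_upwards [hb] with x hx; rwa [norm_neg]) hρ hℓ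
    (fun ζ hζ hs => by
      have := hdiv ζ hζ hs
      simp only [map_neg, integral_neg, this, neg_zero])
    hF.neg hF'.neg (fun x hx hxz => by simp only [h1 x hx hxz])
    (fun x hx hxz => by simp only [h2 x hx hxz])
  simp only [map_neg] at h3
  linarith

/-- The directions on the two sides of a plane agree. -/
theorem Pair.meet (H : Pair ent R b g₁ g₂ Z) {z : E3} {ρ : ℝ} (hρ : 0 < ρ) {ℓ : E3 →L[ℝ] ℝ}
    (hZ : ∀ x ∈ ball z ρ, ℓ x ≠ ℓ z → x ∉ Z) {d e : E3} {G₁ G₂ G₁' G₂' : E3 → E3}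
    (SL : Side ent z d ρ G₁ G₂) (SR : Side ent z e ρ G₁' G₂')
    (hL : ∀ x ∈ ball z ρ, ℓ x < ℓ z → g₁ x = G₁ x ∧ g₂ x = G₂ x)
    (hRt : ∀ x ∈ ball z ρ, ℓ z < ℓ x → g₁ x = G₁' x ∧ g₂ x = G₂' x) (hd : ℓ d ≠ 0) : d = e := by
  have hℓ : ℓ ≠ 0 := by
    rintro rfl
    exact hd rfl
  have hz : z ∈ ball z ρ := mem_ball_self hρ
  -- the ball is contained in `R`
  have hV : ∀ x ∈ ball z ρ, ℓ x ≠ ℓ z → x ∈ VV g₁ g₂ Z := by
    intro x hx hxz
    refine ⟨hZ x hx hxz, ?_⟩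
    rcases lt_or_gt_of_ne hxz with h | h
    · rw [(hL x hx h).1, (hL x hx h).2]
      exact SL.ne x hx
    · rw [(hRt x hx h).1, (hRt x hx h).2]
      exact SR.ne x hx
  have hballR : ball z ρ ⊆ R := by
    by_contra hcon
    rw [not_subset] at hcon
    obtain ⟨x, hx, hxR⟩ := hcon
    have hopen : IsOpen (ball z ρ ∩ Rᶜ) := isOpen_ball.inter H.hR.isClosed.isOpen_compl
    have hpos : 0 < volume (ball z ρ ∩ Rᶜ) := hopen.measure_pos volume ⟨x, hx, hxR⟩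
    refine hpos.ne' (measure_mono_null ?_ (volume_plane hℓ (ℓ z)))
    intro y hy
    by_contra hyz
    exact hy.2 (interior_subset (H.subset_R (hV y hy.1 hyz)))
  have hballI : ball z ρ ⊆ interior R := interior_maximal hballR isOpen_ball
  have c1 : ContinuousAt G₁ z := SL.cont₁.continuousAt (isOpen_ball.mem_nhds hz)
  have c2 : ContinuousAt G₂ z := SL.cont₂.continuousAt (isOpen_ball.mem_nhds hz)
  have c1' : ContinuousAt G₁' z := SR.cont₁.continuousAt (isOpen_ball.mem_nhds hz)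
  have c2' : ContinuousAt G₂' z := SR.cont₂.continuousAt (isOpen_ball.mem_nhds hz)
  have f1 : ℓ (G₁ z) = ℓ (G₁' z) := flux_eq H.h₁.1.1.meas H.h₁.1.1.bound hρ hℓ
    (fun ζ hζ hs => H.divfree hζ (hs.trans hballI)) c1 c1'
    (fun x hx h => (hL x hx h).1) (fun x hx h => (hRt x hx h).1)
  have f2 : ℓ (G₂ z) = ℓ (G₂' z) := flux_eq H.h₂.1.1.meas H.h₂.1.1.bound hρ hℓ
    (fun ζ hζ hs => H.symm.divfree hζ (hs.trans hballI)) c2 c2'
    (fun x hx h => (hL x hx h).2) (fun x hx h => (hRt x hx h).2)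
  have f3 : ℓ (G₁ z - G₂ z) = ℓ (G₁' z - G₂' z) := by rw [map_sub, map_sub, f1, f2]
  have hne : ℓ (G₁ z - G₂ z) ≠ 0 := by rw [SL.eqd]; exact hd
  have hne' : ℓ e ≠ 0 := by rw [← SR.eqd, ← f3]; exact hne
  by_cases hno : NoEdge (G₁ z) (G₂ z) (G₁' z) (G₂' z)
  · exfalso
    obtain ⟨r₁, hr₁, hr₁', hn₁⟩ := SL.near hρ hd
    obtain ⟨r₂, hr₂, hr₂', hn₂⟩ := SR.near hρ hne'
    have hm := mid_ae H.hent H.hR H.hpos H.h₁ H.h₂
    have hsub1 : ball z (min r₁ r₂) ⊆ ball z r₁ := ball_subset_ball (min_le_left _ _)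
    have hsub2 : ball z (min r₁ r₂) ⊆ ball z r₂ := ball_subset_ball (min_le_right _ _)
    refine flex H.hent H.hR (mid_mem_AF H.h₁.1 H.h₂.1) hm.2 (z := z) (ρ := min r₁ r₂)
      (lt_min hr₁ hr₂) ((hsub1.trans (ball_subset_ball hr₁')).trans hballI)
      (SL.good z hz).1 (SR.good z hz).1 (SL.good z hz).2 (SR.good z hz).2 hno hne f3 ?_ ?_ ?_
    · unfold mp
      simp only [map_add, map_smul, f1, f2]
    · intro x hx hxz
      obtain ⟨μ, hμ, hμe⟩ := hn₁ x (hsub1 hx)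
      refine ⟨μ, hμ, ?_⟩
      have := hL x (ball_subset_ball hr₁' (hsub1 hx)) hxz
      rw [mid_apply, this.1, this.2, hμe]
    · intro x hx hxz
      obtain ⟨μ, hμ, hμe⟩ := hn₂ x (hsub2 hx)
      refine ⟨μ, hμ, ?_⟩
      have := hRt x (ball_subset_ball hr₂' (hsub2 hx)) hxz
      rw [mid_apply, this.1, this.2, hμe]
  · unfold NoEdge at hno
    push Not at hno
    obtain ⟨i, j, a, b', hij, ha, hb, p1, p2, p3, p4, _⟩ := hno
    obtain ⟨c, hc⟩ := parallel_of_mem_edgeFace hij ha hb p1 p2 p3 p4 (SL.ne z hz)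
    rw [hc, map_smul, smul_eq_mul] at f3
    have hc1 : c = 1 := by
      have h4 : (c - 1) * ℓ (G₁ z - G₂ z) = 0 := by linear_combination -f3
      rcases mul_eq_zero.1 h4 with h5 | h5
      · linarith
      · exact absurd h5 hne
    rw [hc1, one_smul, SL.eqd, SR.eqd] at hc
    exact hc.symm

end

end Run7.h895
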