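import Mathlib

/-!
# Asymptotic flows of the three dimensional dimer model and entropy maximizers: definitions
-/

namespace Run7.h895

open MeasureTheory Filter Topology Set
open scoped ContDiff

/-- Three dimensional space, with Lebesgue measure. -/
abbrev E3 : Type := Fin 3 → ℝ

/-- The octahedron. -/
def Oct : Set E3 := {s | |s 0| + |s 1| + |s 2| ≤ 1}

/-- The edges of the octahedron: the segments joining `±e_i` to `±e_j`, `i ≠ j`. -/
def IsEdge (S : Set E3) : Prop :=
  ∃ (i j : Fin 3) (a b : ℝ), i ≠ j ∧ (a = 1 ∨ a = -1) ∧ (b = 1 ∨ b = -1) ∧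
    S = segment ℝ (Pi.single i a : E3) (Pi.single j b : E3)

/-- `s` and `t` lie on a common edge. -/
def OnEdge (s t : E3) : Prop := ∃ S, IsEdge S ∧ s ∈ S ∧ t ∈ S

/-- Test functions: smooth functions with compact support. -/
structure IsTest (ζ : E3 → ℝ) : Prop where
  smooth : ContDiff ℝ ∞ ζ
  cpt : HasCompactSupport ζ

/-- The pairing of the distribution `div g` with `ζ`, namely `-∫ g · ∇ζ`. -/
noncomputable def divP (g : E3 → E3) (ζ : E3 → ℝ) : ℝ := -∫ x, fderiv ℝ ζ x (g x)

/-- `AF(R)`: measurable fields that vanish outside `R`, take values in the octahedron on `R`, and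
are divergence free in the interior of `R`. -/
structure IsAF (R : Set E3) (g : E3 → E3) : Prop where
  meas : Measurable g
  zero : ∀ᵐ x, x ∉ R → g x = 0
  oct : ∀ᵐ x, x ∈ R → g x ∈ Oct
  divfree : ∀ ζ, IsTest ζ → tsupport ζ ⊆ interior R → divP g ζ = 0

/-- `AF(R, b)`: the members of `AF(R)` whose divergence on the whole space is `b`. -/
def AF (R : Set E3) (b : (E3 → ℝ) → ℝ) : Set (E3 → E3) :=
  {g | IsAF R g ∧ ∀ ζ, IsTest ζ → divP g ζ = b ζ}

/-- The entropy functional. -/
noncomputable def Ent (ent : E3 → ℝ) (R : Set E3) (g : E3 → E3) : ℝ :=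
  (volume R).toReal⁻¹ * ∫ x in R, ent (g x)

/-- `g` maximizes `Ent` on `AF(R, b)`. -/
def IsMaximizer (ent : E3 → ℝ) (R : Set E3) (b : (E3 → ℝ) → ℝ) (g : E3 → E3) : Prop :=
  g ∈ AF R b ∧ ∀ g' ∈ AF R b, Ent ent R g' ≤ Ent ent R g

/-- The properties of the function `ent`: it is continuous and concave on the octahedron, and
strictly concave except on the edges. -/
structure EntLike (ent : E3 → ℝ) : Prop where
  cont : ContinuousOn ent Oct
  conc : ConcaveOn ℝ Oct ent
  strict : ∀ s ∈ Oct, ∀ t ∈ Oct, s ≠ t → ¬ OnEdge s t → ∀ a b : ℝ, 0 < a → 0 < b → a + b = 1 →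
    a * ent s + b * ent t < ent (a • s + b • t)

end Run7.h895
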