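import Pool.Agent.Run7.h895.Main

namespace Run7.h895

open MeasureTheory Filter Topology Set Metric
open scoped ContDiff

/-- The union of finitely many planes. -/
def planes (P : Finset ((E3 →L[ℝ] ℝ) × ℝ)) : Set E3 := {x | ∃ p ∈ P, p.1 x = p.2}

theorem isClosed_planes (P : Finset ((E3 →L[ℝ] ℝ) × ℝ)) : IsClosed (planes P) := by
  have : planes P = ⋃ p ∈ P, {x | p.1 x = p.2} := by
    ext x
    simp [planes]
  rw [this]
  exact isClosed_biUnion_finset (fun p _ => isClosed_eq p.1.continuous continuous_const)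

theorem volume_planes {P : Finset ((E3 →L[ℝ] ℝ) × ℝ)} (hP : ∀ p ∈ P, p.1 ≠ 0) :
    volume (planes P) = 0 := by
  have : planes P = ⋃ p ∈ P, {x | p.1 x = p.2} := by
    ext x
    simp [planes]
  rw [this]
  refine (measure_biUnion_null_iff P.countable_toSet).2 (fun p hp => ?_)
  exact volume_plane (hP p hp) p.2

/-- Near a generic point the planes form one plane. -/
theorem local_plane {P : Finset ((E3 →L[ℝ] ℝ) × ℝ)} {x₁ d : E3} (hx₁ : x₁ ∉ planes P)
    (hgen : ∀ p ∈ P, ∀ q ∈ P, (p.1 d) • q.1 - (q.1 d) • p.1 ≠ 0 →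
      ((p.1 d) • q.1 - (q.1 d) • p.1) x₁ ≠ p.1 d * q.2 - q.1 d * p.2) {t : ℝ}
    (ht : x₁ + t • d ∈ planes P) :
    ∃ (ρ : ℝ) (ℓ : E3 →L[ℝ] ℝ), 0 < ρ ∧ 0 < ℓ d ∧
      ∀ x ∈ ball (x₁ + t • d) ρ, ℓ x ≠ ℓ (x₁ + t • d) → x ∉ planes P := by
  obtain ⟨p, hp, hpz⟩ := ht
  set z : E3 := x₁ + t • d with hz
  have hnz : ∀ q ∈ P, q.1 z = q.2 → q.1 d ≠ 0 := by
    intro q hq hqz h0
    apply hx₁
    refine ⟨q, hq, ?_⟩
    rw [hz, map_add, map_smul, h0, smul_zero, add_zero] at hqz
    exact hqz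
  have hpd := hnz p hp hpz
  -- the other planes through `z`
  have hpar : ∀ q ∈ P, q.1 z = q.2 → ∀ x, q.1 (x - z) = (q.1 d / p.1 d) * p.1 (x - z) := by
    intro q hq hqz
    have h0 : (p.1 d) • q.1 - (q.1 d) • p.1 = 0 := by
      by_contra hcon
      apply hgen p hp q hq hcon
      rw [hz, map_add, map_smul, smul_eq_mul] at hpz hqz
      simp only [_root_.sub_apply, _root_.smul_apply, smul_eq_mul]
      rw [← hpz, ← hqz]
      ring
    intro x
    have h1 : ((p.1 d) • q.1 - (q.1 d) • p.1) (x - z) = 0 := by rw [h0]; rfl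
    simp only [_root_.sub_apply, _root_.smul_apply, smul_eq_mul] at h1
    field_simp
    linarith
  -- the planes which do not contain `z`
  have hev : ∀ᶠ x in 𝓝 z, ∀ q ∈ P, q.1 z ≠ q.2 → q.1 x ≠ q.2 := by
    rw [Filter.eventually_all_finset]
    intro q hq
    by_cases h : q.1 z = q.2
    · exact Eventually.of_forall (fun x hne => absurd h hne)
    · have := q.1.continuous.continuousAt.eventually_ne h
      filter_upwards [this] with x hx _
      exact hx
  obtain ⟨ρ, hρ, hb⟩ := Metric.eventually_nhds_iff_ball.1 hev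
  have key : ∀ x ∈ ball z ρ, p.1 x ≠ p.1 z → x ∉ planes P := by
    rintro x hx hxz ⟨q, hq, hqx⟩
    by_cases h : q.1 z = q.2
    · have h1 := hpar q hq h x
      rw [map_sub, hqx, h, sub_self] at h1
      have h2 : p.1 (x - z) ≠ 0 := by rw [map_sub, sub_ne_zero]; exact hxz
      exact (mul_ne_zero (div_ne_zero (hnz q hq h) hpd) h2) h1.symm
    · exact hb x hx q hq h hqx
  rcases lt_or_gt_of_ne hpd with h | h
  · refine ⟨ρ, -p.1, hρ, by rw [_root_.neg_apply]; linarith, fun x hx hxz => key x hx ?_⟩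
    simpa using hxz
  · exact ⟨ρ, p.1, hρ, h, key⟩

section

variable {ent : E3 → ℝ} {R : Set E3} {b : (E3 → ℝ) → ℝ} {g₁ g₂ : E3 → E3}
  {P : Finset ((E3 →L[ℝ] ℝ) × ℝ)}

/-- Along a generic line the difference is constant. -/
theorem Pair.line (H : Pair ent R b g₁ g₂ (planes P)) {x₁ d : E3} (hx₁ : x₁ ∈ VV g₁ g₂ (planes P))
    (hd : g₁ x₁ - g₂ x₁ = d)
    (hgen : ∀ p ∈ P, ∀ q ∈ P, (p.1 d) • q.1 - (q.1 d) • p.1 ≠ 0 →
      ((p.1 d) • q.1 - (q.1 d) • p.1) x₁ ≠ p.1 d * q.2 - q.1 d * p.2) (N : ℝ) (hN : 0 ≤ N) :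
    x₁ + N • d ∈ planes P ∨ g₁ (x₁ + N • d) - g₂ (x₁ + N • d) = d := by
  have hd0 : d ≠ 0 := by
    rw [← hd]
    exact sub_ne_zero.2 hx₁.2
  set Q : ℝ → Prop := fun s => x₁ + s • d ∈ planes P ∨ g₁ (x₁ + s • d) - g₂ (x₁ + s • d) = d
    with hQ
  set A : Set ℝ := {t | ∀ s ∈ Icc (0 : ℝ) t, Q s} with hA
  have hcl : ∀ t : ℝ, Tendsto (fun s : ℝ => x₁ + s • d) (𝓝 t) (𝓝 (x₁ + t • d)) := by
    intro t
    have : Continuous (fun s : ℝ => x₁ + s • d) := by fun_prop
    exact this.tendsto t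
  have hmain : Icc (0 : ℝ) N ⊆ A := by
    refine IsClosed.Icc_subset_of_forall_mem_nhdsWithin ?_ ?_ ?_
    · refine isClosed_of_closure_subset (fun t ht => ?_)
      obtain ⟨u, hu, hut⟩ := mem_closure_iff_seq_limit.1 ht
      have htI : t ∈ Icc (0 : ℝ) N := isClosed_Icc.mem_of_tendsto hut
        (Eventually.of_forall (fun n => (hu n).2))
      refine ⟨fun s hs => ?_, htI⟩
      rcases hs.2.lt_or_eq with h | h
      · obtain ⟨n, hn⟩ := (hut.eventually (lt_mem_nhds h)).exists
        exact (hu n).1 s ⟨hs.1, hn.le⟩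
      · subst h
        by_cases hZ : x₁ + s • d ∈ planes P
        · exact Or.inl hZ
        · right
          have h1 : Tendsto (fun n => g₁ (x₁ + u n • d) - g₂ (x₁ + u n • d)) atTop
              (𝓝 (g₁ (x₁ + s • d) - g₂ (x₁ + s • d))) :=
            (H.hc _ hZ).tendsto.comp ((hcl s).comp hut)
          have h2 : ∀ᶠ n in atTop, x₁ + u n • d ∉ planes P :=
            ((hcl s).comp hut).eventually (H.hZ.isOpen_compl.mem_nhds hZ)
          refine tendsto_nhds_unique h1 ?_
          refine tendsto_const_nhds.congr' ?_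
          filter_upwards [h2] with n hn
          rcases (hu n).1 (u n) ⟨(hu n).2.1, le_rfl⟩ with h3 | h3
          · exact absurd h3 hn
          · exact h3.symm
    · intro s hs
      have : s = 0 := le_antisymm hs.2 hs.1
      subst this
      right
      simpa using hd
    · rintro t ⟨htA, htI⟩
      have hev : ∀ᶠ s in 𝓝[>] t, Q s := by
        by_cases hZ : x₁ + t • d ∈ planes P
        · -- crossing
          have ht0 : 0 < t := by
            rcases htI.1.eq_or_lt with h | h
            · rw [← h, zero_smul, add_zero] at hZ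
              exact absurd hZ hx₁.1
            · exact h
          obtain ⟨ρ, ℓ, hρ, hℓd, hloc⟩ := local_plane hx₁.1 hgen hZ
          obtain ⟨σ, hσ0, hσt, hσ⟩ : ∃ σ : ℝ, 0 < σ ∧ σ < t ∧ ‖σ • d‖ < ρ := by
            refine ⟨min (t / 2) (ρ / (2 * (1 + ‖d‖))), by positivity, ?_, ?_⟩
            · exact (min_le_left _ _).trans_lt (by linarith)
            · rw [norm_smul, Real.norm_eq_abs, abs_of_pos (by positivity)]
              have h1 : min (t / 2) (ρ / (2 * (1 + ‖d‖))) * ‖d‖ ≤ ρ / (2 * (1 + ‖d‖)) * ‖d‖ :=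
                mul_le_mul_of_nonneg_right (min_le_right _ _) (norm_nonneg _)
              refine h1.trans_lt ?_
              rw [div_mul_eq_mul_div, div_lt_iff₀ (by positivity)]
              have : 0 ≤ ‖d‖ := norm_nonneg d
              nlinarith
          have e1 : x₁ + t • d = x₁ + (t - σ) • d + σ • d := by module
          have hy : x₁ + (t - σ) • d ∈ ball (x₁ + t • d) ρ := by
            rw [mem_ball, dist_eq_norm]
            have : x₁ + (t - σ) • d - (x₁ + t • d) = -(σ • d) := by module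
            rw [this, norm_neg]
            exact hσ
          have hyZ : x₁ + (t - σ) • d ∉ planes P := by
            apply hloc _ hy
            rw [map_add, map_add, map_smul, map_smul, smul_eq_mul, smul_eq_mul]
            have := mul_pos hσ0 hℓd
            intro h
            nlinarith
          have hyd : g₁ (x₁ + (t - σ) • d) - g₂ (x₁ + (t - σ) • d) = d := by
            rcases htA (t - σ) ⟨by linarith, by linarith⟩ with h | h
            · exact absurd h hyZ
            · exact h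
          have hcr := H.crossing hρ hloc hy hyd hℓd hσ0 e1
          have hsh : Tendsto (fun s : ℝ => s - t) (𝓝[>] t) (𝓝[>] 0) := by
            refine tendsto_nhdsWithin_iff.2 ⟨?_, ?_⟩
            · have : Continuous (fun s : ℝ => s - t) := by fun_prop
              have h := this.tendsto t
              rw [sub_self] at h
              exact h.mono_left nhdsWithin_le_nhds
            · filter_upwards [self_mem_nhdsWithin] with s hs
              have hs' : t < s := hs
              exact sub_pos.2 hs'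
          filter_upwards [hsh.eventually hcr] with s hs
          right
          have e2 : x₁ + t • d + (s - t) • d = x₁ + s • d := by module
          rwa [e2] at hs
        · -- inside
          have ht : g₁ (x₁ + t • d) - g₂ (x₁ + t • d) = d := by
            rcases htA t ⟨htI.1, le_rfl⟩ with h | h
            · exact absurd h hZ
            · exact h
          have hV : x₁ + t • d ∈ VV g₁ g₂ (planes P) := by
            refine ⟨hZ, fun h => hd0 ?_⟩
            rw [← ht, h, sub_self]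
          have k1 := H.local_const hV
          have k2 := H.symm.local_const (x₀ := x₁ + t • d) ⟨hV.1, hV.2.symm⟩
          rw [ht] at k1
          have ht' : g₂ (x₁ + t • d) - g₁ (x₁ + t • d) = -d := by
            rw [← neg_sub, ht]
          rw [ht'] at k2
          have c1 : Tendsto (fun t' : ℝ => t' - t) (𝓝 t) (𝓝 0) := by
            have : Continuous (fun t' : ℝ => t' - t) := by fun_prop
            have h := this.tendsto t
            simpa using h
          have c2 : Tendsto (fun t' : ℝ => t - t') (𝓝 t) (𝓝 0) := by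
            have : Continuous (fun t' : ℝ => t - t') := by fun_prop
            have h := this.tendsto t
            simpa using h
          have e1 := c1.eventually k1
          have e2 := c2.eventually k2
          refine Filter.Eventually.filter_mono nhdsWithin_le_nhds ?_
          filter_upwards [e1, e2] with s h1 h2
          right
          have a1 : x₁ + t • d + (s - t) • d = x₁ + s • d := by module
          have a2 : x₁ + t • d + (t - s) • -d = x₁ + s • d := by module
          rw [a1] at h1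
          rw [a2] at h2
          rw [h1, h2, ht]
      obtain ⟨u, hu, hsub⟩ := mem_nhdsGT_iff_exists_Ioo_subset.1 hev
      refine mem_nhdsGT_iff_exists_Ioo_subset.2 ⟨u, hu, fun t' ht' s hs => ?_⟩
      rcases le_or_gt s t with h | h
      · exact htA s ⟨hs.1, h⟩
      · exact hsub ⟨h, hs.2.trans_lt ht'.2⟩
  exact hmain (right_mem_Icc.2 hN) N ⟨hN, le_rfl⟩

theorem Pair.VV_empty (H : Pair ent R b g₁ g₂ (planes P)) : VV g₁ g₂ (planes P) = ∅ := by
  by_contra hcon
  obtain ⟨x₀, hx₀⟩ := nonempty_iff_ne_empty.2 hcon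
  obtain ⟨r, hr, hball, hloc⟩ := H.loc hx₀
  set d₀ : E3 := g₁ x₀ - g₂ x₀ with hd₀
  -- a generic point
  have hae : ∀ᵐ x : E3, ∀ p ∈ P, ∀ q ∈ P, (p.1 d₀) • q.1 - (q.1 d₀) • p.1 ≠ 0 →
      ((p.1 d₀) • q.1 - (q.1 d₀) • p.1) x ≠ p.1 d₀ * q.2 - q.1 d₀ * p.2 := by
    rw [Filter.eventually_all_finset]
    intro p hp
    rw [Filter.eventually_all_finset]
    intro q hq
    by_cases h : (p.1 d₀) • q.1 - (q.1 d₀) • p.1 = 0
    · exact Eventually.of_forall (fun x hne => absurd h hne)
    · have := volume_plane h (p.1 d₀ * q.2 - q.1 d₀ * p.2)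
      rw [ae_iff]
      refine measure_mono_null ?_ this
      intro x hx
      simp only [Classical.not_imp, not_not, mem_ofPred_eq] at hx ⊢
      exact hx.2
  obtain ⟨x₁, hgen₀, hx₁⟩ := (frequently_of_ae hae isOpen_ball (mem_ball_self hr)).exists
  have hx₁V := hball hx₁
  obtain ⟨⟨c₁, hc₁⟩, ⟨c₂, hc₂⟩⟩ := hloc x₁ hx₁
  set κ : ℝ := 1 + c₁ - c₂ with hκ
  have hd : g₁ x₁ - g₂ x₁ = κ • d₀ := by
    rw [hc₁, hc₂, hd₀, hκ]
    module
  have hκ0 : κ ≠ 0 := by
    intro h
    rw [h, zero_smul] at hd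
    exact hx₁V.2 (sub_eq_zero.1 hd)
  set d : E3 := κ • d₀ with hdd
  have hd0 : d ≠ 0 := by
    rw [← hd]
    exact sub_ne_zero.2 hx₁V.2
  have hgen : ∀ p ∈ P, ∀ q ∈ P, (p.1 d) • q.1 - (q.1 d) • p.1 ≠ 0 →
      ((p.1 d) • q.1 - (q.1 d) • p.1) x₁ ≠ p.1 d * q.2 - q.1 d * p.2 := by
    intro p hp q hq hne h
    have e : (p.1 d) • q.1 - (q.1 d) • p.1 = κ • ((p.1 d₀) • q.1 - (q.1 d₀) • p.1) := by
      rw [hdd, map_smul, map_smul, smul_eq_mul, smul_eq_mul, smul_sub, smul_smul, smul_smul]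
    rw [e] at hne h
    apply hgen₀ p hp q hq (right_ne_zero_of_smul hne)
    rw [_root_.smul_apply, smul_eq_mul, hdd, map_smul, map_smul, smul_eq_mul, smul_eq_mul] at h
    have h2 : κ * (((p.1 d₀) • q.1 - (q.1 d₀) • p.1) x₁) =
        κ * (p.1 d₀ * q.2 - q.1 d₀ * p.2) := by
      rw [h]
      ring
    exact mul_left_cancel₀ hκ0 h2
  -- a far point of the line
  obtain ⟨C, hC⟩ := H.hR.isBounded.exists_norm_le
  have hfin : {t : ℝ | x₁ + t • d ∈ planes P}.Finite := by
    have : {t : ℝ | x₁ + t • d ∈ planes P} = ⋃ p ∈ P, {t : ℝ | p.1 (x₁ + t • d) = p.2} := by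
      ext t
      simp [planes]
    rw [this]
    refine P.finite_toSet.biUnion (fun p hp => Set.Subsingleton.finite ?_)
    intro t ht t' ht'
    simp only [mem_ofPred_eq, map_add, map_smul, smul_eq_mul] at ht ht'
    by_cases hpd : p.1 d = 0
    · rw [hpd, mul_zero, add_zero] at ht
      exact absurd ⟨p, hp, ht⟩ hx₁V.1
    · have : t * p.1 d = t' * p.1 d := by linarith
      exact mul_right_cancel₀ hpd this
  obtain ⟨N, hN1, hN2⟩ : ∃ N ∈ Ioi (max 0 ((C + ‖x₁‖) / ‖d‖)), N ∉ {t : ℝ | x₁ + t • d ∈ planes P} :=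
    ((Ioi_infinite _).sdiff hfin).nonempty
  have hN0 : 0 < N := (le_max_left _ _).trans_lt hN1
  rcases H.line hx₁V hd hgen N hN0.le with h | h
  · exact hN2 h
  · have hV : x₁ + N • d ∈ VV g₁ g₂ (planes P) := by
      refine ⟨hN2, fun h' => hd0 ?_⟩
      rw [← h, h', sub_self]
    have hmem := hC _ (interior_subset (H.subset_R hV))
    have hnd : 0 < ‖d‖ := norm_pos_iff.2 hd0
    have h1 : (C + ‖x₁‖) / ‖d‖ < N := (le_max_right _ _).trans_lt hN1
    rw [div_lt_iff₀ hnd] at h1
    have h2 : ‖N • d‖ ≤ ‖x₁ + N • d‖ + ‖x₁‖ := by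
      calc ‖N • d‖ = ‖(x₁ + N • d) - x₁‖ := by rw [add_sub_cancel_left]
        _ ≤ _ := norm_sub_le _ _
    rw [norm_smul, Real.norm_eq_abs, abs_of_pos hN0] at h2
    linarith

end

/-- There is no pair of different maximizers whose difference is piecewise continuous with respect
to finitely many planes. -/
theorem main {ent : E3 → ℝ} (hent : EntLike ent) {R : Set E3} (hR : IsCompact R)
    {b : (E3 → ℝ) → ℝ} {g₁ g₂ : E3 → E3} (h₁ : IsMaximizer ent R b g₁)
    (h₂ : IsMaximizer ent R b g₂) (P : Finset ((E3 →L[ℝ] ℝ) × ℝ)) (hP : ∀ p ∈ P, p.1 ≠ 0)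
    (hc : ∀ x, (∀ p ∈ P, p.1 x ≠ p.2) → ContinuousAt (fun x => g₁ x - g₂ x) x)
    (hc1 : ∀ x, (∀ p ∈ P, p.1 x ≠ p.2) → g₁ x ≠ g₂ x → ContinuousAt g₁ x) :
    g₁ =ᵐ[volume] g₂ := by
  by_cases hpos : volume R = 0
  · have hR0 : ∀ᵐ x, x ∉ R := by
      rw [ae_iff]
      simpa using hpos
    filter_upwards [hR0, h₁.1.1.zero, h₂.1.1.zero] with x hx h1 h2
    rw [h1 hx, h2 hx]
  · have hmem : ∀ x, x ∉ planes P → ∀ p ∈ P, p.1 x ≠ p.2 := fun x hx p hp h => hx ⟨p, hp, h⟩
    have H : Pair ent R b g₁ g₂ (planes P) :=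
      ⟨hent, hR, hpos, h₁, h₂, isClosed_planes P, fun x hx => hc x (hmem x hx),
        fun x hx => hc1 x (hmem x hx)⟩
    have hV := H.VV_empty
    have hZ : ∀ᵐ x, x ∉ planes P := by
      rw [ae_iff]
      simpa using volume_planes hP
    filter_upwards [hZ] with x hx
    by_contra hne
    have : x ∈ VV g₁ g₂ (planes P) := ⟨hx, hne⟩
    rw [hV] at this
    exact this

end Run7.h895
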