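import Pool.Agent.Run7.h895.Final

namespace Run7.h895

open MeasureTheory Filter Topology Set Metric
open scoped ContDiff ENNReal

/-- `Z` is, in a ball around `z`, contained in the union of finitely many planes. -/
def LocPlanes (Z : Set E3) (z : E3) : Prop :=
  ∃ ρ : ℝ, 0 < ρ ∧ ∃ P : Finset ((E3 →L[ℝ] ℝ) × ℝ), (∀ p ∈ P, p.1 ≠ 0) ∧
    ∀ x ∈ Z ∩ ball z ρ, ∃ p ∈ P, p.1 x = p.2

/-- Cylinders over sets of two dimensional measure zero are null sets. -/
theorem volume_cylinder {N : Set E3} (hN : Measure.hausdorffMeasure 2 N = 0) {d : E3}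
    (hd : d ≠ 0) : volume {x : E3 | ∃ t : ℝ, x + t • d ∈ N} = 0 := by
  classical
  obtain ⟨k, hk⟩ : ∃ k, d k ≠ 0 := by
    by_contra hcon
    push Not at hcon
    exact hd (funext hcon)
  set L : E3 →ₗ[ℝ] ({i : Fin 3 // i ≠ k} → ℝ) :=
    { toFun := fun x i => x i - d i / d k * x k
      map_add' := by
        intro x y
        ext i
        simp only [Pi.add_apply]
        ring
      map_smul' := by
        intro c x
        ext i
        simp only [Pi.smul_apply, smul_eq_mul, RingHom.id_apply]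
        ring } with hL
  have hLx : ∀ x i, L x i = x i - d i / d k * x k := fun x i => rfl
  have hsurj : Function.Surjective L := by
    intro w
    refine ⟨fun i => if h : i ≠ k then w ⟨i, h⟩ else 0, ?_⟩
    ext i
    rw [hLx]
    have hi : (i : Fin 3) ≠ k := i.2
    simp [hi]
  have hinv : ∀ (x : E3) (t : ℝ), L (x + t • d) = L x := by
    intro x t
    ext i
    rw [hLx, hLx]
    simp only [Pi.add_apply, Pi.smul_apply, smul_eq_mul]
    field_simp
    ring
  -- the image is a null set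
  have hlip : ∃ K, LipschitzWith K L := ⟨_, (LinearMap.toContinuousLinearMap L).lipschitz⟩
  obtain ⟨K, hK⟩ := hlip
  have hcard : Fintype.card {i : Fin 3 // i ≠ k} = 2 := by
    rw [Fintype.card_subtype_compl]
    simp
  have him : volume (L '' N) = 0 := by
    rw [← hausdorffMeasure_pi_real, hcard]
    have h1 := hK.hausdorffMeasure_image_le (d := 2) (by norm_num) N
    rw [hN, mul_zero] at h1
    exact_mod_cast le_antisymm h1 bot_le
  set S := toMeasurable volume (L '' N) with hS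
  have hSm : MeasurableSet S := measurableSet_toMeasurable _ _
  have hS0 : volume S = 0 := by rw [hS, measure_toMeasurable, him]
  have h1 : ∀ᵐ y : ({i : Fin 3 // i ≠ k} → ℝ), y ∈ Sᶜ := by
    rw [ae_iff]
    simpa using hS0
  have h2 := (ae_comp_linearMap_mem_iff L (volume : Measure E3) volume hsurj hSm.compl).2 h1
  rw [ae_iff] at h2
  refine measure_mono_null ?_ h2
  rintro x ⟨t, ht⟩
  simp only [mem_compl_iff, not_not, mem_ofPred_eq]
  apply subset_toMeasurable
  rw [← hinv x t]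
  exact mem_image_of_mem L ht

/-- Near a point of the plane pieces which is not bad the set is contained in one plane. -/
theorem local_plane' {P : Finset ((E3 →L[ℝ] ℝ) × ℝ)} {x₁ d : E3} {t : ℝ}
    (hgen : ∀ p ∈ P, ∀ q ∈ P, (p.1 d) • q.1 - (q.1 d) • p.1 ≠ 0 →
      ((p.1 d) • q.1 - (q.1 d) • p.1) x₁ ≠ p.1 d * q.2 - q.1 d * p.2)
    (hgen' : ∀ p ∈ P, p.1 d = 0 → p.1 x₁ ≠ p.2)
    (ht : x₁ + t • d ∈ planes P) :
    ∃ (ρ : ℝ) (ℓ : E3 →L[ℝ] ℝ), 0 < ρ ∧ 0 < ℓ d ∧
      ∀ x ∈ ball (x₁ + t • d) ρ, ℓ x ≠ ℓ (x₁ + t • d) → x ∉ planes P := by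
  obtain ⟨p, hp, hpz⟩ := ht
  set z : E3 := x₁ + t • d with hz
  have hnz : ∀ q ∈ P, q.1 z = q.2 → q.1 d ≠ 0 := by
    intro q hq hqz h0
    apply hgen' q hq h0
    rw [hz, map_add, map_smul, h0, smul_zero, add_zero] at hqz
    exact hqz
  have hpd := hnz p hp hpz
  have hpar : ∀ q ∈ P, q.1 z = q.2 → ∀ x, q.1 (x - z) = (q.1 d / p.1 d) * p.1 (x - z) := by
    intro q hq hqz
    have h0 : (p.1 d) • q.1 - (q.1 d) • p.1 = 0 := by
      by_contra hcon
      apply hgen p hp q hq hcon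
      rw [hz, map_add, map_smul, smul_eq_mul] at hpz hqz
      simp only [_root_.sub_apply, _root_.smul_apply, smul_eq_mul]
      rw [← hpz, ← hqz]
      ring
    intro x
    have h1 : ((p.1 d) • q.1 - (q.1 d) • p.1) (x - z) = 0 := by rw [h0]; rfl
    simp only [_root_.sub_apply, _root_.smul_apply, smul_eq_mul] at h1
    field_simp
    linarith
  have hev : ∀ᶠ x in 𝓝 z, ∀ q ∈ P, q.1 z ≠ q.2 → q.1 x ≠ q.2 := by
    rw [Filter.eventually_all_finset]
    intro q hq
    by_cases h : q.1 z = q.2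
    · exact Eventually.of_forall (fun x hne => absurd h hne)
    · have := q.1.continuous.continuousAt.eventually_ne h
      filter_upwards [this] with x hx _
      exact hx
  obtain ⟨ρ, hρ, hb⟩ := Metric.eventually_nhds_iff_ball.1 hev
  have key : ∀ x ∈ ball z ρ, p.1 x ≠ p.1 z → x ∉ planes P := by
    rintro x hx hxz ⟨q, hq, hqx⟩
    by_cases h : q.1 z = q.2
    · have h1 := hpar q hq h x
      rw [map_sub, hqx, h, sub_self] at h1
      have h2 : p.1 (x - z) ≠ 0 := by rw [map_sub, sub_ne_zero]; exact hxz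
      exact (mul_ne_zero (div_ne_zero (hnz q hq h) hpd) h2) h1.symm
    · exact hb x hx q hq h hqx
  rcases lt_or_gt_of_ne hpd with h | h
  · refine ⟨ρ, -p.1, hρ, by rw [_root_.neg_apply]; linarith, fun x hx hxz => key x hx ?_⟩
    simpa using hxz
  · exact ⟨ρ, p.1, hρ, h, key⟩

/-- `Z` is, in a ball around `z`, contained in one plane, transversal to `d`. -/
def OnePlane (Z : Set E3) (d z : E3) : Prop :=
  ∃ (ρ : ℝ) (ℓ : E3 →L[ℝ] ℝ), 0 < ρ ∧ 0 < ℓ d ∧ ∀ x ∈ ball z ρ, ℓ x ≠ ℓ z → x ∉ Z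

/-- Countably many families of planes. -/
theorem exists_countable_planes (Z : Set E3) : ∃ (I : Type) (_ : Countable I)
    (U : I → Set E3) (P : I → Finset ((E3 →L[ℝ] ℝ) × ℝ)), (∀ i, IsOpen (U i)) ∧
      (∀ i, ∀ p ∈ P i, p.1 ≠ 0) ∧ (∀ i, ∀ x ∈ Z ∩ U i, x ∈ planes (P i)) ∧
      ∀ z ∈ Z, LocPlanes Z z → ∃ i, z ∈ U i := by
  classical
  set J := {z : E3 // z ∈ Z ∧ LocPlanes Z z} with hJ
  choose ρ hρ P hP0 hP using fun z : J => z.2.2
  obtain ⟨T, hT, hTe⟩ := TopologicalSpace.isOpen_iUnion_countable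
    (fun z : J => ball (z : E3) (ρ z)) (fun _ => isOpen_ball)
  refine ⟨T, hT.to_subtype, fun i => ball ((i : J) : E3) (ρ i), fun i => P i,
    fun _ => isOpen_ball, fun i p hp => hP0 _ p hp, fun i x hx => hP _ x hx, fun z hz hloc => ?_⟩
  have h1 : z ∈ ⋃ z : J, ball (z : E3) (ρ z) :=
    mem_iUnion.2 ⟨⟨z, hz, hloc⟩, mem_ball_self (hρ _)⟩
  rw [← hTe] at h1
  simp only [mem_iUnion, exists_prop] at h1
  obtain ⟨w, hw, hzw⟩ := h1
  exact ⟨⟨w, hw⟩, hzw⟩

theorem volume_sing {Z : Set E3} (hN : Measure.hausdorffMeasure 2 {z ∈ Z | ¬ LocPlanes Z z} = 0) :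
    volume Z = 0 := by
  obtain ⟨I, hI, U, P, hU, hP0, hP, hcov⟩ := exists_countable_planes Z
  have h1 : volume {z ∈ Z | ¬ LocPlanes Z z} = 0 := by
    refine measure_mono_null ?_ (volume_cylinder hN (d := fun _ => 1) (by
      intro h
      have := congrFun h 0
      simp at this))
    intro x hx
    exact ⟨0, by simpa using hx⟩
  have h2 : volume (⋃ i, planes (P i)) = 0 :=
    measure_iUnion_null (fun i => volume_planes (hP0 i))
  refine measure_mono_null ?_ (measure_union_null h1 h2)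
  intro z hz
  by_cases h : LocPlanes Z z
  · obtain ⟨i, hi⟩ := hcov z hz h
    exact Or.inr (mem_iUnion.2 ⟨i, hP i z ⟨hz, hi⟩⟩)
  · exact Or.inl ⟨hz, h⟩

/-- The generic line meets `Z` only at points near which `Z` is contained in one plane. -/
theorem generic_line {Z : Set E3}
    (hN : Measure.hausdorffMeasure 2 {z ∈ Z | ¬ LocPlanes Z z} = 0) {d : E3} (hd : d ≠ 0) :
    ∀ᵐ x : E3, ∀ t : ℝ, x + t • d ∈ Z → OnePlane Z d (x + t • d) := by
  obtain ⟨I, hI, U, P, hU, hP0, hP, hcov⟩ := exists_countable_planes Z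
  have h1 : ∀ᵐ x : E3, ¬ ∃ t : ℝ, x + t • d ∈ {z ∈ Z | ¬ LocPlanes Z z} := by
    rw [ae_iff]
    simpa using volume_cylinder hN hd
  have h2 : ∀ᵐ x : E3, ∀ i, ∀ p ∈ P i, ∀ q ∈ P i, (p.1 d) • q.1 - (q.1 d) • p.1 ≠ 0 →
      ((p.1 d) • q.1 - (q.1 d) • p.1) x ≠ p.1 d * q.2 - q.1 d * p.2 := by
    rw [ae_all_iff]
    intro i
    rw [Filter.eventually_all_finset]
    intro p hp
    rw [Filter.eventually_all_finset]
    intro q hq
    by_cases h : (p.1 d) • q.1 - (q.1 d) • p.1 = 0
    · exact Eventually.of_forall (fun x hne => absurd h hne)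
    · have := volume_plane h (p.1 d * q.2 - q.1 d * p.2)
      rw [ae_iff]
      refine measure_mono_null ?_ this
      intro x hx
      simp only [Classical.not_imp, not_not, mem_ofPred_eq] at hx ⊢
      exact hx.2
  have h3 : ∀ᵐ x : E3, ∀ i, ∀ p ∈ P i, p.1 d = 0 → p.1 x ≠ p.2 := by
    rw [ae_all_iff]
    intro i
    rw [Filter.eventually_all_finset]
    intro p hp
    have := volume_plane (hP0 i p hp) p.2
    rw [ae_iff]
    refine measure_mono_null ?_ this
    intro x hx
    simp only [Classical.not_imp, not_not, mem_ofPred_eq] at hx ⊢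
    exact hx.2
  filter_upwards [h1, h2, h3] with x hx1 hx2 hx3 t ht
  have hloc : LocPlanes Z (x + t • d) := by
    by_contra hcon
    exact hx1 ⟨t, ht, hcon⟩
  obtain ⟨i, hi⟩ := hcov _ ht hloc
  obtain ⟨ρ, ℓ, hρ, hℓ, hb⟩ := local_plane' (hx2 i) (hx3 i) (hP i _ ⟨ht, hi⟩)
  obtain ⟨ρ', hρ', hb'⟩ := Metric.isOpen_iff.1 (hU i) _ hi
  refine ⟨min ρ ρ', ℓ, lt_min hρ hρ', hℓ, fun w hw hwz hwZ => ?_⟩
  exact hb w (ball_subset_ball (min_le_left _ _) hw) hwz
    (hP i w ⟨hwZ, hb' (ball_subset_ball (min_le_right _ _) hw)⟩)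

theorem OnePlane.smul {Z : Set E3} {d z : E3} (h : OnePlane Z d z) {κ : ℝ} (hκ : κ ≠ 0) :
    OnePlane Z (κ • d) z := by
  obtain ⟨ρ, ℓ, hρ, hℓ, hb⟩ := h
  rcases lt_or_gt_of_ne hκ with h | h
  · refine ⟨ρ, -ℓ, hρ, ?_, fun x hx hxz => hb x hx ?_⟩
    · rw [_root_.neg_apply, map_smul, smul_eq_mul]
      nlinarith
    · simpa using hxz
  · refine ⟨ρ, ℓ, hρ, ?_, hb⟩
    rw [map_smul, smul_eq_mul]
    positivity

section

variable {ent : E3 → ℝ} {R : Set E3} {b : (E3 → ℝ) → ℝ} {g₁ g₂ : E3 → E3} {Z : Set E3}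

/-- Along a generic line the difference is constant. -/
theorem Pair.line' (H : Pair ent R b g₁ g₂ Z) {x₁ d : E3} (hx₁ : x₁ ∈ VV g₁ g₂ Z)
    (hd : g₁ x₁ - g₂ x₁ = d) (hgen : ∀ t : ℝ, x₁ + t • d ∈ Z → OnePlane Z d (x₁ + t • d))
    (N : ℝ) (hN : 0 ≤ N) :
    x₁ + N • d ∈ Z ∨ g₁ (x₁ + N • d) - g₂ (x₁ + N • d) = d := by
  have hd0 : d ≠ 0 := by
    rw [← hd]
    exact sub_ne_zero.2 hx₁.2
  set Q : ℝ → Prop := fun s => x₁ + s • d ∈ Z ∨ g₁ (x₁ + s • d) - g₂ (x₁ + s • d) = d
    with hQ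
  set A : Set ℝ := {t | ∀ s ∈ Icc (0 : ℝ) t, Q s} with hA
  have hcl : ∀ t : ℝ, Tendsto (fun s : ℝ => x₁ + s • d) (𝓝 t) (𝓝 (x₁ + t • d)) := by
    intro t
    have : Continuous (fun s : ℝ => x₁ + s • d) := by fun_prop
    exact this.tendsto t
  have hmain : Icc (0 : ℝ) N ⊆ A := by
    refine IsClosed.Icc_subset_of_forall_mem_nhdsWithin ?_ ?_ ?_
    · refine isClosed_of_closure_subset (fun t ht => ?_)
      obtain ⟨u, hu, hut⟩ := mem_closure_iff_seq_limit.1 ht
      have htI : t ∈ Icc (0 : ℝ) N := isClosed_Icc.mem_of_tendsto hut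
        (Eventually.of_forall (fun n => (hu n).2))
      refine ⟨fun s hs => ?_, htI⟩
      rcases hs.2.lt_or_eq with h | h
      · obtain ⟨n, hn⟩ := (hut.eventually (lt_mem_nhds h)).exists
        exact (hu n).1 s ⟨hs.1, hn.le⟩
      · subst h
        by_cases hZ : x₁ + s • d ∈ Z
        · exact Or.inl hZ
        · right
          have h1 : Tendsto (fun n => g₁ (x₁ + u n • d) - g₂ (x₁ + u n • d)) atTop
              (𝓝 (g₁ (x₁ + s • d) - g₂ (x₁ + s • d))) :=
            (H.hc _ hZ).tendsto.comp ((hcl s).comp hut)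
          have h2 : ∀ᶠ n in atTop, x₁ + u n • d ∉ Z :=
            ((hcl s).comp hut).eventually (H.hZ.isOpen_compl.mem_nhds hZ)
          refine tendsto_nhds_unique h1 ?_
          refine tendsto_const_nhds.congr' ?_
          filter_upwards [h2] with n hn
          rcases (hu n).1 (u n) ⟨(hu n).2.1, le_rfl⟩ with h3 | h3
          · exact absurd h3 hn
          · exact h3.symm
    · intro s hs
      have : s = 0 := le_antisymm hs.2 hs.1
      subst this
      right
      simpa using hd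
    · rintro t ⟨htA, htI⟩
      have hev : ∀ᶠ s in 𝓝[>] t, Q s := by
        by_cases hZ : x₁ + t • d ∈ Z
        · -- crossing
          have ht0 : 0 < t := by
            rcases htI.1.eq_or_lt with h | h
            · rw [← h, zero_smul, add_zero] at hZ
              exact absurd hZ hx₁.1
            · exact h
          obtain ⟨ρ, ℓ, hρ, hℓd, hloc⟩ := hgen t hZ
          obtain ⟨σ, hσ0, hσt, hσ⟩ : ∃ σ : ℝ, 0 < σ ∧ σ < t ∧ ‖σ • d‖ < ρ := by
            refine ⟨min (t / 2) (ρ / (2 * (1 + ‖d‖))), by positivity, ?_, ?_⟩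
            · exact (min_le_left _ _).trans_lt (by linarith)
            · rw [norm_smul, Real.norm_eq_abs, abs_of_pos (by positivity)]
              have h1 : min (t / 2) (ρ / (2 * (1 + ‖d‖))) * ‖d‖ ≤ ρ / (2 * (1 + ‖d‖)) * ‖d‖ :=
                mul_le_mul_of_nonneg_right (min_le_right _ _) (norm_nonneg _)
              refine h1.trans_lt ?_
              rw [div_mul_eq_mul_div, div_lt_iff₀ (by positivity)]
              have : 0 ≤ ‖d‖ := norm_nonneg d
              nlinarith
          have e1 : x₁ + t • d = x₁ + (t - σ) • d + σ • d := by module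
          have hy : x₁ + (t - σ) • d ∈ ball (x₁ + t • d) ρ := by
            rw [mem_ball, dist_eq_norm]
            have : x₁ + (t - σ) • d - (x₁ + t • d) = -(σ • d) := by module
            rw [this, norm_neg]
            exact hσ
          have hyZ : x₁ + (t - σ) • d ∉ Z := by
            apply hloc _ hy
            rw [map_add, map_add, map_smul, map_smul, smul_eq_mul, smul_eq_mul]
            have := mul_pos hσ0 hℓd
            intro h
            nlinarith
          have hyd : g₁ (x₁ + (t - σ) • d) - g₂ (x₁ + (t - σ) • d) = d := by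
            rcases htA (t - σ) ⟨by linarith, by linarith⟩ with h | h
            · exact absurd h hyZ
            · exact h
          have hcr := H.crossing hρ hloc hy hyd hℓd hσ0 e1
          have hsh : Tendsto (fun s : ℝ => s - t) (𝓝[>] t) (𝓝[>] 0) := by
            refine tendsto_nhdsWithin_iff.2 ⟨?_, ?_⟩
            · have : Continuous (fun s : ℝ => s - t) := by fun_prop
              have h := this.tendsto t
              rw [sub_self] at h
              exact h.mono_left nhdsWithin_le_nhds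
            · filter_upwards [self_mem_nhdsWithin] with s hs
              have hs' : t < s := hs
              exact sub_pos.2 hs'
          filter_upwards [hsh.eventually hcr] with s hs
          right
          have e2 : x₁ + t • d + (s - t) • d = x₁ + s • d := by module
          rwa [e2] at hs
        · -- inside
          have ht : g₁ (x₁ + t • d) - g₂ (x₁ + t • d) = d := by
            rcases htA t ⟨htI.1, le_rfl⟩ with h | h
            · exact absurd h hZ
            · exact h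
          have hV : x₁ + t • d ∈ VV g₁ g₂ Z := by
            refine ⟨hZ, fun h => hd0 ?_⟩
            rw [← ht, h, sub_self]
          have k1 := H.local_const hV
          have k2 := H.symm.local_const (x₀ := x₁ + t • d) ⟨hV.1, hV.2.symm⟩
          rw [ht] at k1
          have ht' : g₂ (x₁ + t • d) - g₁ (x₁ + t • d) = -d := by
            rw [← neg_sub, ht]
          rw [ht'] at k2
          have c1 : Tendsto (fun t' : ℝ => t' - t) (𝓝 t) (𝓝 0) := by
            have : Continuous (fun t' : ℝ => t' - t) := by fun_prop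
            have h := this.tendsto t
            simpa using h
          have c2 : Tendsto (fun t' : ℝ => t - t') (𝓝 t) (𝓝 0) := by
            have : Continuous (fun t' : ℝ => t - t') := by fun_prop
            have h := this.tendsto t
            simpa using h
          have e1 := c1.eventually k1
          have e2 := c2.eventually k2
          refine Filter.Eventually.filter_mono nhdsWithin_le_nhds ?_
          filter_upwards [e1, e2] with s h1 h2
          right
          have a1 : x₁ + t • d + (s - t) • d = x₁ + s • d := by module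
          have a2 : x₁ + t • d + (t - s) • -d = x₁ + s • d := by module
          rw [a1] at h1
          rw [a2] at h2
          rw [h1, h2, ht]
      obtain ⟨u, hu, hsub⟩ := mem_nhdsGT_iff_exists_Ioo_subset.1 hev
      refine mem_nhdsGT_iff_exists_Ioo_subset.2 ⟨u, hu, fun t' ht' s hs => ?_⟩
      rcases le_or_gt s t with h | h
      · exact htA s ⟨hs.1, h⟩
      · exact hsub ⟨h, hs.2.trans_lt ht'.2⟩
  exact hmain (right_mem_Icc.2 hN) N ⟨hN, le_rfl⟩

theorem Pair.VV_empty' (H : Pair ent R b g₁ g₂ Z)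
    (hN : Measure.hausdorffMeasure 2 {z ∈ Z | ¬ LocPlanes Z z} = 0) : VV g₁ g₂ Z = ∅ := by
  by_contra hcon
  obtain ⟨x₀, hx₀⟩ := nonempty_iff_ne_empty.2 hcon
  obtain ⟨r, hr, hball, hloc⟩ := H.loc hx₀
  set d₀ : E3 := g₁ x₀ - g₂ x₀ with hd₀
  have hd₀0 : d₀ ≠ 0 := sub_ne_zero.2 hx₀.2
  -- a generic point
  obtain ⟨x₁, hgen₀, hx₁⟩ := (frequently_of_ae (generic_line hN hd₀0) isOpen_ball
    (mem_ball_self hr)).exists
  have hx₁V := hball hx₁
  obtain ⟨⟨c₁, hc₁⟩, ⟨c₂, hc₂⟩⟩ := hloc x₁ hx₁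
  set κ : ℝ := 1 + c₁ - c₂ with hκ
  have hd : g₁ x₁ - g₂ x₁ = κ • d₀ := by
    rw [hc₁, hc₂, hd₀, hκ]
    module
  have hκ0 : κ ≠ 0 := by
    intro h
    rw [h, zero_smul] at hd
    exact hx₁V.2 (sub_eq_zero.1 hd)
  set d : E3 := κ • d₀ with hdd
  have hd0 : d ≠ 0 := by
    rw [← hd]
    exact sub_ne_zero.2 hx₁V.2
  have hgen : ∀ t : ℝ, x₁ + t • d ∈ Z → OnePlane Z d (x₁ + t • d) := by
    intro t ht
    have e : x₁ + t • d = x₁ + (t * κ) • d₀ := by rw [hdd, smul_smul]
    rw [e] at ht ⊢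
    rw [hdd]
    exact (hgen₀ _ ht).smul hκ0
  -- a far point of the line
  obtain ⟨C, hC⟩ := H.hR.isBounded.exists_norm_le
  obtain ⟨N, hN1, hN2⟩ : ∃ N, max 0 ((C + ‖x₁‖) / ‖d‖) < N ∧ x₁ + N • d ∉ Z := by
    set M := max 0 ((C + ‖x₁‖) / ‖d‖) with hM
    by_cases h : x₁ + (M + 1) • d ∈ Z
    · obtain ⟨ρ, ℓ, hρ, hℓ, hb⟩ := hgen _ h
      refine ⟨M + 1 + ρ / (2 * (1 + ‖d‖)), ?_, ?_⟩
      · have : 0 < ρ / (2 * (1 + ‖d‖)) := by positivity
        linarith
      · have hs : 0 < ρ / (2 * (1 + ‖d‖)) := by positivity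
        apply hb
        · rw [mem_ball, dist_eq_norm]
          have e : x₁ + (M + 1 + ρ / (2 * (1 + ‖d‖))) • d - (x₁ + (M + 1) • d) =
              (ρ / (2 * (1 + ‖d‖))) • d := by module
          rw [e, norm_smul, Real.norm_eq_abs, abs_of_pos hs, div_mul_eq_mul_div,
            div_lt_iff₀ (by positivity)]
          have : 0 ≤ ‖d‖ := norm_nonneg d
          nlinarith
        · have e : x₁ + (M + 1 + ρ / (2 * (1 + ‖d‖))) • d =
              x₁ + (M + 1) • d + (ρ / (2 * (1 + ‖d‖))) • d := by module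
          have e2 : ℓ ((ρ / (2 * (1 + ‖d‖))) • d) = ρ / (2 * (1 + ‖d‖)) * ℓ d := ℓ.map_smul _ _
          rw [e, map_add ℓ (x₁ + (M + 1) • d), e2]
          have := mul_pos hs hℓ
          intro h
          linarith
    · exact ⟨M + 1, by linarith, h⟩
  have hN0 : 0 < N := (le_max_left _ _).trans_lt hN1
  rcases H.line' hx₁V hd hgen N hN0.le with h | h
  · exact hN2 h
  · have hV : x₁ + N • d ∈ VV g₁ g₂ Z := by
      refine ⟨hN2, fun h' => hd0 ?_⟩
      rw [← h, h', sub_self]
    have hmem := hC _ (interior_subset (H.subset_R hV))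
    have hnd : 0 < ‖d‖ := norm_pos_iff.2 hd0
    have h1 : (C + ‖x₁‖) / ‖d‖ < N := (le_max_right _ _).trans_lt hN1
    rw [div_lt_iff₀ hnd] at h1
    have h2 : ‖N • d‖ ≤ ‖x₁ + N • d‖ + ‖x₁‖ := by
      calc ‖N • d‖ = ‖(x₁ + N • d) - x₁‖ := by rw [add_sub_cancel_left]
        _ ≤ _ := norm_sub_le _ _
    rw [norm_smul, Real.norm_eq_abs, abs_of_pos hN0] at h2
    linarith

end

/-- Two different maximizers are not piecewise continuous. -/
theorem main' {ent : E3 → ℝ} (hent : EntLike ent) {R : Set E3} (hR : IsCompact R)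
    {b : (E3 → ℝ) → ℝ} {g₁ g₂ : E3 → E3} (h₁ : IsMaximizer ent R b g₁)
    (h₂ : IsMaximizer ent R b g₂) {Z : Set E3} (hZ : IsClosed Z)
    (hN : Measure.hausdorffMeasure 2 {z ∈ Z | ¬ LocPlanes Z z} = 0)
    (hc : ∀ x, x ∉ Z → ContinuousAt (fun x => g₁ x - g₂ x) x)
    (hc1 : ∀ x, x ∉ Z → g₁ x ≠ g₂ x → ContinuousAt g₁ x) : g₁ =ᵐ[volume] g₂ := by
  by_cases hpos : volume R = 0
  · have hR0 : ∀ᵐ x, x ∉ R := by
      rw [ae_iff]
      simpa using hpos
    filter_upwards [hR0, h₁.1.1.zero, h₂.1.1.zero] with x hx h1 h2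
    rw [h1 hx, h2 hx]
  · have H : Pair ent R b g₁ g₂ Z := ⟨hent, hR, hpos, h₁, h₂, hZ, hc, hc1⟩
    have hV := H.VV_empty' hN
    have hZ0 : ∀ᵐ x, x ∉ Z := by
      rw [ae_iff]
      simpa using volume_sing hN
    filter_upwards [hZ0] with x hx
    by_contra hne
    have : x ∈ VV g₁ g₂ Z := ⟨hx, hne⟩
    rw [hV] at this
    exact this

end Run7.h895
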