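import Pool.Agent.Run7.h895.Comp

namespace Run7.h895

open MeasureTheory Filter Topology Set Metric
open scoped ContDiff

/-- The midpoint of two points. -/
noncomputable def mp (s t : E3) : E3 := (1 / 2 : ℝ) • s + (1 / 2 : ℝ) • t

theorem mid_apply (g₁ g₂ : E3 → E3) (x : E3) : mid g₁ g₂ x = mp (g₁ x) (g₂ x) := rfl

theorem combo_mem_Oct {s t : E3} (hs : s ∈ Oct) (ht : t ∈ Oct) {c : ℝ} (hc : |c| ≤ 1 / 2) :
    mp s t + c • (s - t) ∈ Oct := by
  have h := abs_le.1 hc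
  have := convex_Oct hs ht (show 0 ≤ 1 / 2 + c by linarith) (show 0 ≤ 1 / 2 - c by linarith)
    (by ring)
  convert this using 1
  unfold mp
  module

/-- On an edge segment with the midpoint property the entropy is affine. -/
theorem ent_affine {ent : E3 → ℝ} (hent : EntLike ent) {s t : E3} (hs : s ∈ Oct) (ht : t ∈ Oct)
    (hm : ent (mp s t) = (1 / 2) * ent s + (1 / 2) * ent t) {c : ℝ} (hc : |c| ≤ 1 / 2) :
    ent (mp s t + c • (s - t)) = ent (mp s t) + c * (ent s - ent t) := by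
  have lower : ∀ c : ℝ, |c| ≤ 1 / 2 →
      ent (mp s t) + c * (ent s - ent t) ≤ ent (mp s t + c • (s - t)) := by
    intro c hc
    have h := abs_le.1 hc
    have h1 := hent.conc.2 hs ht (show 0 ≤ 1 / 2 + c by linarith)
      (show 0 ≤ 1 / 2 - c by linarith) (by ring)
    have e : (1 / 2 + c) • s + (1 / 2 - c) • t = mp s t + c • (s - t) := by
      unfold mp
      module
    rw [e] at h1
    simp only [smul_eq_mul] at h1
    rw [hm]
    linarith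
  have l1 := lower c hc
  have l2 := lower (-c) (by rwa [abs_neg])
  have h3 := hent.conc.2 (combo_mem_Oct hs ht hc)
    (combo_mem_Oct hs ht (c := -c) (by rwa [abs_neg])) (show (0 : ℝ) ≤ 1 / 2 by norm_num)
    (show (0 : ℝ) ≤ 1 / 2 by norm_num) (by norm_num)
  have e : (1 / 2 : ℝ) • (mp s t + c • (s - t)) + (1 / 2 : ℝ) • (mp s t + (-c) • (s - t)) =
      mp s t := by
    module
  rw [e] at h3
  simp only [smul_eq_mul] at h3
  linarith

theorem combo_mem_edgeFace {i j : Fin 3} {a b : ℝ} {s t : E3} (hs : s ∈ edgeFace i j a b)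
    (ht : t ∈ edgeFace i j a b) {c : ℝ} (hc : |c| ≤ 1 / 2) :
    mp s t + c • (s - t) ∈ edgeFace i j a b := by
  refine ⟨combo_mem_Oct hs.1 ht.1 hc, ?_⟩
  have h1 := hs.2
  have h2 := ht.2
  unfold mp
  simp only [Pi.add_apply, Pi.smul_apply, Pi.sub_apply, smul_eq_mul]
  linear_combination (1 / 2 + c) * h1 + (1 / 2 - c) * h2

/-- The four points do not lie on a common edge. -/
def NoEdge (P₁ P₂ Q₁ Q₂ : E3) : Prop := ∀ (i j : Fin 3) (a b : ℝ), i ≠ j → (a = 1 ∨ a = -1) →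
  (b = 1 ∨ b = -1) → P₁ ∈ edgeFace i j a b → P₂ ∈ edgeFace i j a b → Q₁ ∈ edgeFace i j a b →
  Q₂ ∈ edgeFace i j a b → False

theorem NoEdge.symm {P₁ P₂ Q₁ Q₂ : E3} (h : NoEdge P₁ P₂ Q₁ Q₂) : NoEdge Q₁ Q₂ P₁ P₂ :=
  fun i j a b hij ha hb h1 h2 h3 h4 => h i j a b hij ha hb h3 h4 h1 h2

theorem OnEdge.mem_left {s t : E3} (h : OnEdge s t) : s ∈ Oct := by
  obtain ⟨i, j, a, b, _, _, _, hs, _⟩ := onEdge_iff.1 h
  exact hs.1

theorem OnEdge.mem_right {s t : E3} (h : OnEdge s t) : t ∈ Oct := by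
  obtain ⟨i, j, a, b, _, _, _, _, ht⟩ := onEdge_iff.1 h
  exact ht.1

/-- The pointwise estimate. -/
theorem pointwise {ent : E3 → ℝ} (hent : EntLike ent) {P₁ P₂ Q₁ Q₂ : E3} (hP : OnEdge P₁ P₂)
    (hQ : OnEdge Q₁ Q₂) (hPm : ent (mp P₁ P₂) = (1 / 2) * ent P₁ + (1 / 2) * ent P₂)
    (hno : NoEdge P₁ P₂ Q₁ Q₂) {A B μ : ℝ} (hA0 : 0 ≤ A) (hA : A ≤ 1 / 8) (hB : |B| ≤ 1 / 8)
    (hμ : |μ| ≤ 1 / 8) :
    (mp P₁ P₂ + μ • (P₁ - P₂) - A • (mp P₁ P₂ - mp Q₁ Q₂) + B • (P₁ - P₂) ∈ Oct) ∧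
    (A * (ent (mp Q₁ Q₂) - ent (mp P₁ P₂)) + B * (ent P₁ - ent P₂) ≤
      ent (mp P₁ P₂ + μ • (P₁ - P₂) - A • (mp P₁ P₂ - mp Q₁ Q₂) + B • (P₁ - P₂)) -
        ent (mp P₁ P₂ + μ • (P₁ - P₂))) ∧
    (0 < A → A * (ent (mp Q₁ Q₂) - ent (mp P₁ P₂)) + B * (ent P₁ - ent P₂) <
      ent (mp P₁ P₂ + μ • (P₁ - P₂) - A • (mp P₁ P₂ - mp Q₁ Q₂) + B • (P₁ - P₂)) -
        ent (mp P₁ P₂ + μ • (P₁ - P₂))) := by
  have hP1 := hP.mem_left
  have hP2 := hP.mem_right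
  have hQ1 := hQ.mem_left
  have hQ2 := hQ.mem_right
  have hA1 : (7 / 8 : ℝ) ≤ 1 - A := by linarith
  have hA1' : 0 < 1 - A := by linarith
  set τ := (μ + B) / (1 - A) with hτ
  have hτ1 : |τ| < 1 / 2 := by
    rw [hτ, abs_div, abs_of_pos hA1', div_lt_iff₀ hA1']
    calc |μ + B| ≤ |μ| + |B| := abs_add_le _ _
      _ ≤ 1 / 8 + 1 / 8 := add_le_add hμ hB
      _ < 1 / 2 * (7 / 8) := by norm_num
      _ ≤ 1 / 2 * (1 - A) := by linarith
  have hτ2 : (1 - A) * τ = μ + B := by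
    rw [hτ, mul_div_cancel₀ _ hA1'.ne']
  have hw : mp P₁ P₂ + μ • (P₁ - P₂) - A • (mp P₁ P₂ - mp Q₁ Q₂) + B • (P₁ - P₂) =
      (1 - A) • (mp P₁ P₂ + τ • (P₁ - P₂)) + A • mp Q₁ Q₂ := by
    rw [smul_add, smul_smul, hτ2]
    module
  have hs : mp P₁ P₂ + τ • (P₁ - P₂) ∈ Oct := combo_mem_Oct hP1 hP2 hτ1.le
  have hQm : mp Q₁ Q₂ ∈ Oct := by
    have := combo_mem_Oct hQ1 hQ2 (c := 0) (by norm_num)
    rwa [zero_smul, add_zero] at this
  have hsum : (1 - A) + A = 1 := by ring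
  have e1 : ent (mp P₁ P₂ + τ • (P₁ - P₂)) = ent (mp P₁ P₂) + τ * (ent P₁ - ent P₂) :=
    ent_affine hent hP1 hP2 hPm hτ1.le
  have e2 : ent (mp P₁ P₂ + μ • (P₁ - P₂)) = ent (mp P₁ P₂) + μ * (ent P₁ - ent P₂) :=
    ent_affine hent hP1 hP2 hPm (hμ.trans (by norm_num))
  rw [hw]
  refine ⟨convex_Oct hs hQm hA1'.le hA0 hsum, ?_, ?_⟩
  · have h1 := hent.conc.2 hs hQm hA1'.le hA0 hsum
    simp only [smul_eq_mul] at h1
    rw [e1] at h1
    rw [e2]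
    have : (1 - A) * (ent (mp P₁ P₂) + τ * (ent P₁ - ent P₂)) =
        (1 - A) * ent (mp P₁ P₂) + (μ + B) * (ent P₁ - ent P₂) := by
      rw [← hτ2]
      ring
    rw [this] at h1
    linarith
  · intro hApos
    have hin : ∀ (i j : Fin 3) (a b : ℝ), i ≠ j → (a = 1 ∨ a = -1) → (b = 1 ∨ b = -1) →
        mp P₁ P₂ + τ • (P₁ - P₂) ∈ edgeFace i j a b → P₁ ∈ edgeFace i j a b ∧
          P₂ ∈ edgeFace i j a b := by
      intro i j a b hij ha hb h
      have h' := abs_lt.1 hτ1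
      refine edge_extreme hij ha hb hP1 hP2 (p := 1 / 2 + τ) (q := 1 / 2 - τ) (by linarith)
        (by linarith) (by ring) ?_
      convert h using 1
      unfold mp
      module
    have hin2 : ∀ (i j : Fin 3) (a b : ℝ), i ≠ j → (a = 1 ∨ a = -1) → (b = 1 ∨ b = -1) →
        mp Q₁ Q₂ ∈ edgeFace i j a b → Q₁ ∈ edgeFace i j a b ∧ Q₂ ∈ edgeFace i j a b := by
      intro i j a b hij ha hb h
      exact edge_extreme hij ha hb hQ1 hQ2 (by norm_num) (by norm_num) (by norm_num) h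
    have hnE : ¬ OnEdge (mp P₁ P₂ + τ • (P₁ - P₂)) (mp Q₁ Q₂) := by
      intro h
      obtain ⟨i, j, a, b, hij, ha, hb, h1, h2⟩ := onEdge_iff.1 h
      exact hno i j a b hij ha hb (hin i j a b hij ha hb h1).1 (hin i j a b hij ha hb h1).2
        (hin2 i j a b hij ha hb h2).1 (hin2 i j a b hij ha hb h2).2
    have hne : mp P₁ P₂ + τ • (P₁ - P₂) ≠ mp Q₁ Q₂ := by
      intro h
      obtain ⟨i, j, a, b, hij, ha, hb, h1, h2⟩ := onEdge_iff.1 hP
      have h3 := combo_mem_edgeFace h1 h2 hτ1.le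
      rw [h] at h3
      exact hno i j a b hij ha hb h1 h2 (hin2 i j a b hij ha hb h3).1
        (hin2 i j a b hij ha hb h3).2
    have h1 := hent.strict _ hs _ hQm hne hnE (1 - A) A hA1' hApos hsum
    rw [e1] at h1
    rw [e2]
    have : (1 - A) * (ent (mp P₁ P₂) + τ * (ent P₁ - ent P₂)) =
        (1 - A) * ent (mp P₁ P₂) + (μ + B) * (ent P₁ - ent P₂) := by
      rw [← hτ2]
      ring
    rw [this] at h1
    linarith

theorem divP_add_smul {g w : E3 → E3} {ζ : E3 → ℝ}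
    (hg : Integrable (fun x => fderiv ℝ ζ x (g x))) (hw : Integrable (fun x => fderiv ℝ ζ x (w x)))
    (ε : ℝ) : divP (fun x => g x + ε • w x) ζ = divP g ζ + ε * divP w ζ := by
  unfold divP
  have : ∀ x, fderiv ℝ ζ x (g x + ε • w x) = fderiv ℝ ζ x (g x) + ε * fderiv ℝ ζ x (w x) := by
    intro x
    rw [map_add, map_smul, smul_eq_mul]
  simp only [this]
  rw [integral_add hg (hw.const_mul ε), integral_const_mul]
  ring

/-- Two edge segments of different directions cannot meet along a plane. -/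
theorem flex {ent : E3 → ℝ} (hent : EntLike ent) {R : Set E3} (hR : IsCompact R)
    {b : (E3 → ℝ) → ℝ} {gm : E3 → E3} (hgm : gm ∈ AF R b)
    (hmax : ∀ g' ∈ AF R b, ∫ x in R, ent (g' x) ≤ ∫ x in R, ent (gm x))
    {z : E3} {ρ : ℝ} (hρ : 0 < ρ) (hball : ball z ρ ⊆ interior R) {ℓ : E3 →L[ℝ] ℝ}
    {P₁ P₂ Q₁ Q₂ : E3} (hP : OnEdge P₁ P₂) (hQ : OnEdge Q₁ Q₂)
    (hPm : ent (mp P₁ P₂) = (1 / 2) * ent P₁ + (1 / 2) * ent P₂)
    (hQm : ent (mp Q₁ Q₂) = (1 / 2) * ent Q₁ + (1 / 2) * ent Q₂)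
    (hno : NoEdge P₁ P₂ Q₁ Q₂) (hne : ℓ (P₁ - P₂) ≠ 0) (hd : ℓ (P₁ - P₂) = ℓ (Q₁ - Q₂))
    (hm : ℓ (mp P₁ P₂) = ℓ (mp Q₁ Q₂))
    (hleft : ∀ x ∈ ball z ρ, ℓ x < ℓ z → ∃ μ : ℝ, |μ| ≤ 1 / 8 ∧
      gm x = mp P₁ P₂ + μ • (P₁ - P₂))
    (hright : ∀ x ∈ ball z ρ, ℓ z < ℓ x → ∃ μ : ℝ, |μ| ≤ 1 / 8 ∧
      gm x = mp Q₁ Q₂ + μ • (Q₁ - Q₂)) : False := by
  have hℓ : ℓ ≠ 0 := by
    rintro rfl
    exact hne rfl
  set S := ℓ (P₁ - P₂) with hS
  set d : E3 := S⁻¹ • (P₁ - P₂) with hdd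
  set e : E3 := S⁻¹ • (Q₁ - Q₂) with hee
  have hd1 : ℓ d = 1 := by
    rw [hdd, map_smul, smul_eq_mul, ← hS, inv_mul_cancel₀ hne]
  have he1 : ℓ e = 1 := by
    rw [hee, map_smul, smul_eq_mul, ← hd, inv_mul_cancel₀ hne]
  set y : E3 := mp P₁ P₂ - mp Q₁ Q₂ with hyy
  have hy0 : ℓ y = 0 := by rw [hyy, map_sub, hm, sub_self]
  set r : ℝ := ρ / (4 * (1 + ‖d‖ + ‖e‖)) with hrdef
  have hr0 : 0 < r := by positivity
  have hrd : 2 * r * (1 + ‖d‖) < ρ := by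
    have h1 : r * (4 * (1 + ‖d‖ + ‖e‖)) = ρ := by
      rw [hrdef, div_mul_cancel₀ _ (by positivity)]
    have h2 : 0 ≤ r * ‖e‖ := by positivity
    have h3 : 0 ≤ r * ‖d‖ := by positivity
    nlinarith
  have hre : 2 * r * (1 + ‖e‖) < ρ := by
    have h1 : r * (4 * (1 + ‖d‖ + ‖e‖)) = ρ := by
      rw [hrdef, div_mul_cancel₀ _ (by positivity)]
    have h2 : 0 ≤ r * ‖e‖ := by positivity
    have h3 : 0 ≤ r * ‖d‖ := by positivity
    nlinarith
  set χ₁ := chi ℓ z d r with hχ₁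
  set χ₂ := chi ℓ z e r with hχ₂
  have t1 : IsTest χ₁ := isTest_chi ℓ z d hr0
  have t2 : IsTest χ₂ := isTest_chi ℓ z e hr0
  have hagree : ∀ x, ℓ (x - z) = 0 → χ₁ x = χ₂ x := fun x hx => chi_plane z d e r hx
  have hout1 : ∀ x, x ∉ ball z ρ → fderiv ℝ χ₁ x = 0 := fun x hx =>
    fderiv_chi_eq_zero ℓ z d hr0 (fun h => hx (closedBall_subset_ball hrd h))
  have hout2 : ∀ x, x ∉ ball z ρ → fderiv ℝ χ₂ x = 0 := fun x hx =>
    fderiv_chi_eq_zero ℓ z e hr0 (fun h => hx (closedBall_subset_ball hre h))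
  have hWout : ∀ x, x ∉ ball z ρ → W ℓ z χ₁ χ₂ y d e x = 0 := by
    intro x hx
    unfold W
    rw [hout1 x hx, hout2 x hx]
    simp
  -- bounds of the derivatives
  have hbd : ∀ {χ : E3 → ℝ}, IsTest χ → ∀ a : E3, ∃ C, 0 ≤ C ∧ ∀ x, |fderiv ℝ χ x a| ≤ C := by
    intro χ hχ a
    obtain ⟨C, hC⟩ := (hχ.fderiv_apply a).smooth.continuous.bounded_above_of_compact_support
      (hχ.fderiv_apply a).cpt
    exact ⟨max C 0, le_max_right _ _, fun x => le_max_of_le_left (by simpa using hC x)⟩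
  obtain ⟨C1, hC10, hC1⟩ := hbd t1 d
  obtain ⟨C2, hC20, hC2⟩ := hbd t1 y
  obtain ⟨C3, hC30, hC3⟩ := hbd t2 e
  obtain ⟨C4, hC40, hC4⟩ := hbd t2 y
  set K : ℝ := 1 + C1 + C2 * |S⁻¹| + C3 + C4 * |S⁻¹| with hK
  have hK0 : 0 < K := by positivity
  set ε : ℝ := 1 / (8 * K) with hε
  have hε0 : 0 < ε := by positivity
  have hεK : ε * K = 1 / 8 := by
    rw [hε]
    field_simp
  have b1 : ∀ x, |ε * fderiv ℝ χ₁ x d| ≤ 1 / 8 := by
    intro x
    rw [abs_mul, abs_of_pos hε0, ← hεK]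
    refine mul_le_mul_of_nonneg_left ((hC1 x).trans ?_) hε0.le
    have : 0 ≤ C2 * |S⁻¹| := by positivity
    have : 0 ≤ C4 * |S⁻¹| := by positivity
    linarith
  have b3 : ∀ x, |ε * fderiv ℝ χ₂ x e| ≤ 1 / 8 := by
    intro x
    rw [abs_mul, abs_of_pos hε0, ← hεK]
    refine mul_le_mul_of_nonneg_left ((hC3 x).trans ?_) hε0.le
    have : 0 ≤ C2 * |S⁻¹| := by positivity
    have : 0 ≤ C4 * |S⁻¹| := by positivity
    linarith
  have b2 : ∀ x, |ε * fderiv ℝ χ₁ x y * S⁻¹| ≤ 1 / 8 := by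
    intro x
    rw [mul_assoc, abs_mul, abs_of_pos hε0, ← hεK, abs_mul]
    refine mul_le_mul_of_nonneg_left ?_ hε0.le
    have h1 : |fderiv ℝ χ₁ x y| * |S⁻¹| ≤ C2 * |S⁻¹| :=
      mul_le_mul_of_nonneg_right (hC2 x) (abs_nonneg _)
    have : 0 ≤ C4 * |S⁻¹| := by positivity
    linarith
  have b4 : ∀ x, |ε * fderiv ℝ χ₂ x y * S⁻¹| ≤ 1 / 8 := by
    intro x
    rw [mul_assoc, abs_mul, abs_of_pos hε0, ← hεK, abs_mul]
    refine mul_le_mul_of_nonneg_left ?_ hε0.le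
    have h1 : |fderiv ℝ χ₂ x y| * |S⁻¹| ≤ C4 * |S⁻¹| :=
      mul_le_mul_of_nonneg_right (hC4 x) (abs_nonneg _)
    have : 0 ≤ C2 * |S⁻¹| := by positivity
    linarith
  -- the competitor
  set g' : E3 → E3 := fun x => gm x + ε • W ℓ z χ₁ χ₂ y d e x with hg'
  have vleft : ∀ (x : E3) (μ : ℝ), ℓ (x - z) < 0 → gm x = mp P₁ P₂ + μ • (P₁ - P₂) →
      g' x = mp P₁ P₂ + μ • (P₁ - P₂) - (ε * fderiv ℝ χ₁ x d) • (mp P₁ P₂ - mp Q₁ Q₂) +
        (ε * fderiv ℝ χ₁ x y * S⁻¹) • (P₁ - P₂) := by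
    intro x μ hx hgx
    simp only [hg']
    unfold W
    rw [hl_of_neg hx, hr_of_nonpos hx.le, hgx, hdd]
    module
  have vright : ∀ (x : E3) (μ : ℝ), 0 < ℓ (x - z) → gm x = mp Q₁ Q₂ + μ • (Q₁ - Q₂) →
      g' x = mp Q₁ Q₂ + μ • (Q₁ - Q₂) - (-(ε * fderiv ℝ χ₂ x e)) • (mp Q₁ Q₂ - mp P₁ P₂) +
        (ε * fderiv ℝ χ₂ x y * S⁻¹) • (Q₁ - Q₂) := by
    intro x μ hx hgx
    simp only [hg']
    unfold W
    rw [hl_of_nonneg hx.le, hr_of_pos hx, hgx, hee, hyy]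
    module
  -- the linear lower bound
  set Φ : E3 → ℝ := fun x => ε * (ent (mp Q₁ Q₂) - ent (mp P₁ P₂)) *
      (hl ℓ z x * fderiv ℝ χ₁ x d + hr ℓ z x * fderiv ℝ χ₂ x e) +
      (ε * S⁻¹ * (ent P₁ - ent P₂) * (hl ℓ z x * fderiv ℝ χ₁ x y) +
      ε * S⁻¹ * (ent Q₁ - ent Q₂) * (hr ℓ z x * fderiv ℝ χ₂ x y)) with hΦ
  have hpt : ∀ x, gm x ∈ Oct → ℓ (x - z) ≠ 0 → g' x ∈ Oct ∧ Φ x ≤ ent (g' x) - ent (gm x) ∧
      (x ∈ ball z ρ → ℓ (x - z) < 0 → fderiv ℝ χ₁ x d ≠ 0 → Φ x < ent (g' x) - ent (gm x)) := by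
    intro x hgx hx
    by_cases hxb : x ∈ ball z ρ
    · rcases lt_or_gt_of_ne hx with hneg | hpos
      · obtain ⟨μ, hμ, hgμ⟩ := hleft x hxb (by rw [map_sub] at hneg; linarith)
        have hA0 : 0 ≤ ε * fderiv ℝ χ₁ x d :=
          mul_nonneg hε0.le (fderiv_chi_left hd1 z r hneg.le)
        have hA : ε * fderiv ℝ χ₁ x d ≤ 1 / 8 := (le_abs_self _).trans (b1 x)
        obtain ⟨k1, k2, k3⟩ := pointwise hent hP hQ hPm hno hA0 hA (b2 x) hμ
        have hv := vleft x μ hneg hgμ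
        have hΦx : Φ x = ε * fderiv ℝ χ₁ x d * (ent (mp Q₁ Q₂) - ent (mp P₁ P₂)) +
            ε * fderiv ℝ χ₁ x y * S⁻¹ * (ent P₁ - ent P₂) := by
          simp only [hΦ]
          rw [hl_of_neg hneg, hr_of_nonpos hneg.le]
          ring
        rw [← hv, ← hgμ, ← hΦx] at k2 k3
        rw [← hv] at k1
        refine ⟨k1, k2, fun _ _ hne' => k3 ?_⟩
        exact lt_of_le_of_ne hA0 (mul_ne_zero hε0.ne' hne').symm
      · obtain ⟨μ, hμ, hgμ⟩ := hright x hxb (by rw [map_sub] at hpos; linarith)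
        have hA0 : 0 ≤ -(ε * fderiv ℝ χ₂ x e) := by
          rw [neg_nonneg]
          exact mul_nonpos_of_nonneg_of_nonpos hε0.le (fderiv_chi_right he1 z r hpos.le)
        have hA : -(ε * fderiv ℝ χ₂ x e) ≤ 1 / 8 := (neg_le_abs _).trans (b3 x)
        obtain ⟨k1, k2, k3⟩ := pointwise hent hQ hP hQm hno.symm hA0 hA (b4 x) hμ
        have hv := vright x μ hpos hgμ
        have hΦx : Φ x = -(ε * fderiv ℝ χ₂ x e) * (ent (mp P₁ P₂) - ent (mp Q₁ Q₂)) +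
            ε * fderiv ℝ χ₂ x y * S⁻¹ * (ent Q₁ - ent Q₂) := by
          simp only [hΦ]
          rw [hl_of_nonneg hpos.le, hr_of_pos hpos]
          ring
        rw [← hv, ← hgμ, ← hΦx] at k2
        rw [← hv] at k1
        exact ⟨k1, k2, fun _ hneg' _ => absurd hneg' (not_lt.2 hpos.le)⟩
    · have hgg : g' x = gm x := by
        simp only [hg', hWout x hxb, smul_zero, add_zero]
      have hΦx : Φ x = 0 := by
        simp only [hΦ, hout1 x hxb, hout2 x hxb]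
        simp
      rw [hgg, hΦx]
      exact ⟨hgx, by linarith, fun h => absurd h hxb⟩
  -- admissibility
  obtain ⟨CW, hCW⟩ := bound_W ℓ z t1 t2 y d e
  have mW := measurable_W ℓ z t1 t2 y d e
  have hdiv : ∀ ζ, IsTest ζ → divP g' ζ = divP gm ζ := by
    intro ζ hζ
    have h1 := divP_add_smul (hgm.1.integrable_pair hζ)
      (integrable_pair hζ mW (Eventually.of_forall hCW)) ε
    have h2 : divP (W ℓ z χ₁ χ₂ y d e) ζ = 0 := by
      unfold divP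
      rw [div_W hℓ z t1 t2 hagree hy0 (hd1.trans he1.symm) hζ, neg_zero]
    rw [h2, mul_zero, add_zero] at h1
    exact h1
  have hAF : g' ∈ AF R b := by
    refine ⟨⟨?_, ?_, ?_, ?_⟩, ?_⟩
    · exact Measurable.add (f := gm) (g := fun x => ε • W ℓ z χ₁ χ₂ y d e x) hgm.1.meas
        (Measurable.const_smul (g := W ℓ z χ₁ χ₂ y d e) mW ε)
    · filter_upwards [hgm.1.zero] with x hx hxR
      have hxb : x ∉ ball z ρ := fun h => hxR (interior_subset (hball h))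
      simp only [hg', hx hxR, hWout x hxb, smul_zero, add_zero]
    · filter_upwards [hgm.1.mem_Oct, ae_ne_plane hℓ z] with x hx hx0 _
      exact (hpt x hx hx0).1
    · intro ζ hζ hs
      rw [hdiv ζ hζ]
      exact hgm.1.divfree ζ hζ hs
    · intro ζ hζ
      rw [hdiv ζ hζ]
      exact hgm.2 ζ hζ
  have hle := hmax g' hAF
  -- integrals
  have j1 := integrable_hl_mul (t1.integrable_fderiv d) ℓ z
  have j2 := integrable_hr_mul (t2.integrable_fderiv e) ℓ z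
  have j3 := integrable_hl_mul (t1.integrable_fderiv y) ℓ z
  have j4 := integrable_hr_mul (t2.integrable_fderiv y) ℓ z
  have j12 : Integrable (fun x => hl ℓ z x * fderiv ℝ χ₁ x d + hr ℓ z x * fderiv ℝ χ₂ x e) :=
    j1.add j2
  have j34 : Integrable (fun x => ε * S⁻¹ * (ent P₁ - ent P₂) * (hl ℓ z x * fderiv ℝ χ₁ x y) +
      ε * S⁻¹ * (ent Q₁ - ent Q₂) * (hr ℓ z x * fderiv ℝ χ₂ x y)) :=
    (j3.const_mul _).add (j4.const_mul _)
  have jΦ : Integrable Φ := (j12.const_mul _).add j34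
  have hΦ0 : ∫ x, Φ x = 0 := by
    simp only [hΦ]
    rw [integral_add (j12.const_mul _) j34, integral_const_mul, integral_add j1 j2,
      half_glue t1 t2 hℓ z hagree (hd1.trans he1.symm), integral_add (j3.const_mul _)
      (j4.const_mul _), integral_const_mul, integral_const_mul,
      half_tangential_left t1 hℓ z hy0, half_tangential t2 hℓ z hy0]
    ring
  have hΦR : ∫ x in R, Φ x = 0 := by
    rw [← hΦ0]
    apply setIntegral_eq_integral_of_forall_compl_eq_zero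
    intro x hxR
    have hxb : x ∉ ball z ρ := fun h => hxR (interior_subset (hball h))
    simp only [hΦ, hout1 x hxb, hout2 x hxb]
    simp
  have i1 := hent.integrableOn hR hAF.1.meas hAF.1.mem_Oct
  have i2 := hent.integrableOn hR hgm.1.meas hgm.1.mem_Oct
  have i12 : Integrable (fun x => ent (g' x) - ent (gm x)) (volume.restrict R) := i1.sub i2
  have iF : Integrable (fun x => ent (g' x) - ent (gm x) - Φ x) (volume.restrict R) :=
    i12.sub jΦ.integrableOn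
  have hFnn : 0 ≤ᵐ[volume.restrict R] fun x => ent (g' x) - ent (gm x) - Φ x := by
    filter_upwards [ae_restrict_of_ae hgm.1.mem_Oct, ae_restrict_of_ae (ae_ne_plane hℓ z)]
      with x hx hx0
    simp only [Pi.zero_apply, sub_nonneg]
    exact (hpt x hx hx0).2.1
  have hFint : ∫ x in R, (ent (g' x) - ent (gm x) - Φ x) ≤ 0 := by
    rw [integral_sub i12 jΦ.integrableOn, integral_sub i1 i2, hΦR]
    linarith
  have hF0 : ∫ x in R, (ent (g' x) - ent (gm x) - Φ x) = 0 :=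
    le_antisymm hFint (integral_nonneg_of_ae hFnn)
  have hFae := (integral_eq_zero_iff_of_nonneg_ae hFnn iF).1 hF0
  have hFae' := (ae_restrict_iff' hR.measurableSet).1 hFae
  -- the derivative vanishes almost everywhere on the left
  have hopen : IsOpen {x : E3 | ℓ (x - z) < 0} :=
    isOpen_lt (ℓ.continuous.comp (by fun_prop)) continuous_const
  have hc : Continuous (fun x => fderiv ℝ χ₁ x d) := (t1.fderiv_apply d).smooth.continuous
  have h1 : (fun x => fderiv ℝ χ₁ x d) =ᵐ[volume.restrict {x : E3 | ℓ (x - z) < 0}]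
      (fun _ => 0) := by
    rw [EventuallyEq, ae_restrict_iff' hopen.measurableSet]
    filter_upwards [hFae', hgm.1.mem_Oct] with x hx hxO hx0
    by_contra hcon
    by_cases hxb : x ∈ ball z ρ
    · have h2 := (hpt x hxO (ne_of_lt hx0)).2.2 hxb hx0 hcon
      have h3 := hx (interior_subset (hball hxb))
      simp only [Pi.zero_apply] at h3
      linarith
    · exact hcon (by rw [hout1 x hxb]; rfl)
  refine exists_fderiv_chi_ne hd1 z hr0 (fun x hx => ?_)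
  exact Measure.eqOn_open_of_ae_eq h1 hopen hc.continuousOn continuousOn_const hx

end Run7.h895
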