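import Pool.Agent.Run7.h895.Defs

namespace Run7.h895

open MeasureTheory Filter Topology Set

/-- The edge with index `(i, j, a, b)` as an exposed face. -/
def edgeFace (i j : Fin 3) (a b : ℝ) : Set E3 := {s | s ∈ Oct ∧ a * s i + b * s j = 1}

theorem mem_Oct {s : E3} : s ∈ Oct ↔ |s 0| + |s 1| + |s 2| ≤ 1 := Iff.rfl

theorem le_one_of_mem_Oct {s : E3} (hs : s ∈ Oct) {i j : Fin 3} (hij : i ≠ j) {a b : ℝ}
    (ha : a = 1 ∨ a = -1) (hb : b = 1 ∨ b = -1) : a * s i + b * s j ≤ 1 := by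
  rw [mem_Oct] at hs
  have h0 := abs_nonneg (s 0)
  have h1 := abs_nonneg (s 1)
  have h2 := abs_nonneg (s 2)
  have l0 := le_abs_self (s 0)
  have l1 := le_abs_self (s 1)
  have l2 := le_abs_self (s 2)
  have n0 := neg_abs_le (s 0)
  have n1 := neg_abs_le (s 1)
  have n2 := neg_abs_le (s 2)
  fin_cases i <;> fin_cases j <;> rcases ha with rfl | rfl <;> rcases hb with rfl | rfl <;>
    first
    | exact absurd rfl hij
    | (simp only [Fin.zero_eta, Fin.mk_one, Fin.reduceFinMk]; linarith)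

theorem edge_eq {i j : Fin 3} (hij : i ≠ j) {a b : ℝ}
    (ha : a = 1 ∨ a = -1) (hb : b = 1 ∨ b = -1) :
    segment ℝ (Pi.single i a : E3) (Pi.single j b : E3) = edgeFace i j a b := by
  ext s
  constructor
  · rintro ⟨t, u, ht, hu, htu, rfl⟩
    refine ⟨?_, ?_⟩
    · rw [mem_Oct]
      fin_cases i <;> fin_cases j <;> first
        | exact absurd rfl hij
        | (rcases ha with rfl | rfl <;> rcases hb with rfl | rfl <;>
            simp [abs_of_nonneg ht, abs_of_nonneg hu] <;> linarith)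
    · fin_cases i <;> fin_cases j <;> first
        | exact absurd rfl hij
        | (rcases ha with rfl | rfl <;> rcases hb with rfl | rfl <;>
            simp <;> linarith)
  · rintro ⟨hs, h⟩
    rw [mem_Oct] at hs
    have h0 := abs_nonneg (s 0)
    have h1 := abs_nonneg (s 1)
    have h2 := abs_nonneg (s 2)
    have l0 := le_abs_self (s 0)
    have l1 := le_abs_self (s 1)
    have l2 := le_abs_self (s 2)
    have n0 := neg_abs_le (s 0)
    have n1 := neg_abs_le (s 1)
    have n2 := neg_abs_le (s 2)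
    refine ⟨a * s i, b * s j, ?_, ?_, h, ?_⟩
    · fin_cases i <;> fin_cases j <;> rcases ha with rfl | rfl <;> rcases hb with rfl | rfl <;>
        first
        | exact absurd rfl hij
        | (simp only [Fin.zero_eta, Fin.mk_one, Fin.reduceFinMk] at h ⊢; linarith)
    · fin_cases i <;> fin_cases j <;> rcases ha with rfl | rfl <;> rcases hb with rfl | rfl <;>
        first
        | exact absurd rfl hij
        | (simp only [Fin.zero_eta, Fin.mk_one, Fin.reduceFinMk] at h ⊢; linarith)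
    · ext k
      fin_cases i <;> fin_cases j <;> first
        | exact absurd rfl hij
        | (rcases ha with rfl | rfl <;> rcases hb with rfl | rfl <;> fin_cases k <;>
            simp at h ⊢ <;>
            first
            | rfl
            | (refine (abs_eq_zero.1 (le_antisymm ?_ (abs_nonneg _))).symm; linarith))

theorem isEdge_iff {S : Set E3} : IsEdge S ↔ ∃ (i j : Fin 3) (a b : ℝ), i ≠ j ∧
    (a = 1 ∨ a = -1) ∧ (b = 1 ∨ b = -1) ∧ S = edgeFace i j a b := by
  constructor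
  · rintro ⟨i, j, a, b, hij, ha, hb, rfl⟩
    exact ⟨i, j, a, b, hij, ha, hb, edge_eq hij ha hb⟩
  · rintro ⟨i, j, a, b, hij, ha, hb, rfl⟩
    exact ⟨i, j, a, b, hij, ha, hb, (edge_eq hij ha hb).symm⟩

theorem onEdge_iff {s t : E3} : OnEdge s t ↔ ∃ (i j : Fin 3) (a b : ℝ), i ≠ j ∧
    (a = 1 ∨ a = -1) ∧ (b = 1 ∨ b = -1) ∧ s ∈ edgeFace i j a b ∧ t ∈ edgeFace i j a b := by
  constructor
  · rintro ⟨S, hS, hs, ht⟩
    obtain ⟨i, j, a, b, hij, ha, hb, rfl⟩ := isEdge_iff.1 hS
    exact ⟨i, j, a, b, hij, ha, hb, hs, ht⟩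
  · rintro ⟨i, j, a, b, hij, ha, hb, hs, ht⟩
    exact ⟨_, isEdge_iff.2 ⟨i, j, a, b, hij, ha, hb, rfl⟩, hs, ht⟩

theorem isClosed_Oct : IsClosed Oct := by
  have : Continuous (fun s : E3 => |s 0| + |s 1| + |s 2|) := by fun_prop
  exact isClosed_le this continuous_const

theorem convex_Oct : Convex ℝ Oct := by
  intro x hx y hy a b ha hb hab
  rw [mem_Oct] at *
  have h : ∀ i : Fin 3, |(a • x + b • y) i| ≤ a * |x i| + b * |y i| := by
    intro i
    calc |(a • x + b • y) i| = |a * x i + b * y i| := by simp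
      _ ≤ |a * x i| + |b * y i| := abs_add_le _ _
      _ = a * |x i| + b * |y i| := by rw [abs_mul, abs_mul, abs_of_nonneg ha, abs_of_nonneg hb]
  have h0 := h 0
  have h1 := h 1
  have h2 := h 2
  have e1 : a * (|x 0| + |x 1| + |x 2|) ≤ a * 1 := mul_le_mul_of_nonneg_left hx ha
  have e2 : b * (|y 0| + |y 1| + |y 2|) ≤ b * 1 := mul_le_mul_of_nonneg_left hy hb
  linarith

theorem norm_le_of_mem_Oct {s : E3} (hs : s ∈ Oct) : ‖s‖ ≤ 1 := by
  rw [mem_Oct] at hs
  rw [pi_norm_le_iff_of_nonneg zero_le_one]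
  intro i
  have h0 := abs_nonneg (s 0)
  have h1 := abs_nonneg (s 1)
  have h2 := abs_nonneg (s 2)
  fin_cases i <;> simp only [Real.norm_eq_abs, Fin.zero_eta, Fin.mk_one, Fin.reduceFinMk] <;>
    linarith

theorem isCompact_Oct : IsCompact Oct :=
  (isCompact_closedBall (0 : E3) 1).of_isClosed_subset isClosed_Oct
    (fun s hs => by simpa using norm_le_of_mem_Oct hs)

theorem isClosed_edgeFace (i j : Fin 3) (a b : ℝ) : IsClosed (edgeFace i j a b) := by
  have h : Continuous (fun s : E3 => a * s i + b * s j) := by fun_prop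
  exact isClosed_Oct.inter (isClosed_eq h continuous_const)

theorem zero_mem_Oct : (0 : E3) ∈ Oct := by simp [mem_Oct]

/-- Two points of an edge differ by a multiple of the direction of the edge. -/
theorem sub_eq_of_mem_edgeFace {i j : Fin 3} (hij : i ≠ j) {a b : ℝ}
    (ha : a = 1 ∨ a = -1) (hb : b = 1 ∨ b = -1) {s t : E3} (hs : s ∈ edgeFace i j a b)
    (ht : t ∈ edgeFace i j a b) :
    ∃ c : ℝ, s - t = c • ((Pi.single i a : E3) - (Pi.single j b : E3)) := by
  rw [← edge_eq hij ha hb] at hs ht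
  obtain ⟨p, q, _, _, hpq, rfl⟩ := hs
  obtain ⟨p', q', _, _, hpq', rfl⟩ := ht
  refine ⟨p - p', ?_⟩
  have hq : q = 1 - p := by linarith
  have hq' : q' = 1 - p' := by linarith
  subst hq hq'
  module

/-- The differences of points of an edge are parallel. -/
theorem parallel_of_mem_edgeFace {i j : Fin 3} (hij : i ≠ j) {a b : ℝ}
    (ha : a = 1 ∨ a = -1) (hb : b = 1 ∨ b = -1) {s t u v : E3} (hs : s ∈ edgeFace i j a b)
    (ht : t ∈ edgeFace i j a b) (hu : u ∈ edgeFace i j a b) (hv : v ∈ edgeFace i j a b)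
    (hst : s ≠ t) : ∃ c : ℝ, u - v = c • (s - t) := by
  obtain ⟨c, hc⟩ := sub_eq_of_mem_edgeFace hij ha hb hs ht
  obtain ⟨c', hc'⟩ := sub_eq_of_mem_edgeFace hij ha hb hu hv
  have hc0 : c ≠ 0 := by
    rintro rfl
    rw [zero_smul] at hc
    exact hst (sub_eq_zero.1 hc)
  refine ⟨c' / c, ?_⟩
  rw [hc, hc', smul_smul, div_mul_cancel₀ _ hc0]

/-- Edges are extreme. -/
theorem edge_extreme {i j : Fin 3} (hij : i ≠ j) {a b : ℝ}
    (ha : a = 1 ∨ a = -1) (hb : b = 1 ∨ b = -1) {x y : E3} (hx : x ∈ Oct) (hy : y ∈ Oct)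
    {p q : ℝ} (hp : 0 < p) (hq : 0 < q) (hpq : p + q = 1)
    (h : p • x + q • y ∈ edgeFace i j a b) : x ∈ edgeFace i j a b ∧ y ∈ edgeFace i j a b := by
  have h1 := le_one_of_mem_Oct hx hij ha hb
  have h2 := le_one_of_mem_Oct hy hij ha hb
  have h3 : p * (a * x i + b * x j) + q * (a * y i + b * y j) = 1 := by
    have := h.2
    simp only [Pi.add_apply, Pi.smul_apply, smul_eq_mul] at this
    linarith
  refine ⟨⟨hx, ?_⟩, ⟨hy, ?_⟩⟩
  · nlinarith
  · nlinarith

end Run7.h895
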