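import Pool.Agent.Run7.h895.Jump2

namespace Run7.h895

open MeasureTheory Filter Topology Set Metric
open scoped ContDiff

/-- The indicator of the right half space. -/
noncomputable def hr (ℓ : E3 →L[ℝ] ℝ) (z x : E3) : ℝ := {x | 0 < ℓ (x - z)}.indicator 1 x

/-- The indicator of the left half space. -/
noncomputable def hl (ℓ : E3 →L[ℝ] ℝ) (z x : E3) : ℝ := {x | ℓ (x - z) < 0}.indicator 1 x

theorem hr_of_pos {ℓ : E3 →L[ℝ] ℝ} {z x : E3} (h : 0 < ℓ (x - z)) : hr ℓ z x = 1 := by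
  unfold hr
  rw [indicator_of_mem (by exact h)]
  rfl

theorem hr_of_nonpos {ℓ : E3 →L[ℝ] ℝ} {z x : E3} (h : ℓ (x - z) ≤ 0) : hr ℓ z x = 0 := by
  unfold hr
  rw [indicator_of_notMem (by exact not_lt.2 h)]

theorem hl_of_neg {ℓ : E3 →L[ℝ] ℝ} {z x : E3} (h : ℓ (x - z) < 0) : hl ℓ z x = 1 := by
  unfold hl
  rw [indicator_of_mem (by exact h)]
  rfl

theorem hl_of_nonneg {ℓ : E3 →L[ℝ] ℝ} {z x : E3} (h : 0 ≤ ℓ (x - z)) : hl ℓ z x = 0 := by
  unfold hl
  rw [indicator_of_notMem (by exact not_lt.2 h)]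

theorem measurable_hr (ℓ : E3 →L[ℝ] ℝ) (z : E3) : Measurable (hr ℓ z) := by
  refine measurable_one.indicator (IsOpen.measurableSet ?_)
  exact isOpen_lt continuous_const (ℓ.continuous.comp (by fun_prop))

theorem measurable_hl (ℓ : E3 →L[ℝ] ℝ) (z : E3) : Measurable (hl ℓ z) := by
  refine measurable_one.indicator (IsOpen.measurableSet ?_)
  exact isOpen_lt (ℓ.continuous.comp (by fun_prop)) continuous_const

theorem abs_hr_le (ℓ : E3 →L[ℝ] ℝ) (z x : E3) : |hr ℓ z x| ≤ 1 := by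
  rcases lt_or_ge 0 (ℓ (x - z)) with h | h
  · rw [hr_of_pos h]; simp
  · rw [hr_of_nonpos h]; simp

theorem abs_hl_le (ℓ : E3 →L[ℝ] ℝ) (z x : E3) : |hl ℓ z x| ≤ 1 := by
  rcases lt_or_ge (ℓ (x - z)) 0 with h | h
  · rw [hl_of_neg h]; simp
  · rw [hl_of_nonneg h]; simp

theorem IsTest.integrable_fderiv {ζ : E3 → ℝ} (h : IsTest ζ) (v : E3) :
    Integrable (fun x => fderiv ℝ ζ x v) :=
  integrable_pair h (g := fun _ => v) measurable_const (C := ‖v‖)
    (Eventually.of_forall (fun _ => le_rfl))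

theorem integrable_hr_mul {f : E3 → ℝ} (hf : Integrable f) (ℓ : E3 →L[ℝ] ℝ) (z : E3) :
    Integrable (fun x => hr ℓ z x * f x) := by
  refine hf.norm.mono' ((measurable_hr ℓ z).aestronglyMeasurable.mul hf.aestronglyMeasurable)
    (Eventually.of_forall (fun x => ?_))
  rw [norm_mul]
  calc ‖hr ℓ z x‖ * ‖f x‖ ≤ 1 * ‖f x‖ :=
        mul_le_mul_of_nonneg_right (abs_hr_le ℓ z x) (norm_nonneg _)
    _ = _ := one_mul _

theorem integrable_hl_mul {f : E3 → ℝ} (hf : Integrable f) (ℓ : E3 →L[ℝ] ℝ) (z : E3) :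
    Integrable (fun x => hl ℓ z x * f x) := by
  refine hf.norm.mono' ((measurable_hl ℓ z).aestronglyMeasurable.mul hf.aestronglyMeasurable)
    (Eventually.of_forall (fun x => ?_))
  rw [norm_mul]
  calc ‖hl ℓ z x‖ * ‖f x‖ ≤ 1 * ‖f x‖ :=
        mul_le_mul_of_nonneg_right (abs_hl_le ℓ z x) (norm_nonneg _)
    _ = _ := one_mul _

/-- The two half spaces together. -/
theorem integral_hl_add_hr {f : E3 → ℝ} (hf : Integrable f) {ℓ : E3 →L[ℝ] ℝ} (hℓ : ℓ ≠ 0)
    (z : E3) : (∫ x, hl ℓ z x * f x) + ∫ x, hr ℓ z x * f x = ∫ x, f x := by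
  rw [← integral_add (integrable_hl_mul hf ℓ z) (integrable_hr_mul hf ℓ z)]
  refine integral_congr_ae ?_
  filter_upwards [ae_ne_plane hℓ z] with x hx
  rcases lt_or_gt_of_ne hx with h | h
  · rw [hl_of_neg h, hr_of_nonpos h.le]
    ring
  · rw [hl_of_nonneg h.le, hr_of_pos h]
    ring

theorem half_tangential {ζ : E3 → ℝ} (h : IsTest ζ) {ℓ : E3 →L[ℝ] ℝ} (hℓ : ℓ ≠ 0) (z : E3)
    {w : E3} (hw : ℓ w = 0) : ∫ x, hr ℓ z x * fderiv ℝ ζ x w = 0 := by
  have hbu : ∀ᵐ _x : E3, ‖w‖ ≤ ‖w‖ := Eventually.of_forall (fun _ => le_rfl)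
  have hmu : Measurable (fun _ : E3 => w) := measurable_const
  have t1 := tendsto_integral_ramp hmu hbu h hℓ z
    (fun n : ℕ => ramp ℓ z 0 (1 / ((n : ℝ) + 1)))
    (fun n => (contDiff_ramp _ _ _ _).continuous) (fun n x => abs_ramp_le _ _ _ _ _)
    (fun x hx => tendsto_ramp_right ℓ z x hx)
  refine tendsto_nhds_unique t1 ?_
  refine tendsto_const_nhds.congr (fun n => ?_)
  obtain ⟨_, k2⟩ := ramp_identity hmu hbu h ℓ z 0 (1 / ((n : ℝ) + 1))
    ((h.mul_ramp ℓ z 0 (1 / ((n : ℝ) + 1))).integral_fderiv w)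
  rw [k2, hw]
  simp

theorem half_tangential_left {ζ : E3 → ℝ} (h : IsTest ζ) {ℓ : E3 →L[ℝ] ℝ} (hℓ : ℓ ≠ 0) (z : E3)
    {w : E3} (hw : ℓ w = 0) : ∫ x, hl ℓ z x * fderiv ℝ ζ x w = 0 := by
  have h1 := integral_hl_add_hr (h.integrable_fderiv w) hℓ z
  rw [half_tangential h hℓ z hw, h.integral_fderiv] at h1
  linarith

theorem exists_lipschitz {ζ : E3 → ℝ} (h : IsTest ζ) :
    ∃ K : ℝ, 0 ≤ K ∧ ∀ x y, |ζ x - ζ y| ≤ K * ‖x - y‖ := by
  obtain ⟨C, hC⟩ := h.contDiff.lipschitzWith_of_hasCompactSupport h.cpt (by simp)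
  refine ⟨C, C.coe_nonneg, fun x y => ?_⟩
  have := hC.dist_le_mul x y
  rwa [Real.dist_eq, dist_eq_norm] at this

theorem exists_bound_deriv_T : ∃ K : ℝ, 0 ≤ K ∧ ∀ s, |deriv T s| ≤ K := by
  obtain ⟨C, hC⟩ := (isCompact_Icc (a := (0 : ℝ)) (b := 1)).exists_bound_of_continuousOn
    continuous_deriv_T.continuousOn
  refine ⟨max C 0, le_max_right _ _, fun s => ?_⟩
  rcases le_or_gt s 0 with h | h
  · rw [deriv_T_of_nonpos h]
    simp
  · rcases le_or_gt 1 s with h' | h'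
    · rw [deriv_T_of_one_le h']
      simp
    · exact (hC s ⟨h.le, h'.le⟩).trans (le_max_left _ _)

/-- A test function that vanishes on the plane. -/
theorem half_vanish {ζ : E3 → ℝ} (h : IsTest ζ) {ℓ : E3 →L[ℝ] ℝ} (hℓ : ℓ ≠ 0) (z : E3)
    (h0 : ∀ x, ℓ (x - z) = 0 → ζ x = 0) (w : E3) : ∫ x, hr ℓ z x * fderiv ℝ ζ x w = 0 := by
  obtain ⟨K, hK0, hK⟩ := exists_lipschitz h
  obtain ⟨K', hK'0, hK'⟩ := exists_bound_deriv_T
  set u := rep ℓ with hu
  have hS : 0 < ℓ u := apply_rep_pos hℓ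
  -- the function is small near the plane
  have hsmall : ∀ x, |ζ x| ≤ K * (‖u‖ / ℓ u) * |ℓ (x - z)| := by
    intro x
    have h1 : ζ (x - (ℓ (x - z) / ℓ u) • u) = 0 := by
      apply h0
      rw [sub_right_comm, map_sub, map_smul, smul_eq_mul, div_mul_cancel₀ _ hS.ne', sub_self]
    have h2 := hK x (x - (ℓ (x - z) / ℓ u) • u)
    rw [h1, sub_zero, sub_sub_cancel, norm_smul, Real.norm_eq_abs, abs_div, abs_of_pos hS] at h2
    calc |ζ x| ≤ K * (|ℓ (x - z)| / ℓ u * ‖u‖) := h2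
      _ = K * (‖u‖ / ℓ u) * |ℓ (x - z)| := by ring
  have hbu : ∀ᵐ _x : E3, ‖w‖ ≤ ‖w‖ := Eventually.of_forall (fun _ => le_rfl)
  have hmu : Measurable (fun _ : E3 => w) := measurable_const
  have t1 := tendsto_integral_ramp hmu hbu h hℓ z
    (fun n : ℕ => ramp ℓ z 0 (1 / ((n : ℝ) + 1)))
    (fun n => (contDiff_ramp _ _ _ _).continuous) (fun n x => abs_ramp_le _ _ _ _ _)
    (fun x hx => tendsto_ramp_right ℓ z x hx)
  refine tendsto_nhds_unique t1 ?_
  set F : ℕ → E3 → ℝ := fun n x =>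
    ζ x * (deriv T ((ℓ (x - z) + 0) / (1 / ((n : ℝ) + 1))) / (1 / ((n : ℝ) + 1))) * ℓ w with hF
  have hkey : ∀ n : ℕ, ∫ x, ramp ℓ z 0 (1 / ((n : ℝ) + 1)) x * fderiv ℝ ζ x w =
      -∫ x, F n x := by
    intro n
    obtain ⟨_, k2⟩ := ramp_identity hmu hbu h ℓ z 0 (1 / ((n : ℝ) + 1))
      ((h.mul_ramp ℓ z 0 (1 / ((n : ℝ) + 1))).integral_fderiv w)
    exact k2
  have ht : Tendsto (fun n => ∫ x, F n x) atTop (𝓝 (∫ _x : E3, (0 : ℝ))) := by
    set C : ℝ := K * (‖u‖ / ℓ u) * K' * |ℓ w| with hC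
    refine tendsto_integral_of_dominated_convergence
      (fun x => (tsupport ζ).indicator (fun _ => C) x) ?_ ?_ ?_ ?_
    · intro n
      have hc1 : Continuous (fun x : E3 => (ℓ (x - z) + 0) / (1 / ((n : ℝ) + 1))) := by fun_prop
      have hc2 := continuous_deriv_T.comp hc1
      have hc3 := (h.smooth.continuous.mul (hc2.div_const (1 / ((n : ℝ) + 1)))).mul
        (continuous_const (y := ℓ w))
      exact hc3.aestronglyMeasurable
    · refine (integrable_indicator_iff h.cpt.isCompact.isClosed.measurableSet).2 ?_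
      exact integrableOn_const h.cpt.isCompact.measure_lt_top.ne
    · intro n
      refine Eventually.of_forall (fun x => ?_)
      by_cases hx : x ∈ tsupport ζ
      · rw [indicator_of_mem hx]
        have hn : (0 : ℝ) < (n : ℝ) + 1 := by positivity
        simp only [hF, Real.norm_eq_abs, abs_mul, abs_div]
        rw [abs_one, abs_of_pos hn]
        by_cases hr1 : 1 ≤ |(ℓ (x - z) + 0) / (1 / ((n : ℝ) + 1))|
        · have hz : deriv T ((ℓ (x - z) + 0) / (1 / ((n : ℝ) + 1))) = 0 := by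
            rcases le_abs.1 hr1 with h1 | h1
            · exact deriv_T_of_one_le h1
            · exact deriv_T_of_nonpos (by linarith)
          rw [hz]
          simp only [abs_zero, zero_div, mul_zero, zero_mul]
          positivity
        · push Not at hr1
          rw [add_zero, div_div_eq_mul_div, div_one, abs_mul, abs_of_pos hn] at hr1
          have h2 := hK' ((ℓ (x - z) + 0) / (1 / ((n : ℝ) + 1)))
          have h3 := hsmall x
          have h4 : |ζ x| * (|deriv T ((ℓ (x - z) + 0) / (1 / ((n : ℝ) + 1)))| /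
              (1 / ((n : ℝ) + 1))) ≤ K * (‖u‖ / ℓ u) * K' := by
            rw [div_div_eq_mul_div, div_one]
            have h5 : |ζ x| * ((n : ℝ) + 1) ≤ K * (‖u‖ / ℓ u) := by
              calc |ζ x| * ((n : ℝ) + 1) ≤ K * (‖u‖ / ℓ u) * |ℓ (x - z)| * ((n : ℝ) + 1) :=
                    mul_le_mul_of_nonneg_right h3 hn.le
                _ = K * (‖u‖ / ℓ u) * (|ℓ (x - z)| * ((n : ℝ) + 1)) := by ring
                _ ≤ K * (‖u‖ / ℓ u) * 1 :=
                    mul_le_mul_of_nonneg_left hr1.le (by positivity)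
                _ = _ := mul_one _
            calc |ζ x| * (|deriv T ((ℓ (x - z) + 0) / (1 / ((n : ℝ) + 1)))| * ((n : ℝ) + 1)) =
                (|ζ x| * ((n : ℝ) + 1)) * |deriv T ((ℓ (x - z) + 0) / (1 / ((n : ℝ) + 1)))| := by
                  ring
              _ ≤ (K * (‖u‖ / ℓ u)) * K' :=
                  mul_le_mul h5 h2 (abs_nonneg _) (by positivity)
          exact mul_le_mul_of_nonneg_right h4 (abs_nonneg _)
      · rw [indicator_of_notMem hx]
        simp only [hF, image_eq_zero_of_notMem_tsupport hx]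
        simp
    · filter_upwards [ae_ne_plane hℓ z] with x hx
      rcases lt_or_gt_of_ne hx with hneg | hpos
      · refine tendsto_const_nhds.congr (fun n => ?_)
        have hp : (0 : ℝ) < 1 / ((n : ℝ) + 1) := by positivity
        have hz : deriv T ((ℓ (x - z) + 0) / (1 / ((n : ℝ) + 1))) = 0 := by
          apply deriv_T_of_nonpos
          apply div_nonpos_of_nonpos_of_nonneg _ hp.le
          linarith
        simp only [hF, hz]
        simp
      · have h1 : ∀ᶠ n : ℕ in atTop, 1 / ((n : ℝ) + 1) < ℓ (x - z) :=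
          (tendsto_one_div_add_atTop_nhds_zero_nat (𝕜 := ℝ)).eventually (gt_mem_nhds hpos)
        refine tendsto_const_nhds.congr' ?_
        filter_upwards [h1] with n hn
        have hp : (0 : ℝ) < 1 / ((n : ℝ) + 1) := by positivity
        have hz : deriv T ((ℓ (x - z) + 0) / (1 / ((n : ℝ) + 1))) = 0 := by
          apply deriv_T_of_one_le
          rw [le_div_iff₀ hp]
          linarith
        simp only [hF, hz]
        simp
  rw [integral_zero] at ht
  have ht' := ht.neg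
  rw [neg_zero] at ht'
  exact ht'.congr (fun n => (hkey n).symm)

/-- Two test functions which agree on the plane. -/
theorem half_glue {φ ψ : E3 → ℝ} (hφ : IsTest φ) (hψ : IsTest ψ) {ℓ : E3 →L[ℝ] ℝ} (hℓ : ℓ ≠ 0)
    (z : E3) (h0 : ∀ x, ℓ (x - z) = 0 → φ x = ψ x) {d e : E3} (hde : ℓ d = ℓ e) :
    (∫ x, hl ℓ z x * fderiv ℝ φ x d) + ∫ x, hr ℓ z x * fderiv ℝ ψ x e = 0 := by
  have h1 := integral_hl_add_hr (hφ.integrable_fderiv d) hℓ z
  rw [hφ.integral_fderiv] at h1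
  have h2 : ∫ x, hr ℓ z x * fderiv ℝ ψ x (e - d) = 0 :=
    half_tangential hψ hℓ z (by rw [map_sub, hde, sub_self])
  have hsub : IsTest (fun x => ψ x - φ x) := ⟨hψ.smooth.sub hφ.smooth, hψ.cpt.sub hφ.cpt⟩
  have h3 : ∫ x, hr ℓ z x * fderiv ℝ (fun x => ψ x - φ x) x d = 0 :=
    half_vanish hsub hℓ z (fun x hx => by rw [h0 x hx, sub_self]) d
  have e1 : ∀ x, hr ℓ z x * fderiv ℝ ψ x (e - d) =
      hr ℓ z x * fderiv ℝ ψ x e - hr ℓ z x * fderiv ℝ ψ x d := by
    intro x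
    rw [map_sub]
    ring
  have e2 : ∀ x, hr ℓ z x * fderiv ℝ (fun x => ψ x - φ x) x d =
      hr ℓ z x * fderiv ℝ ψ x d - hr ℓ z x * fderiv ℝ φ x d := by
    intro x
    have : fderiv ℝ (fun x => ψ x - φ x) x = fderiv ℝ ψ x - fderiv ℝ φ x :=
      fderiv_fun_sub (hψ.contDiff.differentiable (by simp) x)
        (hφ.contDiff.differentiable (by simp) x)
    rw [this]
    simp only [_root_.sub_apply]
    ring
  simp only [e1] at h2
  simp only [e2] at h3
  rw [integral_sub (integrable_hr_mul (hψ.integrable_fderiv e) ℓ z)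
    (integrable_hr_mul (hψ.integrable_fderiv d) ℓ z)] at h2
  rw [integral_sub (integrable_hr_mul (hψ.integrable_fderiv d) ℓ z)
    (integrable_hr_mul (hφ.integrable_fderiv d) ℓ z)] at h3
  linarith

end Run7.h895
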