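import Pool.Agent.Run7.h895.Along

namespace Run7.h895

open MeasureTheory Filter Topology Set Metric
open scoped ContDiff

/-- A smooth ramp. -/
noncomputable abbrev T : ℝ → ℝ := Real.smoothTransition

theorem contDiff_T : ContDiff ℝ ∞ T := Real.smoothTransition.contDiff

theorem deriv_T_nonneg (s : ℝ) : 0 ≤ deriv T s := Real.smoothTransition.monotone.deriv_nonneg

theorem deriv_T_of_nonpos {s : ℝ} (hs : s ≤ 0) : deriv T s = 0 := by
  apply IsLocalMin.deriv_eq_zero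
  refine Eventually.of_forall (fun y => ?_)
  have h0 : T s = 0 := Real.smoothTransition.zero_of_nonpos hs
  rw [h0]
  exact Real.smoothTransition.nonneg y

theorem deriv_T_of_one_le {s : ℝ} (hs : 1 ≤ s) : deriv T s = 0 := by
  apply IsLocalMax.deriv_eq_zero
  refine Eventually.of_forall (fun y => ?_)
  have h0 : T s = 1 := Real.smoothTransition.one_of_one_le hs
  rw [h0]
  exact Real.smoothTransition.le_one y

theorem continuous_deriv_T : Continuous (deriv T) :=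
  (contDiff_T.of_le (by simp : (1 : WithTop ℕ∞) ≤ ∞)).continuous_deriv (by simp)

/-- The ramp in the direction of `ℓ`. -/
noncomputable def ramp (ℓ : E3 →L[ℝ] ℝ) (z : E3) (c δ : ℝ) (x : E3) : ℝ := T ((ℓ (x - z) + c) / δ)

theorem contDiff_ramp (ℓ : E3 →L[ℝ] ℝ) (z : E3) (c δ : ℝ) : ContDiff ℝ ∞ (ramp ℓ z c δ) := by
  have h : ContDiff ℝ ∞ (fun x : E3 => (ℓ (x - z) + c) / δ) := by fun_prop
  exact contDiff_T.comp h

theorem hasFDerivAt_ramp (ℓ : E3 →L[ℝ] ℝ) (z : E3) (c δ : ℝ) (x : E3) :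
    HasFDerivAt (ramp ℓ z c δ) ((deriv T ((ℓ (x - z) + c) / δ) / δ) • ℓ) x := by
  have h1 : HasFDerivAt (fun x : E3 => (ℓ (x - z) + c) / δ) (δ⁻¹ • ℓ) x := by
    have h2 : HasFDerivAt (fun x : E3 => ℓ (x - z) + c) ℓ x := by
      have := (ℓ.hasFDerivAt (x := x - z)).comp x ((hasFDerivAt_id x).sub_const z)
      simpa using this.add_const c
    have h3 := h2.const_smul δ⁻¹
    have e : (fun x : E3 => (ℓ (x - z) + c) / δ) = fun x => δ⁻¹ • (ℓ (x - z) + c) := by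
      ext y
      rw [smul_eq_mul, div_eq_inv_mul]
    rw [e]
    exact h3
  have h4 : HasDerivAt T (deriv T ((ℓ (x - z) + c) / δ)) ((ℓ (x - z) + c) / δ) :=
    ((contDiff_T.differentiable (by simp)) _).hasDerivAt
  have h5 := h4.comp_hasFDerivAt x h1
  rw [smul_smul] at h5
  exact h5

theorem IsTest.mul_ramp {ζ : E3 → ℝ} (h : IsTest ζ) (ℓ : E3 →L[ℝ] ℝ) (z : E3) (c δ : ℝ) :
    IsTest (fun x => ζ x * ramp ℓ z c δ x) where
  smooth := h.smooth.mul (contDiff_ramp ℓ z c δ)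
  cpt := h.cpt.mul_right

theorem fderiv_mul_ramp {ζ : E3 → ℝ} (h : IsTest ζ) (ℓ : E3 →L[ℝ] ℝ) (z : E3) (c δ : ℝ) (x v : E3) :
    fderiv ℝ (fun x => ζ x * ramp ℓ z c δ x) x v =
      ramp ℓ z c δ x * fderiv ℝ ζ x v +
        ζ x * (deriv T ((ℓ (x - z) + c) / δ) / δ) * ℓ v := by
  have h1 : HasFDerivAt ζ (fderiv ℝ ζ x) x := (h.contDiff.differentiable (by simp) x).hasFDerivAt
  have h2 := h1.mul (hasFDerivAt_ramp ℓ z c δ x)
  have e := h2.fderiv
  rw [show (fun x => ζ x * ramp ℓ z c δ x) = ζ * ramp ℓ z c δ from rfl, e]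
  simp only [_root_.add_apply, _root_.smul_apply, smul_eq_mul]
  ring

theorem abs_ramp_le (ℓ : E3 →L[ℝ] ℝ) (z : E3) (c δ : ℝ) (x : E3) : |ramp ℓ z c δ x| ≤ 1 := by
  have h0 : 0 ≤ ramp ℓ z c δ x := Real.smoothTransition.nonneg _
  rw [abs_of_nonneg h0]
  exact Real.smoothTransition.le_one _

section

variable {f : E3 → E3} (hf : Measurable f) {M : ℝ} (hb : ∀ᵐ x, ‖f x‖ ≤ M)
include hf hb

theorem integrable_ramp_pair {ζ : E3 → ℝ} (h : IsTest ζ) (ℓ : E3 →L[ℝ] ℝ) (z : E3) (c δ : ℝ) :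
    Integrable (fun x => ramp ℓ z c δ x * fderiv ℝ ζ x (f x)) := by
  have h1 := integrable_pair h hf hb
  refine h1.norm.mono' ((contDiff_ramp ℓ z c δ).continuous.aestronglyMeasurable.mul
    h1.aestronglyMeasurable) (Eventually.of_forall (fun x => ?_))
  rw [norm_mul]
  calc ‖ramp ℓ z c δ x‖ * ‖fderiv ℝ ζ x (f x)‖ ≤ 1 * ‖fderiv ℝ ζ x (f x)‖ :=
        mul_le_mul_of_nonneg_right (abs_ramp_le ℓ z c δ x) (norm_nonneg _)
    _ = ‖fderiv ℝ ζ x (f x)‖ := one_mul _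

theorem ramp_identity {ζ : E3 → ℝ} (h : IsTest ζ) (ℓ : E3 →L[ℝ] ℝ) (z : E3) (c δ : ℝ)
    (hdiv : ∫ x, fderiv ℝ (fun x => ζ x * ramp ℓ z c δ x) x (f x) = 0) :
    Integrable (fun x => ζ x * (deriv T ((ℓ (x - z) + c) / δ) / δ) * ℓ (f x)) ∧
    ∫ x, ramp ℓ z c δ x * fderiv ℝ ζ x (f x) =
      -∫ x, ζ x * (deriv T ((ℓ (x - z) + c) / δ) / δ) * ℓ (f x) := by
  have h1 := integrable_pair (h.mul_ramp ℓ z c δ) hf hb
  have h2 := integrable_ramp_pair hf hb h ℓ z c δ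
  have h3 : Integrable (fun x => ζ x * (deriv T ((ℓ (x - z) + c) / δ) / δ) * ℓ (f x)) := by
    refine (h1.sub h2).congr (Eventually.of_forall (fun x => ?_))
    simp only [Pi.sub_apply]
    rw [fderiv_mul_ramp h]
    ring
  refine ⟨h3, ?_⟩
  have h4 : ∫ x, fderiv ℝ (fun x => ζ x * ramp ℓ z c δ x) x (f x) =
      (∫ x, ramp ℓ z c δ x * fderiv ℝ ζ x (f x)) +
        ∫ x, ζ x * (deriv T ((ℓ (x - z) + c) / δ) / δ) * ℓ (f x) := by
    rw [← integral_add h2 h3]
    refine integral_congr_ae (Eventually.of_forall (fun x => ?_))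
    exact fderiv_mul_ramp h ℓ z c δ x (f x)
  linarith

end

theorem tsupport_mul_ramp {ζ : E3 → ℝ} (ℓ : E3 →L[ℝ] ℝ) (z : E3) (c δ : ℝ) :
    tsupport (fun x => ζ x * ramp ℓ z c δ x) ⊆ tsupport ζ :=
  tsupport_mul_subset_left

/-- Limits of ramps. -/
theorem tendsto_ramp_left (ℓ : E3 →L[ℝ] ℝ) (z x : E3) (hx : ℓ (x - z) ≠ 0) :
    Tendsto (fun n : ℕ => ramp ℓ z (1 / ((n : ℝ) + 1)) (1 / ((n : ℝ) + 1)) x) atTop
      (𝓝 ({x | 0 < ℓ (x - z)}.indicator 1 x)) := by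
  rcases lt_or_gt_of_ne hx with h | h
  · rw [indicator_of_notMem (by simp only [mem_ofPred_eq]; exact not_lt.2 h.le)]
    have h1 : ∀ᶠ n : ℕ in atTop, 1 / ((n : ℝ) + 1) < -ℓ (x - z) :=
      (tendsto_one_div_add_atTop_nhds_zero_nat (𝕜 := ℝ)).eventually (gt_mem_nhds (by linarith))
    refine tendsto_const_nhds.congr' ?_
    filter_upwards [h1] with n hn
    have hp : (0 : ℝ) < 1 / ((n : ℝ) + 1) := by positivity
    symm
    apply Real.smoothTransition.zero_of_nonpos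
    apply div_nonpos_of_nonpos_of_nonneg _ hp.le
    linarith
  · rw [indicator_of_mem (by exact h)]
    refine tendsto_const_nhds.congr' ?_
    refine Eventually.of_forall (fun n => ?_)
    have hp : (0 : ℝ) < 1 / ((n : ℝ) + 1) := by positivity
    symm
    apply Real.smoothTransition.one_of_one_le
    rw [le_div_iff₀ hp]
    linarith

theorem tendsto_ramp_right (ℓ : E3 →L[ℝ] ℝ) (z x : E3) (hx : ℓ (x - z) ≠ 0) :
    Tendsto (fun n : ℕ => ramp ℓ z 0 (1 / ((n : ℝ) + 1)) x) atTop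
      (𝓝 ({x | 0 < ℓ (x - z)}.indicator 1 x)) := by
  rcases lt_or_gt_of_ne hx with h | h
  · rw [indicator_of_notMem (by simp only [mem_ofPred_eq]; exact not_lt.2 h.le)]
    refine tendsto_const_nhds.congr' ?_
    refine Eventually.of_forall (fun n => ?_)
    have hp : (0 : ℝ) < 1 / ((n : ℝ) + 1) := by positivity
    symm
    apply Real.smoothTransition.zero_of_nonpos
    apply div_nonpos_of_nonpos_of_nonneg _ hp.le
    linarith
  · rw [indicator_of_mem (by exact h)]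
    have h1 : ∀ᶠ n : ℕ in atTop, 1 / ((n : ℝ) + 1) < ℓ (x - z) :=
      (tendsto_one_div_add_atTop_nhds_zero_nat (𝕜 := ℝ)).eventually (gt_mem_nhds h)
    refine tendsto_const_nhds.congr' ?_
    filter_upwards [h1] with n hn
    have hp : (0 : ℝ) < 1 / ((n : ℝ) + 1) := by positivity
    symm
    apply Real.smoothTransition.one_of_one_le
    rw [le_div_iff₀ hp]
    linarith

/-- A plane is a null set. -/
theorem volume_plane {ℓ : E3 →L[ℝ] ℝ} (hℓ : ℓ ≠ 0) (c : ℝ) : volume {x : E3 | ℓ x = c} = 0 := by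
  obtain ⟨u, hu⟩ : ∃ u, ℓ u ≠ 0 := by
    by_contra hcon
    push Not at hcon
    exact hℓ (ContinuousLinearMap.ext hcon)
  set p : E3 := (c / ℓ u) • u with hp
  have hℓp : ℓ p = c := by
    rw [hp, map_smul, smul_eq_mul, div_mul_cancel₀ _ hu]
  have hk : volume ((LinearMap.ker (ℓ : E3 →ₗ[ℝ] ℝ) : Submodule ℝ E3) : Set E3) = 0 := by
    apply Measure.addHaar_submodule
    intro h
    apply hu
    have : u ∈ LinearMap.ker (ℓ : E3 →ₗ[ℝ] ℝ) := by rw [h]; exact Submodule.mem_top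
    simpa using this
  have e : {x : E3 | ℓ x = c} = (fun x => x + -p) ⁻¹'
      ((LinearMap.ker (ℓ : E3 →ₗ[ℝ] ℝ) : Submodule ℝ E3) : Set E3) := by
    ext x
    simp only [mem_ofPred_eq, mem_preimage, SetLike.mem_coe, LinearMap.mem_ker]
    change ℓ x = c ↔ ℓ (x + -p) = 0
    rw [← sub_eq_add_neg, map_sub, hℓp, sub_eq_zero]
  rw [e, measure_preimage_add_right, hk]

theorem ae_ne_plane {ℓ : E3 →L[ℝ] ℝ} (hℓ : ℓ ≠ 0) (z : E3) : ∀ᵐ x : E3, ℓ (x - z) ≠ 0 := by
  have h := volume_plane hℓ (ℓ z)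
  rw [ae_iff]
  refine measure_mono_null ?_ h
  intro x hx
  simp only [ne_eq, not_not, mem_ofPred_eq, map_sub, sub_eq_zero] at hx ⊢
  exact hx

theorem tendsto_integral_ramp {f : E3 → E3} (hf : Measurable f) {M : ℝ} (hb : ∀ᵐ x, ‖f x‖ ≤ M)
    {ζ : E3 → ℝ} (h : IsTest ζ) {ℓ : E3 →L[ℝ] ℝ} (hℓ : ℓ ≠ 0) (z : E3) (r : ℕ → E3 → ℝ)
    (hr : ∀ n, Continuous (r n)) (hr1 : ∀ n x, |r n x| ≤ 1)
    (hlim : ∀ x, ℓ (x - z) ≠ 0 → Tendsto (fun n => r n x) atTop
      (𝓝 ({x | 0 < ℓ (x - z)}.indicator 1 x))) :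
    Tendsto (fun n => ∫ x, r n x * fderiv ℝ ζ x (f x)) atTop
      (𝓝 (∫ x, {x | 0 < ℓ (x - z)}.indicator 1 x * fderiv ℝ ζ x (f x))) := by
  have h1 := integrable_pair h hf hb
  refine tendsto_integral_of_dominated_convergence (fun x => ‖fderiv ℝ ζ x (f x)‖) ?_ h1.norm ?_ ?_
  · intro n
    exact (hr n).aestronglyMeasurable.mul h1.aestronglyMeasurable
  · intro n
    refine Eventually.of_forall (fun x => ?_)
    rw [norm_mul]
    calc ‖r n x‖ * ‖fderiv ℝ ζ x (f x)‖ ≤ 1 * ‖fderiv ℝ ζ x (f x)‖ :=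
          mul_le_mul_of_nonneg_right (hr1 n x) (norm_nonneg _)
      _ = ‖fderiv ℝ ζ x (f x)‖ := one_mul _
  · filter_upwards [ae_ne_plane hℓ z] with x hx
    exact (hlim x hx).mul_const _

/-! ### A radial test function -/

/-- The squared Euclidean distance. -/
noncomputable def sq (z x : E3) : ℝ := ∑ i : Fin 3, (x i - z i) ^ 2

theorem contDiff_sq (z : E3) : ContDiff ℝ ∞ (sq z) := by
  unfold sq
  fun_prop

theorem hasFDerivAt_sq (z x : E3) : HasFDerivAt (sq z)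
    (∑ i : Fin 3, (2 * (x i - z i)) • (ContinuousLinearMap.proj i : E3 →L[ℝ] ℝ)) x := by
  unfold sq
  refine HasFDerivAt.fun_sum (fun i _ => ?_)
  have h1 : HasFDerivAt (fun x : E3 => x i - z i) (ContinuousLinearMap.proj i : E3 →L[ℝ] ℝ) x :=
    ((ContinuousLinearMap.proj i : E3 →L[ℝ] ℝ).hasFDerivAt (x := x)).sub_const (z i)
  have h2 := h1.pow 2
  simpa using h2

theorem abs_sub_le_of_sq {z x : E3} {r : ℝ} (hr : 0 ≤ r) (h : sq z x ≤ 2 * r ^ 2) :
    dist x z ≤ 2 * r := by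
  rw [dist_pi_le_iff (by positivity)]
  intro i
  rw [Real.dist_eq]
  have h1 : (x i - z i) ^ 2 ≤ sq z x :=
    Finset.single_le_sum (f := fun i => (x i - z i) ^ 2) (fun i _ => sq_nonneg _)
      (Finset.mem_univ i)
  have h2 : (x i - z i) ^ 2 ≤ (2 * r) ^ 2 := by nlinarith
  exact abs_le_of_sq_le_sq h2 (by positivity)

/-- The radial test function. -/
noncomputable def rad (z : E3) (r : ℝ) (x : E3) : ℝ := T (2 - sq z x / r ^ 2)

theorem isTest_rad (z : E3) {r : ℝ} (hr : 0 < r) : IsTest (rad z r) where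
  smooth := by
    have h : ContDiff ℝ ∞ (fun x => 2 - sq z x / r ^ 2) :=
      contDiff_const.sub ((contDiff_sq z).div_const _)
    exact contDiff_T.comp h
  cpt := by
    refine HasCompactSupport.intro (isCompact_closedBall z (2 * r)) (fun x hx => ?_)
    apply Real.smoothTransition.zero_of_nonpos
    by_contra hcon
    push Not at hcon
    apply hx
    rw [mem_closedBall]
    apply abs_sub_le_of_sq hr.le
    have : sq z x / r ^ 2 < 2 := by linarith
    rw [div_lt_iff₀ (by positivity)] at this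
    exact this.le

theorem tsupport_rad (z : E3) {r : ℝ} (hr : 0 < r) : tsupport (rad z r) ⊆ closedBall z (2 * r) := by
  refine closure_minimal ?_ isClosed_closedBall
  intro x hx
  by_contra hcon
  apply hx
  apply Real.smoothTransition.zero_of_nonpos
  by_contra hcon2
  push Not at hcon2
  apply hcon
  rw [mem_closedBall]
  apply abs_sub_le_of_sq hr.le
  have : sq z x / r ^ 2 < 2 := by linarith
  rw [div_lt_iff₀ (by positivity)] at this
  exact this.le

theorem rad_nonneg (z : E3) (r : ℝ) (x : E3) : 0 ≤ rad z r x := Real.smoothTransition.nonneg _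

theorem fderiv_rad (z : E3) (r : ℝ) (x v : E3) : fderiv ℝ (rad z r) x v =
    -(deriv T (2 - sq z x / r ^ 2) * (∑ i : Fin 3, 2 * (x i - z i) * v i) / r ^ 2) := by
  have h1 : HasFDerivAt (fun x => 2 - sq z x / r ^ 2) (-((r ^ 2)⁻¹ •
      ∑ i : Fin 3, (2 * (x i - z i)) • (ContinuousLinearMap.proj i : E3 →L[ℝ] ℝ))) x := by
    have h2 := ((hasFDerivAt_sq z x).const_smul (r ^ 2)⁻¹).const_sub 2
    have e : (fun x => 2 - sq z x / r ^ 2) = fun x => 2 - ((r ^ 2)⁻¹ • sq z) x := by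
      ext y
      rw [Pi.smul_apply, smul_eq_mul, div_eq_inv_mul]
    rw [e]
    exact h2
  have h4 : HasDerivAt T (deriv T (2 - sq z x / r ^ 2)) (2 - sq z x / r ^ 2) :=
    ((contDiff_T.differentiable (by simp)) _).hasDerivAt
  have h5 := h4.comp_hasFDerivAt x h1
  have h6 : fderiv ℝ (rad z r) x = _ := h5.fderiv
  rw [h6]
  simp only [_root_.smul_apply, _root_.neg_apply,
    _root_.sum_apply, ContinuousLinearMap.proj_apply, smul_eq_mul]
  ring

end Run7.h895
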