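import Pool.Agent.Run7.h895.Jump

namespace Run7.h895

open MeasureTheory Filter Topology Set Metric
open scoped ContDiff

/-- The vector which represents `ℓ`. -/
noncomputable def rep (ℓ : E3 →L[ℝ] ℝ) : E3 := fun i => ℓ (Pi.single i 1)

theorem apply_eq_sum (ℓ : E3 →L[ℝ] ℝ) (x : E3) : ℓ x = ∑ i : Fin 3, x i * rep ℓ i := by
  have h : x = ∑ i : Fin 3, x i • (Pi.single i (1 : ℝ) : E3) := by
    ext j
    simp [Finset.sum_apply, Pi.single_apply]
  conv_lhs => rw [h]
  rw [map_sum]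
  refine Finset.sum_congr rfl (fun i _ => ?_)
  rw [map_smul, smul_eq_mul]
  rfl

theorem apply_rep (ℓ : E3 →L[ℝ] ℝ) : ℓ (rep ℓ) = ∑ i : Fin 3, rep ℓ i ^ 2 := by
  rw [apply_eq_sum]
  refine Finset.sum_congr rfl (fun i _ => ?_)
  ring

theorem apply_rep_pos {ℓ : E3 →L[ℝ] ℝ} (hℓ : ℓ ≠ 0) : 0 < ℓ (rep ℓ) := by
  rw [apply_rep]
  by_contra hcon
  push Not at hcon
  have h0 : ∀ i, rep ℓ i = 0 := by
    intro i
    have h1 : rep ℓ i ^ 2 ≤ ∑ i : Fin 3, rep ℓ i ^ 2 :=
      Finset.single_le_sum (f := fun i => rep ℓ i ^ 2) (fun i _ => sq_nonneg _) (Finset.mem_univ i)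
    nlinarith [sq_nonneg (rep ℓ i)]
  apply hℓ
  ext x
  rw [apply_eq_sum]
  simp [h0]

theorem fderiv_rad_rep (ℓ : E3 →L[ℝ] ℝ) (z : E3) (r : ℝ) (x : E3) :
    fderiv ℝ (rad z r) x (rep ℓ) =
      -(deriv T (2 - sq z x / r ^ 2) * (2 * ℓ (x - z)) / r ^ 2) := by
  rw [fderiv_rad, apply_eq_sum ℓ (x - z)]
  have : ∀ i : Fin 3, 2 * (x i - z i) * rep ℓ i = 2 * ((x - z) i * rep ℓ i) := by
    intro i
    simp only [Pi.sub_apply]
    ring
  simp only [this]
  rw [← Finset.mul_sum]

theorem half_integral_neg {ℓ : E3 →L[ℝ] ℝ} (hℓ : ℓ ≠ 0) (z : E3) {r : ℝ} (hr : 0 < r) :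
    ∫ x, {x | 0 < ℓ (x - z)}.indicator 1 x * fderiv ℝ (rad z r) x (rep ℓ) < 0 := by
  have hrad := isTest_rad z hr
  have hopen : IsOpen {x : E3 | 0 < ℓ (x - z)} :=
    isOpen_lt continuous_const (ℓ.continuous.comp (by fun_prop))
  have hle : ∀ x, {x : E3 | 0 < ℓ (x - z)}.indicator (1 : E3 → ℝ) x *
      fderiv ℝ (rad z r) x (rep ℓ) ≤ 0 := by
    intro x
    by_cases hx : 0 < ℓ (x - z)
    · rw [indicator_of_mem (by exact hx), Pi.one_apply, one_mul, fderiv_rad_rep]
      rw [neg_nonpos]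
      have := deriv_T_nonneg (2 - sq z x / r ^ 2)
      positivity
    · rw [indicator_of_notMem (by exact hx), zero_mul]
  have hint : Integrable (fun x => {x : E3 | 0 < ℓ (x - z)}.indicator (1 : E3 → ℝ) x *
      fderiv ℝ (rad z r) x (rep ℓ)) := by
    have h1 : Integrable (fun x => fderiv ℝ (rad z r) x (rep ℓ)) :=
      integrable_pair hrad (g := fun _ => rep ℓ) measurable_const (C := ‖rep ℓ‖)
        (Eventually.of_forall (fun _ => le_rfl))
    refine h1.norm.mono' ((measurable_one.indicator hopen.measurableSet).aestronglyMeasurable.mul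
      h1.aestronglyMeasurable) (Eventually.of_forall (fun x => ?_))
    rw [norm_mul]
    calc ‖{x : E3 | 0 < ℓ (x - z)}.indicator (1 : E3 → ℝ) x‖ * ‖fderiv ℝ (rad z r) x (rep ℓ)‖
        ≤ 1 * ‖fderiv ℝ (rad z r) x (rep ℓ)‖ := by
          refine mul_le_mul_of_nonneg_right ?_ (norm_nonneg _)
          by_cases hx : 0 < ℓ (x - z)
          · rw [indicator_of_mem (by exact hx)]
            simp
          · rw [indicator_of_notMem (by exact hx)]
            simp
      _ = _ := one_mul _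
  refine lt_of_le_of_ne (integral_nonpos hle) ?_
  intro hzero
  have hz : (fun x => -({x : E3 | 0 < ℓ (x - z)}.indicator (1 : E3 → ℝ) x *
      fderiv ℝ (rad z r) x (rep ℓ))) =ᵐ[volume] 0 := by
    have hint' : Integrable (fun x => -({x : E3 | 0 < ℓ (x - z)}.indicator (1 : E3 → ℝ) x *
        fderiv ℝ (rad z r) x (rep ℓ))) := hint.neg
    have hle' : 0 ≤ fun x => -({x : E3 | 0 < ℓ (x - z)}.indicator (1 : E3 → ℝ) x *
        fderiv ℝ (rad z r) x (rep ℓ)) := fun x => neg_nonneg.2 (hle x)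
    refine (integral_eq_zero_iff_of_nonneg hle' hint').1 ?_
    rw [integral_neg, hzero, neg_zero]
  -- the derivative vanishes on the half space
  have hder : ∀ x, 0 < ℓ (x - z) → fderiv ℝ (rad z r) x (rep ℓ) = 0 := by
    have hc : Continuous (fun x => fderiv ℝ (rad z r) x (rep ℓ)) :=
      hrad.continuous_fderiv.clm_apply continuous_const
    have h1 : (fun x => fderiv ℝ (rad z r) x (rep ℓ)) =ᵐ[volume.restrict {x : E3 | 0 < ℓ (x - z)}]
        (fun _ => 0) := by
      rw [EventuallyEq, ae_restrict_iff' hopen.measurableSet]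
      filter_upwards [hz] with x hx hx0
      rw [indicator_of_mem (by exact hx0)] at hx
      simpa using hx
    intro x hx
    exact Measure.eqOn_open_of_ae_eq h1 hopen hc.continuousOn continuousOn_const hx
  -- along the line through `z`
  set S := ℓ (rep ℓ) with hS
  have hSpos : 0 < S := apply_rep_pos hℓ
  set N := Real.sqrt (2 * r ^ 2 / S) with hN
  have hN0 : 0 ≤ N := Real.sqrt_nonneg _
  have hNsq : N ^ 2 * S = 2 * r ^ 2 := by
    rw [hN, Real.sq_sqrt (by positivity), div_mul_cancel₀ _ hSpos.ne']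
  have hsq : ∀ t : ℝ, sq z (z + t • rep ℓ) = t ^ 2 * S := by
    intro t
    rw [hS, apply_rep, Finset.mul_sum]
    unfold sq
    refine Finset.sum_congr rfl (fun i _ => ?_)
    simp only [Pi.add_apply, Pi.smul_apply, smul_eq_mul]
    ring
  have hline : ∀ t : ℝ, 0 ≤ t → HasDerivAt (fun t : ℝ => rad z r (z + t • rep ℓ)) 0 t := by
    intro t ht
    have h1 : HasDerivAt (fun t : ℝ => z + t • rep ℓ) (rep ℓ) t := by
      have := ((hasDerivAt_id t).smul_const (rep ℓ)).const_add z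
      simpa using this
    have h2 : HasFDerivAt (rad z r) (fderiv ℝ (rad z r) (z + t • rep ℓ)) (z + t • rep ℓ) :=
      (hrad.contDiff.differentiable (by simp) _).hasFDerivAt
    have h3 := h2.comp_hasDerivAt t h1
    have h4 : fderiv ℝ (rad z r) (z + t • rep ℓ) (rep ℓ) = 0 := by
      rcases ht.eq_or_lt with rfl | ht
      · rw [fderiv_rad_rep]
        simp
      · apply hder
        rw [add_sub_cancel_left, map_smul, smul_eq_mul]
        exact mul_pos ht hSpos
    rw [h4] at h3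
    exact h3
  have hconst := constant_of_has_deriv_right_zero (a := (0 : ℝ)) (b := N)
    (f := fun t : ℝ => rad z r (z + t • rep ℓ))
    (fun t ht => (hline t ht.1).continuousAt.continuousWithinAt)
    (fun t ht => (hline t ht.1).hasDerivWithinAt) N ⟨hN0, le_rfl⟩
  have e0 : rad z r (z + (0 : ℝ) • rep ℓ) = 1 := by
    unfold rad
    rw [hsq]
    apply Real.smoothTransition.one_of_one_le
    norm_num
  have e1 : rad z r (z + N • rep ℓ) = 0 := by
    unfold rad
    rw [hsq, hNsq]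
    apply Real.smoothTransition.zero_of_nonpos
    rw [mul_div_cancel_right₀ _ (by positivity)]
    norm_num
  simp only [e0, e1] at hconst
  exact zero_ne_one hconst

/-- The normal component of a divergence free field cannot jump down across a plane. -/
theorem jump {f : E3 → E3} (hf : Measurable f) {M : ℝ} (hb : ∀ᵐ x, ‖f x‖ ≤ M) {z : E3} {ρ : ℝ}
    (hρ : 0 < ρ) {ℓ : E3 →L[ℝ] ℝ} (hℓ : ℓ ≠ 0)
    (hdiv : ∀ ζ, IsTest ζ → tsupport ζ ⊆ ball z ρ → ∫ x, fderiv ℝ ζ x (f x) = 0)
    {α β : ℝ} (h1 : ∀ x ∈ ball z ρ, ℓ x < ℓ z → α ≤ ℓ (f x))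
    (h2 : ∀ x ∈ ball z ρ, ℓ z < ℓ x → ℓ (f x) ≤ β) : α ≤ β := by
  set r := ρ / 3 with hr
  have hr0 : 0 < r := by positivity
  set ζ := rad z r with hζdef
  have hζ : IsTest ζ := isTest_rad z hr0
  have hsup : tsupport ζ ⊆ ball z ρ := by
    refine (tsupport_rad z hr0).trans ?_
    apply closedBall_subset_ball
    rw [hr]
    linarith
  set u := rep ℓ with hu
  have hS : 0 < ℓ u := apply_rep_pos hℓ
  -- constant fields
  have hbu : ∀ᵐ _x : E3, ‖u‖ ≤ ‖u‖ := Eventually.of_forall (fun _ => le_rfl)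
  have hmu : Measurable (fun _ : E3 => u) := measurable_const
  set A := ∫ x, {x | 0 < ℓ (x - z)}.indicator 1 x * fderiv ℝ ζ x (f x) with hA
  set B := ∫ x, {x | 0 < ℓ (x - z)}.indicator 1 x * fderiv ℝ ζ x u with hB
  have hBneg : B < 0 := half_integral_neg hℓ z hr0
  have hζout : ∀ x, x ∉ ball z ρ → ζ x = 0 := fun x hx =>
    image_eq_zero_of_notMem_tsupport (fun h => hx (hsup h))
  -- left ramps
  have hleft : A * ℓ u ≤ α * B := by
    have t1 := tendsto_integral_ramp hf hb hζ hℓ z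
      (fun n : ℕ => ramp ℓ z (1 / ((n : ℝ) + 1)) (1 / ((n : ℝ) + 1)))
      (fun n => (contDiff_ramp _ _ _ _).continuous) (fun n x => abs_ramp_le _ _ _ _ _)
      (fun x hx => tendsto_ramp_left ℓ z x hx)
    have t2 := tendsto_integral_ramp hmu hbu hζ hℓ z
      (fun n : ℕ => ramp ℓ z (1 / ((n : ℝ) + 1)) (1 / ((n : ℝ) + 1)))
      (fun n => (contDiff_ramp _ _ _ _).continuous) (fun n x => abs_ramp_le _ _ _ _ _)
      (fun x hx => tendsto_ramp_left ℓ z x hx)
    refine le_of_tendsto_of_tendsto' (t1.mul_const (ℓ u)) (t2.const_mul α) (fun n => ?_)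
    set δ : ℝ := 1 / ((n : ℝ) + 1) with hδ
    have hδ0 : 0 < δ := by positivity
    obtain ⟨j1, k1⟩ := ramp_identity hf hb hζ ℓ z δ δ
      (hdiv _ (hζ.mul_ramp ℓ z δ δ) ((tsupport_mul_ramp ℓ z δ δ).trans hsup))
    obtain ⟨j2, k2⟩ := ramp_identity hmu hbu hζ ℓ z δ δ
      ((hζ.mul_ramp ℓ z δ δ).integral_fderiv u)
    rw [k1, k2, neg_mul, mul_neg, neg_le_neg_iff, ← integral_const_mul, ← integral_mul_const]
    refine integral_mono (j2.const_mul α) (j1.mul_const (ℓ u)) (fun x => ?_)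
    simp only
    by_cases hw : deriv T ((ℓ (x - z) + δ) / δ) = 0
    · rw [hw]
      simp
    by_cases hx : x ∈ ball z ρ
    · have hlt : ℓ x < ℓ z := by
        by_contra hcon
        push Not at hcon
        apply hw
        apply deriv_T_of_one_le
        rw [le_div_iff₀ hδ0, map_sub]
        linarith
      have h5 := h1 x hx hlt
      have h6 : 0 ≤ ζ x * (deriv T ((ℓ (x - z) + δ) / δ) / δ) * ℓ u := by
        have := deriv_T_nonneg ((ℓ (x - z) + δ) / δ)
        have h7 : 0 ≤ ζ x := rad_nonneg z r x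
        positivity
      nlinarith
    · rw [hζout x hx]
      simp
  have hright : β * B ≤ A * ℓ u := by
    have t1 := tendsto_integral_ramp hf hb hζ hℓ z
      (fun n : ℕ => ramp ℓ z 0 (1 / ((n : ℝ) + 1)))
      (fun n => (contDiff_ramp _ _ _ _).continuous) (fun n x => abs_ramp_le _ _ _ _ _)
      (fun x hx => tendsto_ramp_right ℓ z x hx)
    have t2 := tendsto_integral_ramp hmu hbu hζ hℓ z
      (fun n : ℕ => ramp ℓ z 0 (1 / ((n : ℝ) + 1)))
      (fun n => (contDiff_ramp _ _ _ _).continuous) (fun n x => abs_ramp_le _ _ _ _ _)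
      (fun x hx => tendsto_ramp_right ℓ z x hx)
    refine le_of_tendsto_of_tendsto' (t2.const_mul β) (t1.mul_const (ℓ u)) (fun n => ?_)
    set δ : ℝ := 1 / ((n : ℝ) + 1) with hδ
    have hδ0 : 0 < δ := by positivity
    obtain ⟨j1, k1⟩ := ramp_identity hf hb hζ ℓ z 0 δ
      (hdiv _ (hζ.mul_ramp ℓ z 0 δ) ((tsupport_mul_ramp ℓ z 0 δ).trans hsup))
    obtain ⟨j2, k2⟩ := ramp_identity hmu hbu hζ ℓ z 0 δ
      ((hζ.mul_ramp ℓ z 0 δ).integral_fderiv u)
    rw [k1, k2, neg_mul, mul_neg, neg_le_neg_iff, ← integral_const_mul, ← integral_mul_const]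
    refine integral_mono (j1.mul_const (ℓ u)) (j2.const_mul β) (fun x => ?_)
    simp only
    by_cases hw : deriv T ((ℓ (x - z) + 0) / δ) = 0
    · rw [hw]
      simp
    by_cases hx : x ∈ ball z ρ
    · have hlt : ℓ z < ℓ x := by
        by_contra hcon
        push Not at hcon
        apply hw
        apply deriv_T_of_nonpos
        apply div_nonpos_of_nonpos_of_nonneg _ hδ0.le
        rw [map_sub]
        linarith
      have h5 := h2 x hx hlt
      have h6 : 0 ≤ ζ x * (deriv T ((ℓ (x - z) + 0) / δ) / δ) * ℓ u := by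
        have := deriv_T_nonneg ((ℓ (x - z) + 0) / δ)
        have h7 : 0 ≤ ζ x := rad_nonneg z r x
        positivity
      nlinarith
    · rw [hζout x hx]
      simp
  have h3 : β * B ≤ α * B := hright.trans hleft
  nlinarith

end Run7.h895
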