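import Pool.Agent.Run7.h895.Flex

namespace Run7.h895

open MeasureTheory Filter Topology Set Metric
open scoped ContDiff

/-- The situation: two maximizers whose difference is continuous off a closed set. -/
structure Pair (ent : E3 → ℝ) (R : Set E3) (b : (E3 → ℝ) → ℝ) (g₁ g₂ : E3 → E3) (Z : Set E3) :
    Prop where
  hent : EntLike ent
  hR : IsCompact R
  hpos : volume R ≠ 0
  h₁ : IsMaximizer ent R b g₁
  h₂ : IsMaximizer ent R b g₂
  hZ : IsClosed Z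
  hc : ∀ x, x ∉ Z → ContinuousAt (fun x => g₁ x - g₂ x) x
  hc1 : ∀ x, x ∉ Z → g₁ x ≠ g₂ x → ContinuousAt g₁ x

/-- The set where the two fields differ. -/
def VV (g₁ g₂ : E3 → E3) (Z : Set E3) : Set E3 := {x | x ∉ Z ∧ g₁ x ≠ g₂ x}

section

variable {ent : E3 → ℝ} {R : Set E3} {b : (E3 → ℝ) → ℝ} {g₁ g₂ : E3 → E3} {Z : Set E3}

theorem Pair.cont2 (H : Pair ent R b g₁ g₂ Z) {x : E3} (hx : x ∈ VV g₁ g₂ Z) :
    ContinuousAt g₂ x := by
  have h1 := H.hc1 x hx.1 hx.2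
  have h2 := H.hc x hx.1
  have h3 : ContinuousAt (fun y => g₁ y - (g₁ y - g₂ y)) x := h1.sub h2
  simp only [sub_sub_cancel] at h3
  exact h3

theorem Pair.symm (H : Pair ent R b g₁ g₂ Z) : Pair ent R b g₂ g₁ Z where
  hent := H.hent
  hR := H.hR
  hpos := H.hpos
  h₁ := H.h₂
  h₂ := H.h₁
  hZ := H.hZ
  hc := fun x hx => by
    have h3 : ContinuousAt (fun y => -(g₁ y - g₂ y)) x := (H.hc x hx).neg
    simp only [neg_sub] at h3
    exact h3
  hc1 := fun x hx hne => H.cont2 ⟨hx, hne.symm⟩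

theorem Pair.isOpen_VV (H : Pair ent R b g₁ g₂ Z) : IsOpen (VV g₁ g₂ Z) := by
  rw [isOpen_iff_mem_nhds]
  intro x hx
  have h1 : ∀ᶠ y in 𝓝 x, y ∉ Z := H.hZ.isOpen_compl.mem_nhds hx.1
  have h2 : ∀ᶠ y in 𝓝 x, g₁ y - g₂ y ≠ 0 :=
    (H.hc x hx.1).eventually_ne (sub_ne_zero.2 hx.2)
  filter_upwards [h1, h2] with y hy1 hy2
  exact ⟨hy1, sub_ne_zero.1 hy2⟩

theorem isClosed_onEdge : IsClosed {p : E3 × E3 | OnEdge p.1 p.2} := by
  have h : {p : E3 × E3 | OnEdge p.1 p.2} =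
      ⋃ q : Fin 3 × Fin 3, ⋃ a ∈ ({1, -1} : Finset ℝ), ⋃ b ∈ ({1, -1} : Finset ℝ),
        {p : E3 × E3 | q.1 ≠ q.2 ∧ p.1 ∈ edgeFace q.1 q.2 a b ∧ p.2 ∈ edgeFace q.1 q.2 a b} := by
    ext p
    simp only [mem_ofPred_eq, mem_iUnion, exists_prop, Prod.exists, Finset.mem_insert,
      Finset.mem_singleton, onEdge_iff]
    constructor
    · rintro ⟨i, j, a, b, hij, ha, hb, h1, h2⟩
      exact ⟨i, j, a, ha, b, hb, hij, h1, h2⟩
    · rintro ⟨i, j, a, ha, b, hb, hij, h1, h2⟩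
      exact ⟨i, j, a, b, hij, ha, hb, h1, h2⟩
  rw [h]
  refine isClosed_iUnion_of_finite (fun q => ?_)
  refine isClosed_biUnion_finset (fun a _ => isClosed_biUnion_finset (fun b _ => ?_))
  by_cases hq : q.1 = q.2
  · simp [hq]
  · have : {p : E3 × E3 | q.1 ≠ q.2 ∧ p.1 ∈ edgeFace q.1 q.2 a b ∧ p.2 ∈ edgeFace q.1 q.2 a b} =
        (Prod.fst ⁻¹' edgeFace q.1 q.2 a b) ∩ (Prod.snd ⁻¹' edgeFace q.1 q.2 a b) := by
      ext p
      simp [hq]
    rw [this]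
    exact ((isClosed_edgeFace _ _ _ _).preimage continuous_fst).inter
      ((isClosed_edgeFace _ _ _ _).preimage continuous_snd)

/-- The pairs of points of a common edge along which the entropy is affine. -/
def GoodPairs (ent : E3 → ℝ) : Set (E3 × E3) := {p | OnEdge p.1 p.2 ∧
  ent (mp p.1 p.2) = (1 / 2) * ent p.1 + (1 / 2) * ent p.2}

theorem continuous_mp : Continuous (fun p : E3 × E3 => mp p.1 p.2) := by
  unfold mp
  fun_prop

theorem mp_mem_Oct {s t : E3} (hs : s ∈ Oct) (ht : t ∈ Oct) : mp s t ∈ Oct := by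
  have := combo_mem_Oct hs ht (c := 0) (by norm_num)
  rwa [zero_smul, add_zero] at this

theorem isClosed_goodPairs (hent : EntLike ent) : IsClosed (GoodPairs ent) := by
  have h1 : ContinuousOn (fun p : E3 × E3 => ent (mp p.1 p.2) -
      ((1 / 2) * ent p.1 + (1 / 2) * ent p.2)) {p : E3 × E3 | OnEdge p.1 p.2} := by
    refine ContinuousOn.sub ?_ (ContinuousOn.add ?_ ?_)
    · exact hent.cont.comp continuous_mp.continuousOn
        (fun p hp => mp_mem_Oct (OnEdge.mem_left hp) (OnEdge.mem_right hp))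
    · exact continuousOn_const.mul (hent.cont.comp continuous_fst.continuousOn
        (fun p hp => OnEdge.mem_left hp))
    · exact continuousOn_const.mul (hent.cont.comp continuous_snd.continuousOn
        (fun p hp => OnEdge.mem_right hp))
  have h2 := h1.preimage_isClosed_of_isClosed isClosed_onEdge (isClosed_singleton (x := (0 : ℝ)))
  have h3 : GoodPairs ent = {p : E3 × E3 | OnEdge p.1 p.2} ∩ (fun p : E3 × E3 =>
      ent (mp p.1 p.2) - ((1 / 2) * ent p.1 + (1 / 2) * ent p.2)) ⁻¹' {0} := by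
    ext p
    simp only [GoodPairs, mem_ofPred_eq, mem_inter_iff, mem_preimage, mem_singleton_iff,
      sub_eq_zero]
  rw [h3]
  exact h2

theorem frequently_of_ae {p : E3 → Prop} (h : ∀ᵐ x, p x) {U : Set E3} (hU : IsOpen U) {x : E3}
    (hx : x ∈ U) : ∃ᶠ y in 𝓝 x, p y ∧ y ∈ U := by
  rw [Filter.frequently_iff]
  intro W hW
  have h1 : interior W ∩ U ∈ 𝓝 x := inter_mem (interior_mem_nhds.2 hW) (hU.mem_nhds hx)
  have h2 : volume (interior W ∩ U) ≠ 0 :=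
    ((isOpen_interior.inter hU).measure_pos volume ⟨x, mem_of_mem_nhds h1⟩).ne'
  by_contra hcon
  push Not at hcon
  apply h2
  refine measure_mono_null ?_ h
  intro y hy hpy
  exact hcon y (interior_subset hy.1) hpy hy.2

theorem Pair.good (H : Pair ent R b g₁ g₂ Z) {x : E3} (hx : x ∈ VV g₁ g₂ Z) :
    (g₁ x, g₂ x) ∈ GoodPairs ent := by
  have h1 := (mid_ae H.hent H.hR H.hpos H.h₁ H.h₂).1
  have h2 := frequently_of_ae h1 H.isOpen_VV hx
  have h3 : Tendsto (fun y => (g₁ y, g₂ y)) (𝓝 x) (𝓝 (g₁ x, g₂ x)) :=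
    (H.hc1 x hx.1 hx.2).prodMk_nhds (H.cont2 hx)
  refine (isClosed_goodPairs H.hent).mem_of_frequently_of_tendsto ?_ h3
  refine h2.mono (fun y hy => ?_)
  obtain ⟨hy1, hy2⟩ := hy
  exact hy1 hy2.2

theorem Pair.subset_R (H : Pair ent R b g₁ g₂ Z) : VV g₁ g₂ Z ⊆ interior R := by
  refine interior_maximal ?_ H.isOpen_VV
  intro x hx
  have h1 : ∀ᵐ y, g₁ y ≠ g₂ y → y ∈ R := by
    filter_upwards [H.h₁.1.1.zero, H.h₂.1.1.zero] with y hy1 hy2 hne
    by_contra hy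
    exact hne (by rw [hy1 hy, hy2 hy])
  have h2 := frequently_of_ae h1 H.isOpen_VV hx
  refine H.hR.isClosed.mem_of_frequently_of_tendsto (f := fun y => y) ?_ tendsto_id
  refine h2.mono (fun y hy => hy.1 hy.2.2)

theorem Pair.divfree (H : Pair ent R b g₁ g₂ Z) {ζ : E3 → ℝ} (hζ : IsTest ζ)
    (hs : tsupport ζ ⊆ interior R) : ∫ x, fderiv ℝ ζ x (g₁ x) = 0 := by
  have := H.h₁.1.1.divfree ζ hζ hs
  unfold divP at this
  linarith

/-- The local structure. -/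
theorem Pair.loc (H : Pair ent R b g₁ g₂ Z) {x₀ : E3} (hx : x₀ ∈ VV g₁ g₂ Z) :
    ∃ r : ℝ, 0 < r ∧ ball x₀ r ⊆ VV g₁ g₂ Z ∧ ∀ x ∈ ball x₀ r,
      (∃ c : ℝ, g₁ x = g₁ x₀ + c • (g₁ x₀ - g₂ x₀)) ∧
      (∃ c : ℝ, g₂ x = g₂ x₀ + c • (g₁ x₀ - g₂ x₀)) := by
  have hcont : ContinuousAt (fun y => (g₁ y, g₂ y)) x₀ :=
    (H.hc1 x₀ hx.1 hx.2).prodMk (H.cont2 hx)
  have key : ∀ᶠ x in 𝓝 x₀, ∀ i j : Fin 3, ∀ a ∈ ({1, -1} : Finset ℝ),
      ∀ b ∈ ({1, -1} : Finset ℝ), g₁ x ∈ edgeFace i j a b → g₂ x ∈ edgeFace i j a b →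
        g₁ x₀ ∈ edgeFace i j a b ∧ g₂ x₀ ∈ edgeFace i j a b := by
    rw [eventually_all]
    intro i
    rw [eventually_all]
    intro j
    rw [Filter.eventually_all_finset]
    intro a ha
    rw [Filter.eventually_all_finset]
    intro b hb
    by_cases hin : g₁ x₀ ∈ edgeFace i j a b ∧ g₂ x₀ ∈ edgeFace i j a b
    · exact Eventually.of_forall (fun x _ _ => hin)
    · have hcl : IsClosed ((Prod.fst ⁻¹' edgeFace i j a b) ∩
          (Prod.snd ⁻¹' edgeFace i j a b) : Set (E3 × E3)) :=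
        ((isClosed_edgeFace _ _ _ _).preimage continuous_fst).inter
          ((isClosed_edgeFace _ _ _ _).preimage continuous_snd)
      have h1 : ∀ᶠ x in 𝓝 x₀, (g₁ x, g₂ x) ∈ ((Prod.fst ⁻¹' edgeFace i j a b) ∩
          (Prod.snd ⁻¹' edgeFace i j a b) : Set (E3 × E3))ᶜ :=
        hcont (hcl.isOpen_compl.mem_nhds (by
          intro h
          exact hin h))
      filter_upwards [h1] with x hx1 h2 h3
      exact absurd ⟨h2, h3⟩ hx1
  have hopen := H.isOpen_VV.mem_nhds hx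
  obtain ⟨r, hr, hball⟩ := Metric.eventually_nhds_iff_ball.1 (key.and hopen)
  refine ⟨r, hr, fun x hxr => (hball x hxr).2, fun x hxr => ?_⟩
  obtain ⟨k1, k2⟩ := hball x hxr
  obtain ⟨i, j, a, b', hij, ha, hb, h3, h4⟩ := onEdge_iff.1 (H.good k2).1
  have ha' : a ∈ ({1, -1} : Finset ℝ) := by simpa using ha
  have hb' : b' ∈ ({1, -1} : Finset ℝ) := by simpa using hb
  obtain ⟨h5, h6⟩ := k1 i j a ha' b' hb' h3 h4
  obtain ⟨c, hc⟩ := parallel_of_mem_edgeFace hij ha hb h5 h6 h3 h5 hx.2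
  obtain ⟨c', hc'⟩ := parallel_of_mem_edgeFace hij ha hb h5 h6 h4 h6 hx.2
  exact ⟨⟨c, by rw [← hc]; abel⟩, ⟨c', by rw [← hc']; abel⟩⟩

theorem Pair.local_const (H : Pair ent R b g₁ g₂ Z) {x₀ : E3} (hx : x₀ ∈ VV g₁ g₂ Z) :
    ∀ᶠ t : ℝ in 𝓝 0, g₁ (x₀ + t • (g₁ x₀ - g₂ x₀)) = g₁ x₀ := by
  obtain ⟨r, hr, hball, hloc⟩ := H.loc hx
  have hcont : ContinuousOn g₁ (ball x₀ r) := fun x hxr =>
    (H.hc1 x (hball hxr).1 (hball hxr).2).continuousWithinAt
  have hdiv : ∀ ζ, IsTest ζ → tsupport ζ ⊆ ball x₀ r → ∫ x, fderiv ℝ ζ x (g₁ x) = 0 :=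
    fun ζ hζ hs => H.divfree hζ (hs.trans (hball.trans H.subset_R))
  have hc : Tendsto (fun t : ℝ => x₀ + t • (g₁ x₀ - g₂ x₀)) (𝓝 0) (𝓝 x₀) := by
    have : Continuous (fun t : ℝ => x₀ + t • (g₁ x₀ - g₂ x₀)) := by fun_prop
    have h := this.tendsto 0
    simpa using h
  filter_upwards [hc (ball_mem_nhds x₀ hr)] with t ht
  exact const_along hcont (fun x hx => (hloc x hx).1) hdiv (mem_ball_self hr) ht

/-- Propagation along a segment which avoids `Z`. -/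
theorem Pair.propagate (H : Pair ent R b g₁ g₂ Z) {x₀ : E3} (hx : x₀ ∈ VV g₁ g₂ Z) {τ : ℝ}
    (hseg : ∀ t ∈ Icc (0 : ℝ) τ, x₀ + t • (g₁ x₀ - g₂ x₀) ∉ Z) :
    ∀ t ∈ Icc (0 : ℝ) τ, g₁ (x₀ + t • (g₁ x₀ - g₂ x₀)) = g₁ x₀ ∧
      g₂ (x₀ + t • (g₁ x₀ - g₂ x₀)) = g₂ x₀ := by
  set d : E3 := g₁ x₀ - g₂ x₀ with hd
  set s : Set ℝ := {t | g₁ (x₀ + t • d) = g₁ x₀ ∧ g₂ (x₀ + t • d) = g₂ x₀} with hs
  have hmain : Icc (0 : ℝ) τ ⊆ s := by
    refine IsClosed.Icc_subset_of_forall_mem_nhdsWithin ?_ ?_ ?_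
    · -- closed
      refine isClosed_of_closure_subset (fun t ht => ?_)
      obtain ⟨u, hu, hut⟩ := mem_closure_iff_seq_limit.1 ht
      have htI : t ∈ Icc (0 : ℝ) τ := isClosed_Icc.mem_of_tendsto hut
        (Eventually.of_forall (fun n => (hu n).2))
      have hline : Tendsto (fun n => x₀ + u n • d) atTop (𝓝 (x₀ + t • d)) :=
        tendsto_const_nhds.add (hut.smul_const d)
      have h1 : Tendsto (fun n => g₁ (x₀ + u n • d) - g₂ (x₀ + u n • d)) atTop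
          (𝓝 (g₁ (x₀ + t • d) - g₂ (x₀ + t • d))) :=
        (H.hc _ (hseg t htI)).tendsto.comp hline
      have h2 : g₁ (x₀ + t • d) - g₂ (x₀ + t • d) = d := by
        refine tendsto_nhds_unique h1 ?_
        refine tendsto_const_nhds.congr (fun n => ?_)
        rw [(hu n).1.1, (hu n).1.2]
      have hVt : x₀ + t • d ∈ VV g₁ g₂ Z := by
        refine ⟨hseg t htI, fun h => hx.2 ?_⟩
        rw [h, sub_self] at h2
        exact sub_eq_zero.1 h2.symm
      have h3 : Tendsto (fun n => g₁ (x₀ + u n • d)) atTop (𝓝 (g₁ (x₀ + t • d))) :=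
        (H.hc1 _ hVt.1 hVt.2).tendsto.comp hline
      have h4 : Tendsto (fun n => g₂ (x₀ + u n • d)) atTop (𝓝 (g₂ (x₀ + t • d))) :=
        (H.cont2 hVt).tendsto.comp hline
      refine ⟨⟨?_, ?_⟩, htI⟩
      · refine tendsto_nhds_unique h3 ?_
        exact tendsto_const_nhds.congr (fun n => ((hu n).1.1).symm)
      · refine tendsto_nhds_unique h4 ?_
        exact tendsto_const_nhds.congr (fun n => ((hu n).1.2).symm)
    · simp [hs]
    · rintro t ⟨⟨ht1, ht2⟩, htI⟩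
      have hdt : g₁ (x₀ + t • d) - g₂ (x₀ + t • d) = d := by rw [ht1, ht2]
      have hVt : x₀ + t • d ∈ VV g₁ g₂ Z := by
        refine ⟨hseg t ⟨htI.1, htI.2.le⟩, fun h => hx.2 ?_⟩
        rw [← ht1, ← ht2, h]
      have k1 := H.local_const hVt
      have k2 := H.symm.local_const (x₀ := x₀ + t • d) ⟨hVt.1, hVt.2.symm⟩
      rw [hdt] at k1
      have hdt' : g₂ (x₀ + t • d) - g₁ (x₀ + t • d) = -d := by rw [ht1, ht2, hd]; abel
      rw [hdt'] at k2
      have c1 : Tendsto (fun t' : ℝ => t' - t) (𝓝 t) (𝓝 0) := by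
        have : Continuous (fun t' : ℝ => t' - t) := by fun_prop
        have h := this.tendsto t
        simpa using h
      have c2 : Tendsto (fun t' : ℝ => t - t') (𝓝 t) (𝓝 0) := by
        have : Continuous (fun t' : ℝ => t - t') := by fun_prop
        have h := this.tendsto t
        simpa using h
      have e1 := c1.eventually k1
      have e2 := c2.eventually k2
      have : s ∈ 𝓝 t := by
        filter_upwards [e1, e2] with t' h1 h2
        have a1 : x₀ + t • d + (t' - t) • d = x₀ + t' • d := by module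
        have a2 : x₀ + t • d + (t - t') • -d = x₀ + t' • d := by module
        rw [a1] at h1
        rw [a2] at h2
        exact ⟨h1.trans ht1, h2.trans ht2⟩
      exact mem_nhdsWithin_of_mem_nhds this
  exact fun t ht => hmain ht

end

end Run7.h895
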