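import Pool.Agent.Run7.h895.Cross

namespace Run7.h895

open MeasureTheory Filter Topology Set Metric
open scoped ContDiff

section

variable {ent : E3 → ℝ} {R : Set E3} {b : (E3 → ℝ) → ℝ} {g₁ g₂ : E3 → E3} {Z : Set E3}

theorem Pair.div_diff (H : Pair ent R b g₁ g₂ Z) {ζ : E3 → ℝ} (hζ : IsTest ζ) :
    ∫ x, fderiv ℝ ζ x (g₁ x - g₂ x) = 0 := by
  have h1 := H.h₁.1.2 ζ hζ
  have h2 := H.h₂.1.2 ζ hζ
  unfold divP at h1 h2
  simp only [map_sub]
  rw [integral_sub (H.h₁.1.1.integrable_pair hζ) (H.h₂.1.1.integrable_pair hζ)]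
  linarith

theorem Pair.norm_le (H : Pair ent R b g₁ g₂ Z) {x : E3} (hx : x ∈ VV g₁ g₂ Z) :
    ‖g₁ x - g₂ x‖ ≤ 2 := by
  have h := (H.good hx).1
  have h1 := norm_le_of_mem_Oct (OnEdge.mem_left h)
  have h2 := norm_le_of_mem_Oct (OnEdge.mem_right h)
  calc ‖g₁ x - g₂ x‖ ≤ ‖g₁ x‖ + ‖g₂ x‖ := norm_sub_le _ _
    _ ≤ 1 + 1 := add_le_add h1 h2
    _ = 2 := by norm_num

/-- The difference crosses a plane without being changed. -/
theorem Pair.crossing (H : Pair ent R b g₁ g₂ Z) {z : E3} {ρ : ℝ} (hρ : 0 < ρ)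
    {ℓ : E3 →L[ℝ] ℝ} (hZ : ∀ x ∈ ball z ρ, ℓ x ≠ ℓ z → x ∉ Z) {y d : E3} (hy : y ∈ ball z ρ)
    (hyd : g₁ y - g₂ y = d) (hd : 0 < ℓ d) {t : ℝ} (ht : 0 < t) (hz : z = y + t • d) :
    ∀ᶠ s : ℝ in 𝓝[>] 0, g₁ (z + s • d) - g₂ (z + s • d) = d := by
  have hℓ : ℓ ≠ 0 := by
    rintro rfl
    exact lt_irrefl _ hd
  have hne : g₁ y ≠ g₂ y := by
    intro h
    rw [h, sub_self] at hyd
    rw [← hyd, map_zero] at hd
    exact lt_irrefl _ hd
  have hyz : ℓ y < ℓ z := by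
    rw [hz, map_add, map_smul, smul_eq_mul]
    nlinarith
  obtain ⟨ρ₁, G₁, G₂, hρ₁, hρ₁', SL, hL, -, -⟩ := H.side hρ hZ hy hyz hne (t := t)
    (by rw [hyd]; exact hz)
  rw [hyd] at SL
  set α := ℓ d with hα
  have c1 : ContinuousAt G₁ z := SL.cont₁.continuousAt (isOpen_ball.mem_nhds (mem_ball_self hρ₁))
  have c2 : ContinuousAt G₂ z := SL.cont₂.continuousAt (isOpen_ball.mem_nhds (mem_ball_self hρ₁))
  have c3 : ContinuousAt (fun x => ℓ (G₁ x - G₂ x)) z :=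
    ℓ.continuous.continuousAt.comp (c1.sub c2)
  have hev : ∀ᶠ x in 𝓝 z, 3 / 4 * α < ℓ (G₁ x - G₂ x) := by
    refine c3.eventually (lt_mem_nhds ?_)
    change 3 / 4 * α < ℓ (G₁ z - G₂ z)
    rw [SL.eqd, ← hα]
    linarith
  obtain ⟨r₂, hr₂, hb₂⟩ := Metric.eventually_nhds_iff_ball.1 hev
  set ρ₂ := min r₂ ρ₁ with hρ₂def
  have hρ₂ : 0 < ρ₂ := lt_min hr₂ hρ₁
  have hsub1 : ball z ρ₂ ⊆ ball z ρ₁ := ball_subset_ball (min_le_right _ _)
  have hsub0 : ball z ρ₂ ⊆ ball z ρ := hsub1.trans (ball_subset_ball hρ₁')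
  have hK : ∀ x ∈ ball z ρ₂, 3 / 4 * α < ℓ (G₁ x - G₂ x) := fun x hx =>
    hb₂ x (ball_subset_ball (min_le_left _ _) hx)
  have hKpar : ∀ x ∈ ball z ρ₂, ∃ κ : ℝ, G₁ x - G₂ x = κ • d := by
    intro x hx
    obtain ⟨c, hc⟩ := SL.par₁ x (hsub1 hx)
    obtain ⟨c', hc'⟩ := SL.par₂ x (hsub1 hx)
    refine ⟨c - c' + 1, ?_⟩
    rw [hc, hc', add_smul, sub_smul, one_smul, ← SL.eqd]
    abel
  -- Claim A: the difference does not vanish on the right
  have claimA : ∀ r, 0 < r → r ≤ ρ₂ → ∃ x ∈ ball z r, ℓ z < ℓ x ∧ α / 2 < ℓ (g₁ x - g₂ x) := by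
    intro r hr0 hrρ
    by_contra hcon
    push Not at hcon
    have hmeas : Measurable (fun x => g₁ x - g₂ x) := H.h₁.1.1.meas.sub H.h₂.1.1.meas
    have hbd : ∀ᵐ x, ‖g₁ x - g₂ x‖ ≤ 2 := by
      filter_upwards [H.h₁.1.1.bound, H.h₂.1.1.bound] with x h1 h2
      calc ‖g₁ x - g₂ x‖ ≤ ‖g₁ x‖ + ‖g₂ x‖ := norm_sub_le _ _
        _ ≤ 1 + 1 := add_le_add h1 h2
        _ = 2 := by norm_num
    have := jump hmeas hbd hr0 hℓ (fun ζ hζ _ => H.div_diff hζ) (α := 3 / 4 * α) (β := α / 2)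
      (fun x hx hxz => by
        have hx2 : x ∈ ball z ρ₂ := ball_subset_ball hrρ hx
        rw [(hL x (hsub1 hx2) hxz).1, (hL x (hsub1 hx2) hxz).2]
        exact (hK x hx2).le)
      (fun x hx hxz => hcon x hx hxz)
    linarith
  -- Claim B
  set m : ℝ := 4 * ‖ℓ‖ / α with hm
  have hm0 : 0 ≤ m := by positivity
  set ρ₄ : ℝ := ρ₂ / (2 * (1 + m)) with hρ₄def
  have hρ₄ : 0 < ρ₄ := by positivity
  have hρ₄m : ρ₄ * (1 + m) = ρ₂ / 2 := by
    rw [hρ₄def]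
    field_simp
  have hρ₄le : ρ₄ ≤ ρ₂ := by nlinarith
  have claimB : ∀ x ∈ ball z ρ₄, ℓ z < ℓ x → α / 2 < ℓ (g₁ x - g₂ x) →
      g₁ x - g₂ x = G₁ x - G₂ x := by
    intro x hx hzx hℓx
    have hxρ₂ : x ∈ ball z ρ₂ := ball_subset_ball hρ₄le hx
    have hxZ : x ∉ Z := hZ x (hsub0 hxρ₂) (ne_of_gt hzx)
    have hxne : g₁ x ≠ g₂ x := by
      intro h
      rw [h, sub_self, map_zero] at hℓx
      linarith
    have hxV : x ∈ VV g₁ g₂ Z := ⟨hxZ, hxne⟩
    set e : E3 := g₁ x - g₂ x with he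
    have hℓe : 0 < ℓ e := by linarith
    have hen : ‖e‖ ≤ 2 := H.norm_le hxV
    set s : ℝ := (ℓ x - ℓ z) / ℓ e with hs
    have hs0 : 0 < s := div_pos (by linarith) hℓe
    set z' : E3 := x - s • e with hz'
    have hℓz' : ℓ z' = ℓ z := by
      rw [hz', map_sub, map_smul, smul_eq_mul, hs, div_mul_cancel₀ _ hℓe.ne']
      ring
    have hxz : ‖x - z‖ < ρ₄ := by
      have := hx
      rwa [mem_ball, dist_eq_norm] at this
    have hnorm : ‖x - z'‖ ≤ m * ‖x - z‖ := by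
      have e1 : x - z' = s • e := by rw [hz', sub_sub_cancel]
      rw [e1, norm_smul, Real.norm_eq_abs, abs_of_pos hs0]
      have h1 : s ≤ ‖ℓ‖ * ‖x - z‖ / (α / 2) := by
        rw [hs]
        have h2 : ℓ x - ℓ z ≤ ‖ℓ‖ * ‖x - z‖ := by
          rw [← map_sub]
          exact (le_abs_self _).trans (ℓ.le_opNorm _)
        exact div_le_div₀ (by positivity) h2 (by linarith) hℓx.le
      calc s * ‖e‖ ≤ (‖ℓ‖ * ‖x - z‖ / (α / 2)) * 2 :=
            mul_le_mul h1 hen (norm_nonneg _) (by positivity)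
        _ = m * ‖x - z‖ := by
            rw [hm]
            field_simp
            ring
    have hmρ : m * ‖x - z‖ ≤ m * ρ₄ := mul_le_mul_of_nonneg_left hxz.le hm0
    have hxz' : ‖x - z'‖ < ρ₂ / 2 := by nlinarith
    have hzz' : ‖z' - z‖ < ρ₂ / 2 := by
      have e1 : z' - z = (x - z) - (x - z') := by abel
      calc ‖z' - z‖ ≤ ‖x - z‖ + ‖x - z'‖ := by
            rw [e1]
            exact norm_sub_le _ _
        _ < ρ₄ + m * ρ₄ := by linarith
        _ = ρ₂ / 2 := by rw [← hρ₄m]; ring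
    have hsub' : ball z' (ρ₂ / 2) ⊆ ball z ρ₂ := by
      apply ball_subset_ball'
      rw [dist_eq_norm]
      linarith
    have hZ' : ∀ w ∈ ball z' (ρ₂ / 2), ℓ w ≠ ℓ z' → w ∉ Z := fun w hw hwz =>
      hZ w (hsub0 (hsub' hw)) (by rwa [hℓz'] at hwz)
    have hz'mem : z' ∈ ball z ρ₂ := hsub' (mem_ball_self (by positivity))
    -- the right side at `z'`
    obtain ⟨ρ₅, G₁', G₂', hρ₅, hρ₅', SR, hRt, -, -⟩ := H.side (z := z') (ρ := ρ₂ / 2)
      (by positivity) (ℓ := -ℓ) (fun w hw hwz => hZ' w hw (by simpa using hwz)) (y := x)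
      (by rw [mem_ball, dist_eq_norm]; exact hxz') (by
        rw [_root_.neg_apply, _root_.neg_apply, hℓz']
        linarith) hxne (t := -s) (by rw [hz', neg_smul, sub_eq_add_neg])
    rw [← he] at SR
    -- the left side at `z'`
    obtain ⟨κ, hκ⟩ := hKpar z' hz'mem
    set k : E3 := G₁ z' - G₂ z' with hk
    have hℓk : 0 < ℓ k := by
      have := hK z' hz'mem
      rw [← hk] at this
      linarith
    obtain ⟨σ, hσ0, hσ⟩ : ∃ σ : ℝ, 0 < σ ∧ ‖σ • k‖ < ρ₂ / 2 := by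
      refine ⟨ρ₂ / 2 / (2 * (1 + ‖k‖)), by positivity, ?_⟩
      rw [norm_smul, Real.norm_eq_abs, abs_of_pos (by positivity)]
      rw [div_mul_eq_mul_div, div_lt_iff₀ (by positivity)]
      have : 0 ≤ ‖k‖ := norm_nonneg k
      nlinarith
    set y'' : E3 := z' - σ • k with hy''
    have hy''mem : y'' ∈ ball z' (ρ₂ / 2) := by
      rw [mem_ball, dist_eq_norm, hy'', sub_sub_cancel_left, norm_neg]
      exact hσ
    have hℓy'' : ℓ y'' < ℓ z' := by
      rw [hy'', map_sub, map_smul, smul_eq_mul]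
      have := mul_pos hσ0 hℓk
      linarith
    have hy''e : y'' = z' + (-(σ * κ)) • d := by
      rw [hy'', hκ]
      module
    have hgy := hL y'' (hsub1 (hsub' hy''mem)) (by rw [← hℓz']; exact hℓy'')
    have hg1 : g₁ y'' = G₁ z' := by rw [hgy.1, hy''e, SL.inv₁]
    have hg2 : g₂ y'' = G₂ z' := by rw [hgy.2, hy''e, SL.inv₂]
    have hky : g₁ y'' - g₂ y'' = k := by rw [hg1, hg2]
    obtain ⟨ρ₆, G₁'', G₂'', hρ₆, hρ₆', SL', hL', -, -⟩ := H.side (z := z') (ρ := ρ₂ / 2)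
      (by positivity) (ℓ := ℓ) hZ' (y := y'') hy''mem hℓy''
      (by rw [hg1, hg2]; exact SL.ne z' (hsub1 hz'mem)) (t := σ)
      (by rw [hky, hy'', sub_add_cancel])
    rw [hky] at SL'
    have hmeet : k = e := by
      refine H.meet (z := z') (ρ := min ρ₅ ρ₆) (lt_min hρ₅ hρ₆) (ℓ := ℓ) ?_
        (SL'.mono (min_le_right _ _)) (SR.mono (min_le_left _ _)) ?_ ?_ hℓk.ne'
      · intro w hw hwz
        exact hZ' w (ball_subset_ball hρ₅' (ball_subset_ball (min_le_left _ _) hw)) hwz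
      · intro w hw hwz
        exact hL' w (ball_subset_ball (min_le_right _ _) hw) hwz
      · intro w hw hwz
        exact hRt w (ball_subset_ball (min_le_left _ _) hw) (by simpa using hwz)
    -- conclusion
    have hxe : x = z' + (s * κ) • d := by
      rw [mul_smul, ← hκ, hmeet, hz', sub_add_cancel]
    have e1 : G₁ x = G₁ z' := by
      conv_lhs => rw [hxe]
      rw [SL.inv₁]
    have e2 : G₂ x = G₂ z' := by
      conv_lhs => rw [hxe]
      rw [SL.inv₂]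
    rw [e1, e2, ← hk, hmeet]
  -- Claim C: connectedness
  have claimC : ∀ x ∈ ball z ρ₄, ℓ z < ℓ x → g₁ x - g₂ x = G₁ x - G₂ x := by
    set U : Set E3 := ball z ρ₄ ∩ {x | ℓ z < ℓ x} with hU
    have hUopen : IsOpen U := isOpen_ball.inter (isOpen_lt continuous_const ℓ.continuous)
    have hUconv : Convex ℝ U := (convex_ball z ρ₄).inter
      (convex_halfSpace_gt ℓ.isLinear (ℓ z))
    have hUZ : ∀ x ∈ U, x ∉ Z := fun x hx =>
      hZ x (hsub0 (ball_subset_ball hρ₄le hx.1)) (ne_of_gt hx.2)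
    have hcont : ContinuousOn (fun x => ℓ (g₁ x - g₂ x)) U := fun x hx =>
      (ℓ.continuous.continuousAt.comp (H.hc x (hUZ x hx))).continuousWithinAt
    have hopen1 : IsOpen (U ∩ (fun x => ℓ (g₁ x - g₂ x)) ⁻¹' Ioi (α / 2)) :=
      hcont.isOpen_inter_preimage hUopen isOpen_Ioi
    have hopen2 : IsOpen (U ∩ (fun x => ℓ (g₁ x - g₂ x)) ⁻¹' Iio (5 / 8 * α)) :=
      hcont.isOpen_inter_preimage hUopen isOpen_Iio
    have hval : ∀ x ∈ U, α / 2 < ℓ (g₁ x - g₂ x) → 3 / 4 * α < ℓ (g₁ x - g₂ x) := by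
      intro x hx h
      rw [claimB x hx.1 hx.2 h]
      exact hK x (ball_subset_ball hρ₄le hx.1)
    have hsubU := IsPreconnected.subset_left_of_subset_union hopen1 hopen2 (by
        rw [Set.disjoint_left]
        rintro x ⟨hx, h1⟩ ⟨_, h2⟩
        have h3 := hval x hx h1
        simp only [mem_preimage, mem_Iio] at h2
        linarith) (by
        intro x hx
        by_cases h : α / 2 < ℓ (g₁ x - g₂ x)
        · exact Or.inl ⟨hx, h⟩
        · right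
          refine ⟨hx, ?_⟩
          simp only [mem_preimage, mem_Iio]
          linarith) (by
        obtain ⟨x, hx, hx1, hx2⟩ := claimA ρ₄ hρ₄ hρ₄le
        exact ⟨x, ⟨hx, hx1⟩, ⟨⟨hx, hx1⟩, hx2⟩⟩) hUconv.isPreconnected
    intro x hx hxz
    exact claimB x hx hxz (hsubU ⟨hx, hxz⟩).2
  -- on the line
  have hc : Tendsto (fun s : ℝ => z + s • d) (𝓝 0) (𝓝 z) := by
    have : Continuous (fun s : ℝ => z + s • d) := by fun_prop
    have h := this.tendsto 0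
    simpa using h
  have h1 : ∀ᶠ s : ℝ in 𝓝[>] 0, z + s • d ∈ ball z ρ₄ :=
    (hc.mono_left nhdsWithin_le_nhds) (ball_mem_nhds z hρ₄)
  filter_upwards [h1, self_mem_nhdsWithin] with s hs hs0
  have hs0' : 0 < s := hs0
  rw [claimC _ hs (by
    rw [map_add, map_smul, smul_eq_mul]
    have := mul_pos hs0' hd
    linarith), SL.inv₁, SL.inv₂, SL.eqd]

end

end Run7.h895
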